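import Pool.Agent.H38.T1.Eb

/-!
Row Ec. (about 170 lines): real places and rational integers in a field of odd degree.
oddP_iff: OddP v iff 2 is not in v.asIdeal (valuation_lt_one_iff_mem; map_ofNat) iff rp v <> 2 (mem_iff_eq).
isTR: K Galois over Q of odd degree is totally real. A ramified infinite place has a stabilizer of order 2 dividing |Gal| (InfinitePlace.isUnramified_iff / not_isUnramified_iff_card_stabilizer_eq_two, IsGalois.card_aut_eq_finrank); an unramified infinite place over the real place of Q is real.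
 Or directly: complex conjugation restricts to an automorphism of K (normal) of order <= 2.
nr_spec: for an odd prime q there is a non-square modulo q (FiniteField.exists_nonsquare for ZMod q, ZMod.intCast_zmod_eq_zero_iff_dvd / ZMod.intCast_eq_intCast_iff_dvd_sub), and it is prime to q (0 is a square).
sq_int: if m is a square s^2 in K, K of odd degree over Q, then m is a square in Z: otherwise X^2 - m is the minimal polynomial of s over Q, of degree 2 dividing finrank Q K (minpoly.degree_dvd / IntermediateField.adjoin.finrank, finrank_mul_finrank); so s is rational: s = algebraMap r, r^2 = m, r an integer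
 (Rat.isSquare_intCast_iff). sc_eq_zero.
-/

set_option autoImplicit false
set_option linter.unusedSectionVars false
open scoped Classical

open WithZero NumberField IsDedekindDomain H38RT

namespace H38T1

variable {K : Type} [Field K] [NumberField K] {v : HeightOneSpectrum (𝓞 K)}

theorem oddP_iff : OddP v ↔ rp v ≠ 2 := by
  unfold OddP
  have h1 : v.valuation K (2 : K) = v.valuation K (algebraMap (𝓞 K) K ((2 : ℕ) : 𝓞 K)) := by
    rw [map_natCast]
    norm_num
  have h2 : v.valuation K (algebraMap (𝓞 K) K ((2 : ℕ) : 𝓞 K)) ≤ 1 := v.valuation_le_one _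
  have h3 := v.valuation_lt_one_iff_mem (K := K) ((2 : ℕ) : 𝓞 K)
  rw [h1]
  have h4 : rp v ≠ 2 ↔ ((2 : ℕ) : 𝓞 K) ∉ v.asIdeal := (mem_iff_eq Nat.prime_two).symm.not
  rw [h4, ← h3, not_lt]
  constructor
  · intro h
    exact h.ge
  · intro h
    exact le_antisymm h2 h

theorem isTR [IsGalois ℚ K] (hodd : Odd (Module.finrank ℚ K)) : IsTotallyReal K := by
  constructor
  intro w
  have h1 : w.IsUnramified ℚ := by
    by_contra h
    exact Nat.not_even_iff_odd.2 hodd (InfinitePlace.even_finrank_of_not_isUnramified h)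
  rcases InfinitePlace.isUnramified_iff.1 h1 with h | h
  · exact h
  · exfalso
    have h2 : (w.comap (algebraMap ℚ K)).IsReal := IsTotallyReal.isReal _
    exact InfinitePlace.not_isReal_iff_isComplex.2 h h2

theorem nr_spec {q : ℕ} (hq : q.Prime) (hq2 : q ≠ 2) : ¬ SqMod q (nr q) ∧ ¬ (q : ℤ) ∣ nr q := by
  have : Fact q.Prime := ⟨hq⟩
  have hex : ∃ r : ℤ, ¬ SqMod q r := by
    obtain ⟨a, ha⟩ := FiniteField.exists_nonsquare (F := ZMod q) (by rwa [ZMod.ringChar_zmod_n])
    obtain ⟨r, rfl⟩ := ZMod.intCast_surjective a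
    refine ⟨r, ?_⟩
    rintro ⟨t, ht⟩
    apply ha
    refine ⟨(t : ZMod q), ?_⟩
    have h1 : ((r - t ^ 2 : ℤ) : ZMod q) = 0 := (ZMod.intCast_zmod_eq_zero_iff_dvd _ _).2 ht
    push_cast at h1
    rw [sub_eq_zero] at h1
    rw [h1, sq]
  have h1 : ¬ SqMod q (nr q) := by
    unfold nr
    rw [dif_pos hex]
    exact hex.choose_spec
  refine ⟨h1, ?_⟩
  intro h2
  apply h1
  exact ⟨0, by simpa using h2⟩

theorem sq_int (hodd : Odd (Module.finrank ℚ K)) {m : ℤ} (hm : m ≠ 0) (h : ¬ IsSquare m) :
    sc (m : K) ≠ 0 := by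
  intro h0
  have hmK : (m : K) ≠ 0 := by exact_mod_cast hm
  obtain ⟨s, hs⟩ := (sc_eq_zero hmK).1 h0
  apply h
  have hint : IsIntegral ℚ s := Algebra.IsIntegral.isIntegral s
  have hdvd : (minpoly ℚ s).natDegree ∣ Module.finrank ℚ K := minpoly.degree_dvd hint
  have hmon : (Polynomial.X ^ 2 - Polynomial.C (m : ℚ)).Monic :=
    Polynomial.monic_X_pow_sub_C _ (by norm_num)
  have hle : (minpoly ℚ s).natDegree ≤ 2 := by
    have h1 := minpoly.min ℚ s hmon (by
      rw [map_sub, map_pow, Polynomial.aeval_X, Polynomial.aeval_C]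
      have : (algebraMap ℚ K) (m : ℚ) = (m : K) := by simp
      rw [this, hs, sq, sub_self])
    have h2 := Polynomial.natDegree_le_natDegree h1
    rwa [Polynomial.natDegree_X_pow_sub_C] at h2
  have hpos : 0 < (minpoly ℚ s).natDegree := minpoly.natDegree_pos hint
  have hne2 : (minpoly ℚ s).natDegree ≠ 2 := by
    intro h2
    rw [h2] at hdvd
    exact Nat.not_even_iff_odd.2 hodd (even_iff_two_dvd.2 hdvd)
  have h1 : (minpoly ℚ s).natDegree = 1 := by omega
  obtain ⟨r, hr⟩ := minpoly.natDegree_eq_one_iff.1 h1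
  have h3 : (m : ℚ) = r * r := by
    have h4 : (algebraMap ℚ K) (m : ℚ) = algebraMap ℚ K (r * r) := by
      rw [map_mul, hr]
      simpa using hs
    exact (algebraMap ℚ K).injective h4
  exact Rat.isSquare_intCast_iff.1 ⟨r, h3⟩

theorem zmod_two (x : ZMod 2) : x = 0 ∨ x = 1 := by
  revert x
  decide

end H38T1
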