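import Pool.Agent.H38.RT.Rk

/-!
Definitions for T1: square classes, local functions, Galois action (no row).
-/

set_option autoImplicit false
open scoped Classical

open WithZero NumberField IsDedekindDomain H38RT

namespace H38T1

/-- Square classes of a field, written additively. -/
def SC (K : Type) [Field K] : Type := Additive (Kˣ ⧸ (powMonoidHom 2 : Kˣ →* Kˣ).range)

noncomputable instance instSC (K : Type) [Field K] : AddCommGroup (SC K) :=
  inferInstanceAs (AddCommGroup (Additive (Kˣ ⧸ (powMonoidHom 2 : Kˣ →* Kˣ).range)))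

section Basic

variable {K : Type} [Field K]

/-- The class of a unit. -/
noncomputable def scu (K : Type) [Field K] : Additive Kˣ →+ SC K where
  toFun u := Additive.ofMul (QuotientGroup.mk (Additive.toMul u) :
    Kˣ ⧸ (powMonoidHom 2 : Kˣ →* Kˣ).range)
  map_zero' := rfl
  map_add' _ _ := rfl

lemma scu_surj (c : SC K) : ∃ u : Additive Kˣ, scu K u = c := by
  obtain ⟨x, hx⟩ := QuotientGroup.mk_surjective
    (Additive.toMul (c : Additive (Kˣ ⧸ (powMonoidHom 2 : Kˣ →* Kˣ).range)))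
  exact ⟨Additive.ofMul x, congrArg Additive.ofMul hx⟩

lemma scu_eq_zero {u : Additive Kˣ} : scu K u = 0 ↔ ∃ z : Additive Kˣ, u = 2 • z := by
  have h1 : scu K u = 0 ↔ (QuotientGroup.mk (Additive.toMul u) :
      Kˣ ⧸ (powMonoidHom 2 : Kˣ →* Kˣ).range) = 1 := Iff.rfl
  rw [h1, QuotientGroup.eq_one_iff]
  constructor
  · rintro ⟨y, hy⟩
    refine ⟨Additive.ofMul y, ?_⟩
    apply Additive.toMul.injective
    rw [← hy]
    rfl
  · rintro ⟨z, rfl⟩
    exact ⟨Additive.toMul z, rfl⟩

lemma SC.two_smul (c : SC K) : 2 • c = 0 := by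
  obtain ⟨u, rfl⟩ := scu_surj c
  rw [← map_nsmul]
  exact scu_eq_zero.2 ⟨u, rfl⟩

noncomputable instance : Module (ZMod 2) (SC K) := AddCommGroup.zmodModule SC.two_smul

/-- The class of an element (zero for the element zero). -/
noncomputable def sc (x : K) : SC K :=
  if h : x ≠ 0 then scu K (Additive.ofMul (Units.mk0 x h)) else 0

lemma sc_of_ne {x : K} (h : x ≠ 0) : sc x = scu K (Additive.ofMul (Units.mk0 x h)) := dif_pos h

lemma sc_mul {x y : K} (hx : x ≠ 0) (hy : y ≠ 0) : sc (x * y) = sc x + sc y := by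
  rw [sc_of_ne hx, sc_of_ne hy, sc_of_ne (mul_ne_zero hx hy), ← map_add]
  congr 1
  apply Additive.toMul.injective
  ext
  rfl

lemma sc_eq_zero {x : K} (hx : x ≠ 0) : sc x = 0 ↔ IsSquare x := by
  rw [sc_of_ne hx, scu_eq_zero]
  constructor
  · rintro ⟨z, hz⟩
    refine ⟨((Additive.toMul z : Kˣ) : K), ?_⟩
    have h1 := congrArg (fun u : Additive Kˣ => ((Additive.toMul u : Kˣ) : K)) hz
    have h2 : ((Additive.toMul (2 • z) : Kˣ) : K) = ((Additive.toMul z ^ 2 : Kˣ) : K) := rfl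
    change x = ((Additive.toMul (2 • z) : Kˣ) : K) at h1
    rw [h1, h2, Units.val_pow_eq_pow_val, sq]
  · rintro ⟨y, hy⟩
    have hy0 : y ≠ 0 := by
      rintro rfl
      exact hx (by rw [hy, mul_zero])
    refine ⟨Additive.ofMul (Units.mk0 y hy0), ?_⟩
    apply Additive.toMul.injective
    have h2 : (Additive.toMul (2 • (Additive.ofMul (Units.mk0 y hy0))) : Kˣ) =
      (Units.mk0 y hy0) ^ 2 := rfl
    rw [h2]
    ext
    rw [Units.val_pow_eq_pow_val, sq]
    exact hy

lemma sc_surj (c : SC K) : ∃ x : K, x ≠ 0 ∧ sc x = c := by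
  obtain ⟨u, rfl⟩ := scu_surj c
  refine ⟨((Additive.toMul u : Kˣ) : K), Units.ne_zero _, ?_⟩
  rw [sc_of_ne (Units.ne_zero _)]
  congr 1
  apply Additive.toMul.injective
  ext
  rfl

/-- A representative. -/
noncomputable def rep (c : SC K) : K := (sc_surj c).choose

lemma rep_ne (c : SC K) : rep c ≠ 0 := (sc_surj c).choose_spec.1

lemma sc_rep (c : SC K) : sc (rep c) = c := (sc_surj c).choose_spec.2

end Basic

section Local

variable {K : Type} [Field K] [NumberField K]

/-- A uniformizer at `v`. -/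
noncomputable def unif (v : HeightOneSpectrum (𝓞 K)) : K :=
  (v.valuation_exists_uniformizer K).choose

lemma unif_spec (v : HeightOneSpectrum (𝓞 K)) : v.valuation K (unif v) = exp (-1) :=
  (v.valuation_exists_uniformizer K).choose_spec

/-- The place is odd. -/
def OddP (v : HeightOneSpectrum (𝓞 K)) : Prop := v.valuation K 2 = 1

/-- Parity of the order. -/
noncomputable def eo (v : HeightOneSpectrum (𝓞 K)) (c : SC K) : ZMod 2 :=
  (ord (v.valuation K) (rep c) : ZMod 2)

/-- Legendre class relative to the uniformizer. -/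
noncomputable def la (v : HeightOneSpectrum (𝓞 K)) (c : SC K) : ZMod 2 :=
  lam (v.valuation K) (unif v) (rep c)

/-- Sign at a real place. -/
noncomputable def si (w : K →+* ℝ) (c : SC K) : ZMod 2 := sw w (rep c)

/-- Primary at a place above two. -/
def Pri (v : HeightOneSpectrum (𝓞 K)) (c : SC K) : Prop := Prm (v.valuation K) (rep c)

/-- The class at two of a primary class. -/
noncomputable def ka (v : HeightOneSpectrum (𝓞 K)) (c : SC K) : ZMod 2 :=
  kp (v.valuation K) (rep c)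

/-- The tame pairing. -/
noncomputable def tp (v : HeightOneSpectrum (𝓞 K)) (c c' : SC K) : ZMod 2 :=
  eo v c * la v c' + eo v c' * la v c + eo v c * eo v c' * la v (sc (-1))

end Local

section Galois

variable {K : Type} [Field K] [NumberField K]

/-- The action of an automorphism on the square classes. -/
noncomputable def actM (g : K ≃ₐ[ℚ] K) : SC K →+ SC K :=
  (MonoidHom.toAdditive (QuotientGroup.map (powMonoidHom 2 : Kˣ →* Kˣ).range
    (powMonoidHom 2 : Kˣ →* Kˣ).range (Units.map (g : K →* K)) (by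
    rintro x ⟨y, rfl⟩
    exact ⟨Units.map (g : K →* K) y, by
      ext
      simp [powMonoidHom_apply]⟩)) :
    Additive (Kˣ ⧸ (powMonoidHom 2 : Kˣ →* Kˣ).range) →+
      Additive (Kˣ ⧸ (powMonoidHom 2 : Kˣ →* Kˣ).range))

lemma actM_scu (g : K ≃ₐ[ℚ] K) (u : Additive Kˣ) :
    actM g (scu K u) = scu K (Additive.ofMul (Units.map (g : K →* K) (Additive.toMul u))) := rfl

noncomputable instance : DistribMulAction (K ≃ₐ[ℚ] K) (SC K) where
  smul g c := actM g c
  one_smul c := by
    obtain ⟨u, rfl⟩ := scu_surj c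
    change actM 1 (scu K u) = scu K u
    rw [actM_scu]
    rfl
  mul_smul g h c := by
    obtain ⟨u, rfl⟩ := scu_surj c
    change actM (g * h) (scu K u) = actM g (actM h (scu K u))
    rw [actM_scu, actM_scu, actM_scu]
    rfl
  smul_zero g := map_zero (actM g)
  smul_add g c c' := map_add (actM g) c c'

lemma smul_sc (g : K ≃ₐ[ℚ] K) {x : K} (hx : x ≠ 0) : g • sc x = sc (g x) := by
  have hg : g x ≠ 0 := by
    intro h0
    exact hx (by simpa using h0)
  rw [sc_of_ne hx, sc_of_ne hg]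
  change actM g _ = _
  rw [actM_scu]
  congr 1
  apply Additive.toMul.injective
  ext
  rfl

/-- The automorphism of the ring of integers. -/
noncomputable def gO (g : K ≃ₐ[ℚ] K) : 𝓞 K ≃+* 𝓞 K := RingOfIntegers.mapRingEquiv g.toRingEquiv

lemma gO_coe (g : K ≃ₐ[ℚ] K) (x : 𝓞 K) : ((gO g x : 𝓞 K) : K) = g (x : K) := rfl

/-- The action of an automorphism on the places. -/
noncomputable def mv (g : K ≃ₐ[ℚ] K) (v : HeightOneSpectrum (𝓞 K)) : HeightOneSpectrum (𝓞 K) where
  asIdeal := v.asIdeal.comap (gO g⁻¹ : 𝓞 K →+* 𝓞 K)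
  isPrime := Ideal.comap_isPrime _ _
  ne_bot := by
    intro h0
    apply v.ne_bot
    rw [eq_bot_iff]
    intro x hx
    have h1 : (gO g x) ∈ v.asIdeal.comap (gO g⁻¹ : 𝓞 K →+* 𝓞 K) := by
      rw [Ideal.mem_comap]
      have h2 : (gO g⁻¹ : 𝓞 K →+* 𝓞 K) (gO g x) = x := by
        apply RingOfIntegers.ext
        change g⁻¹ (g (x : K)) = x
        exact g.symm_apply_apply _
      rw [h2]
      exact hx
    rw [h0, Ideal.mem_bot] at h1
    rw [Ideal.mem_bot]
    exact (map_eq_zero_iff _ (gO g).injective).1 h1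

lemma mem_mv {g : K ≃ₐ[ℚ] K} {v : HeightOneSpectrum (𝓞 K)} {x : 𝓞 K} :
    x ∈ (mv g v).asIdeal ↔ gO g⁻¹ x ∈ v.asIdeal := Iff.rfl

noncomputable instance : MulAction (K ≃ₐ[ℚ] K) (HeightOneSpectrum (𝓞 K)) where
  smul g v := mv g v
  one_smul v := by
    apply HeightOneSpectrum.ext
    ext x
    change gO (1 : K ≃ₐ[ℚ] K)⁻¹ x ∈ v.asIdeal ↔ x ∈ v.asIdeal
    have : gO (1 : K ≃ₐ[ℚ] K)⁻¹ x = x := by
      apply RingOfIntegers.ext
      rw [gO_coe, inv_one]
      rfl
    rw [this]
  mul_smul g h v := by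
    apply HeightOneSpectrum.ext
    ext x
    change gO (g * h)⁻¹ x ∈ v.asIdeal ↔ gO h⁻¹ (gO g⁻¹ x) ∈ v.asIdeal
    have : gO (g * h)⁻¹ x = gO h⁻¹ (gO g⁻¹ x) := by
      apply RingOfIntegers.ext
      rw [gO_coe, gO_coe, gO_coe, mul_inv_rev]
      rfl
    rw [this]

lemma smul_def (g : K ≃ₐ[ℚ] K) (v : HeightOneSpectrum (𝓞 K)) : g • v = mv g v := rfl

end Galois

/-- Local data of a pair of Selmer groups: `Sg` odd places with generators `g` of the local
conditions of `X'`, `P` places at which `X` is trivial and `X'` is free, `P'` the reverse. If `τ` is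
true then `X'` has the sign conditions, otherwise `X` has them. -/
structure LD (K : Type) [Field K] [NumberField K] where
  Sg : Set (HeightOneSpectrum (𝓞 K))
  g : HeightOneSpectrum (𝓞 K) → SC K
  P : Set (HeightOneSpectrum (𝓞 K))
  P' : Set (HeightOneSpectrum (𝓞 K))
  τ : Bool

section Sel

variable {K : Type} [Field K] [NumberField K]

/-- The first Selmer group. -/
def XX (L : LD K) : Set (SC K) :=
  {c | (∀ v, v ∉ L.Sg → v ∉ L.P' → eo v c = 0) ∧ (∀ v ∈ L.Sg, tp v c (L.g v) = 0) ∧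
    (∀ v ∈ L.P, la v c = 0) ∧ (L.τ = false → ∀ w : K →+* ℝ, si w c = 0)}

/-- The second Selmer group. -/
def XX' (L : LD K) : Set (SC K) :=
  {c | (∀ v, v ∉ L.Sg → v ∉ L.P → eo v c = 0) ∧ (∀ v, ¬ OddP v → Pri v c) ∧
    (∀ v ∈ L.Sg, (eo v c = 0 ∧ la v c = 0) ∨ (eo v c = eo v (L.g v) ∧ la v c = la v (L.g v))) ∧
    (∀ v ∈ L.P', la v c = 0) ∧ (L.τ = true → ∀ w : K →+* ℝ, si w c = 0)}

/-- The totally positive classes of even order everywhere which are trivial at the places of `S`. -/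
def NS (S : Set (HeightOneSpectrum (𝓞 K))) : Set (SC K) :=
  {c | (∀ v, eo v c = 0) ∧ (∀ v ∈ S, la v c = 0) ∧ ∀ w : K →+* ℝ, si w c = 0}

/-- The places are odd and disjoint, the sets are finite and the generators nontrivial. -/
structure LD.Good (L : LD K) : Prop where
  finSg : L.Sg.Finite
  finP : L.P.Finite
  finP' : L.P'.Finite
  oddSg : ∀ v ∈ L.Sg, OddP v
  oddP : ∀ v ∈ L.P, OddP v
  oddP' : ∀ v ∈ L.P', OddP v
  d1 : Disjoint L.Sg L.P
  d2 : Disjoint L.Sg L.P'
  d3 : Disjoint L.P L.P'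
  gen : ∀ v ∈ L.Sg, ¬ (eo v (L.g v) = 0 ∧ la v (L.g v) = 0)

/-- The places above the rational primes in `Q`. -/
def ov (K : Type) [Field K] [NumberField K] (Q : Set ℕ) : Set (HeightOneSpectrum (𝓞 K)) :=
  {v | ∃ q ∈ Q, (q : 𝓞 K) ∈ v.asIdeal}

/-- The rational prime `p` is odd and splits completely in the Galois extension `K`. -/
def Spl (K : Type) [Field K] [NumberField K] (p : ℕ) : Prop :=
  p.Prime ∧ p ≠ 2 ∧ ∀ v : HeightOneSpectrum (𝓞 K), (p : 𝓞 K) ∈ v.asIdeal →
    Ideal.absNorm v.asIdeal = p ∧ ∀ g : K ≃ₐ[ℚ] K, g • v = v → g = 1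

end Sel

end H38T1
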