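import Pool.Agent.H38.T1.Df
import Pool.Agent.H73.IS.Df

/-!
Definitions for T1: the curves, the twisting integers and their local data (no row).
-/

set_option autoImplicit false
set_option linter.style.haveILetI false
set_option linter.unusedSectionVars false
open scoped Classical

open WithZero NumberField IsDedekindDomain H38RT

namespace H38T1

/-- The hypotheses on the curve `y^2 = x (x^2 + a x + b)`. -/
structure Hyp (a b : ℤ) : Prop where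
  a4 : a % 4 = 1
  b4 : ∃ (k : ℕ) (b₀ : ℤ), b = 4 ^ (k + 2) * b₀ ∧ b₀ % 2 = 1
  nb : ¬ IsSquare b
  nD : ¬ IsSquare (a ^ 2 - 4 * b)
  nbD : ¬ IsSquare (b * (a ^ 2 - 4 * b))
  mini : ∀ q : ℕ, q.Prime → (q : ℤ) ∣ a → ¬ (q : ℤ) ^ 2 ∣ b

/-- `x` is a square modulo `q`. -/
def SqMod (q : ℕ) (x : ℤ) : Prop := ∃ t : ℤ, (q : ℤ) ∣ x - t ^ 2

/-- A non-residue modulo `q`. -/
noncomputable def nr (q : ℕ) : ℤ := if h : ∃ r : ℤ, ¬ SqMod q r then h.choose else 0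

/-- The generator of the local condition for the second group at an odd prime dividing `b D`. -/
noncomputable def gI (a b : ℤ) (q : ℕ) : ℤ :=
  if (q : ℤ) ∣ b then (if Even (padicValInt q b) then nr q else -b)
  else (if Even (padicValInt q (a ^ 2 - 4 * b)) then nr q else a ^ 2 - 4 * b)

/-- The conditions on the twisting integer `n`, with the sets `Pp`, `Pp'` of the primes at which
`b`, respectively `D = a^2 - 4 b`, is a square. -/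
structure TwistOK (a b n : ℤ) (Pp Pp' : Finset ℕ) (τ : Bool) : Prop where
  sqf : Squarefree n
  two : (a * n) % 8 = 5
  three : ∀ q : ℕ, q.Prime → q ≠ 2 → (q : ℤ) ∣ a → (q : ℤ) ∣ b → ¬ (q : ℤ) ∣ n
  bev : ∀ q : ℕ, q.Prime → q ≠ 2 → (q : ℤ) ∣ b → ¬ (q : ℤ) ∣ a → Even (padicValInt q b) →
    ¬ (q : ℤ) ∣ n ∧ ¬ SqMod q (a * n)
  bod : ∀ q : ℕ, q.Prime → q ≠ 2 → (q : ℤ) ∣ b → ¬ (q : ℤ) ∣ a → Odd (padicValInt q b) →
    ∃ (u b' : ℤ) (k : ℕ), n = q * u ∧ b = (q : ℤ) ^ (2 * k + 1) * b' ∧ ¬ (q : ℤ) ∣ u * b' ∧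
      SqMod q (-(a * u * b'))
  dev : ∀ q : ℕ, q.Prime → q ≠ 2 → (q : ℤ) ∣ a ^ 2 - 4 * b → ¬ (q : ℤ) ∣ b →
    Even (padicValInt q (a ^ 2 - 4 * b)) → ¬ (q : ℤ) ∣ n ∧ ¬ SqMod q (-2 * a * n)
  dod : ∀ q : ℕ, q.Prime → q ≠ 2 → (q : ℤ) ∣ a ^ 2 - 4 * b → ¬ (q : ℤ) ∣ b →
    Odd (padicValInt q (a ^ 2 - 4 * b)) → ∃ (u d' : ℤ) (k : ℕ), n = q * u ∧
      a ^ 2 - 4 * b = (q : ℤ) ^ (2 * k + 1) * d' ∧ ¬ (q : ℤ) ∣ u * d' ∧ SqMod q (2 * a * u * d')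
  pr : ∀ l : ℕ, l.Prime → (l : ℤ) ∣ n → ¬ (l : ℤ) ∣ b * (a ^ 2 - 4 * b) →
    (l ∈ Pp ∧ SqMod l b ∧ ¬ SqMod l (a ^ 2 - 4 * b)) ∨
    (l ∈ Pp' ∧ ¬ SqMod l b ∧ SqMod l (a ^ 2 - 4 * b)) ∨
    (l ∉ Pp ∧ l ∉ Pp' ∧ ¬ SqMod l b ∧ ¬ SqMod l (a ^ 2 - 4 * b))
  pp : ∀ l ∈ Pp, l.Prime ∧ (l : ℤ) ∣ n ∧ ¬ (l : ℤ) ∣ 2 * (b * (a ^ 2 - 4 * b))
  pp' : ∀ l ∈ Pp', l.Prime ∧ (l : ℤ) ∣ n ∧ ¬ (l : ℤ) ∣ 2 * (b * (a ^ 2 - 4 * b))
  t0 : τ = false → a ^ 2 < 4 * b ∨ (0 < b ∧ 4 * b < a ^ 2 ∧ a * n < 0)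
  t1 : τ = true → b < 0 ∨ (0 < b ∧ 4 * b < a ^ 2 ∧ 0 < a * n)

section

variable {K : Type} [Field K] [NumberField K]

/-- The rational prime below a place. -/
noncomputable def rp (v : HeightOneSpectrum (𝓞 K)) : ℕ := ringChar (𝓞 K ⧸ v.asIdeal)

lemma mem_iff_rp {v : HeightOneSpectrum (𝓞 K)} (n : ℕ) : (n : 𝓞 K) ∈ v.asIdeal ↔ rp v ∣ n := by
  unfold rp
  rw [← ringChar.spec, ← Ideal.Quotient.eq_zero_iff_mem, map_natCast]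

lemma rp_mem (v : HeightOneSpectrum (𝓞 K)) : ((rp v : ℕ) : 𝓞 K) ∈ v.asIdeal :=
  (mem_iff_rp _).2 dvd_rfl

lemma rp_prime (v : HeightOneSpectrum (𝓞 K)) : (rp v).Prime := by
  haveI : v.asIdeal.IsMaximal := v.isMaximal
  haveI : Finite (𝓞 K ⧸ v.asIdeal) := Ideal.finiteQuotientOfFreeOfNeBot _ v.ne_bot
  haveI : Field (𝓞 K ⧸ v.asIdeal) := Ideal.Quotient.field _
  have h0 : rp v ≠ 0 := CharP.ringChar_ne_zero_of_finite _
  exact (CharP.char_is_prime_or_zero (𝓞 K ⧸ v.asIdeal) (ringChar (𝓞 K ⧸ v.asIdeal))).resolve_right h0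

lemma mem_iff_eq {v : HeightOneSpectrum (𝓞 K)} {q : ℕ} (hq : q.Prime) :
    (q : 𝓞 K) ∈ v.asIdeal ↔ rp v = q := by
  rw [mem_iff_rp]
  constructor
  · intro h
    exact ((Nat.prime_dvd_prime_iff_eq (rp_prime v) hq).1 h)
  · rintro rfl
    exact dvd_rfl

lemma mem_iff_int {v : HeightOneSpectrum (𝓞 K)} (n : ℤ) :
    (n : 𝓞 K) ∈ v.asIdeal ↔ (rp v : ℤ) ∣ n := by
  unfold rp
  rw [← CharP.intCast_eq_zero_iff (𝓞 K ⧸ v.asIdeal) (ringChar (𝓞 K ⧸ v.asIdeal)),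
    ← Ideal.Quotient.eq_zero_iff_mem, map_intCast]

/-- The local data of the twist. -/
noncomputable def LDof (K : Type) [Field K] [NumberField K] (a b : ℤ) (Pp Pp' : Finset ℕ)
    (τ : Bool) : LD K where
  Sg := ov K {q | q.Prime ∧ q ≠ 2 ∧ (q : ℤ) ∣ b * (a ^ 2 - 4 * b)}
  g := fun v => sc ((gI a b (rp v) : ℤ) : K)
  P := ov K (Pp : Set ℕ)
  P' := ov K (Pp' : Set ℕ)
  τ := τ

/-- The properties of `K` and of a set `J` of primes used in the choice of the twist. -/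
structure Adm (K : Type) [Field K] [NumberField K] (J : ℕ → Prop) : Prop where
  cheb : ∀ (Z : Finset (SC K)) (Φ : SC K →+ ZMod 2), {p : ℕ | Spl K p ∧ J p ∧
    ∃ v : HeightOneSpectrum (𝓞 K), (p : 𝓞 K) ∈ v.asIdeal ∧
      ∀ z ∈ Z, eo v z = 0 ∧ la v z = Φ z}.Infinite
  dir : ∀ M : ℕ, Squarefree M → Odd M → ∀ c : ℕ, c.Coprime (8 * M) →
    {l : ℕ | l.Prime ∧ l ≡ c [MOD 8 * M] ∧ J l}.Infinite

/-- The conclusion for the curve `y^2 = x (x^2 + A x + B)`: the two-primary part of the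
Tate-Shafarevich group is trivial and there are finitely many points. -/
def Triv (K : Type) [Field K] [NumberField K] (A B : K) : Prop :=
  Pool.Agent.H10.Sha2Trivial K (⟨0, A, 0, B, 0⟩ : WeierstrassCurve K) ∧
    Finite (⟨0, A, 0, B, 0⟩ : WeierstrassCurve K).toAffine.Point

end

end H38T1
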