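import Pool.Agent.H38.T1.Tw2

/-!
Free integers (definition) and their effect on the twisting integers.
-/

set_option autoImplicit false
set_option linter.unusedSectionVars false
open scoped Classical

open WithZero NumberField IsDedekindDomain H38RT

namespace H38T1

/-- The squarefree positive integers which do not change the local conditions. -/
structure Free (a b : ℤ) (J : ℕ → Prop) (d : ℕ) : Prop where
  sqf : Squarefree d
  one : d % 8 = 1
  pr : ∀ l : ℕ, l.Prime → l ∣ d → ¬ (l : ℤ) ∣ 2 * (b * (a ^ 2 - 4 * b)) ∧ ¬ SqMod l b ∧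
    ¬ SqMod l (a ^ 2 - 4 * b) ∧ J l
  loc : ∀ q : ℕ, q.Prime → q ≠ 2 → (q : ℤ) ∣ b * (a ^ 2 - 4 * b) → SqMod q d

end H38T1
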