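import Pool.Agent.H38.T1.Tw

/-!
Row Ea. (about 170 lines): calculus of the local functions on square classes.
rep_sc: sc (rep (sc x)) = sc x (sc_rep), so sc (rep (sc x) * x) = 2 . sc x = 0 and rep (sc x) * x is a square s^2 (sc_mul, sc_eq_zero); y = s / x.
loc_of: exists_psi gives psi, d with the field cond; Loc (v.valuation K) (unif v) q (d v) (psi v) with q := (ball 1).relIndex (ball 0); pos: in H38/RT see how Re.lean / Rk.lean / Dc.lean obtain Loc (there is a theorem with the finite index, e.g. from Ba/Dc/Ps); unif_spec.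
eo_sc: ord (x y^2) = ord x + 2 ord y (ord_mul). la_sc: lam_mul twice (lam (y^2) = 2 lam y = 0). si_sc: sign of w x (w y)^2. pri_sc: Prm is invariant under y |-> y s^2 (change t). ka_sc: kp_eq with the changed t (Kq.lean).
tp_sc: unfold tp tm, eo_sc, la_sc (hx, hy, -1 <> 0). The additivities: take representatives (sc_surj), sc_mul, ord_mul, lam_mul, sign of a product, Prm_mul (Kq.lean); zero: sc 1 = 0 (sc_eq_zero).
pri_eo: Prm_even. tp_add_left: from eo_add and la_add by ring in ZMod 2; tp_comm by ring. tp_neg: tm_neg. not_oddP: val_two_le and OddP v <-> V 2 = 1.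
-/

set_option autoImplicit false
set_option linter.unusedSectionVars false
open scoped Classical

open WithZero NumberField IsDedekindDomain H38RT

namespace H38T1

variable {K : Type} [Field K] [NumberField K] {v : HeightOneSpectrum (𝓞 K)}

private theorem Ea_cast (a b : ℤ) : ((a + (b + b) : ℤ) : ZMod 2) = (a : ZMod 2) := by
  push_cast
  rw [CharTwo.add_self_eq_zero, add_zero]

private theorem Ea_two (x : K) (y : K) : x * y ^ 2 = x * (y * y) := by ring

theorem rep_sc {x : K} (hx : x ≠ 0) : ∃ y : K, y ≠ 0 ∧ rep (sc x) = x * y ^ 2 := by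
  have h1 : sc (rep (sc x) * x) = 0 := by
    rw [sc_mul (rep_ne _) hx, sc_rep]
    have h2 := SC.two_smul (sc x)
    have h3 := two_nsmul (sc x)
    exact h3.symm.trans h2
  rw [sc_eq_zero (mul_ne_zero (rep_ne _) hx)] at h1
  obtain ⟨s, hs⟩ := h1
  have hs0 : s ≠ 0 := by
    rintro rfl
    rw [mul_zero] at hs
    exact mul_ne_zero (rep_ne _) hx hs
  refine ⟨s / x, div_ne_zero hs0 hx, ?_⟩
  rw [div_pow, sq s, ← hs]
  field_simp

theorem loc_of (v : HeightOneSpectrum (𝓞 K)) :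
    ∃ (q : ℕ) (d : ℤ) (ψ : AddChar K Circle), Loc (v.valuation K) (unif v) q d ψ := by
  obtain ⟨ψ, d, h⟩ := exists_psi K
  exact ⟨_, _, _, exists_loc h v (unif_spec v)⟩

theorem not_oddP : ¬ OddP v ↔ v.valuation K 2 < 1 := by
  unfold OddP
  exact ⟨fun h => lt_of_le_of_ne (val_two_le v) h, fun h => h.ne⟩

theorem eo_sc {x : K} (hx : x ≠ 0) : eo v (sc x) = (ord (v.valuation K) x : ZMod 2) := by
  obtain ⟨y, hy, h⟩ := rep_sc hx
  unfold eo
  rw [h, Ea_two, ord_mul hx (mul_ne_zero hy hy), ord_mul hy hy, Ea_cast]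

theorem la_sc (hv : OddP v) {x : K} (hx : x ≠ 0) :
    la v (sc x) = lam (v.valuation K) (unif v) x := by
  obtain ⟨y, hy, h⟩ := rep_sc hx
  obtain ⟨q, d, ψ, hl⟩ := loc_of v
  unfold la
  rw [h, Ea_two, lam_mul hl hv hx (mul_ne_zero hy hy), lam_mul hl hv hy hy,
    CharTwo.add_self_eq_zero, add_zero]

theorem si_sc (w : K →+* ℝ) {x : K} (hx : x ≠ 0) : si w (sc x) = sw w x := by
  obtain ⟨y, hy, h⟩ := rep_sc hx
  unfold si sw
  have hy' : 0 < w y ^ 2 := by
    have : w y ≠ 0 := (map_ne_zero w).2 hy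
    positivity
  have key : w (rep (sc x)) < 0 ↔ w x < 0 := by
    rw [h, map_mul, map_pow]
    constructor
    · intro h1
      by_contra h2
      exact absurd (mul_nonneg (not_lt.1 h2) hy'.le) (not_le.2 h1)
    · intro h1
      exact mul_neg_of_neg_of_pos h1 hy'
  simp only [key]

theorem pri_sc (hv : ¬ OddP v) {x : K} (hx : x ≠ 0) :
    Pri v (sc x) ↔ Prm (v.valuation K) x := by
  obtain ⟨y, hy, h⟩ := rep_sc hx
  unfold Pri
  rw [h]
  constructor
  · rintro ⟨t, z, c, ht, hz, hc, he⟩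
    refine ⟨t / y, z, c, div_ne_zero ht hy, hz, hc, ?_⟩
    have hy2 : y ^ 2 ≠ 0 := pow_ne_zero 2 hy
    rw [div_pow, div_mul_eq_mul_div, eq_div_iff hy2, he]
  · rintro ⟨t, z, c, ht, hz, hc, he⟩
    refine ⟨t * y, z, c, mul_ne_zero ht hy, hz, hc, ?_⟩
    rw [he]
    ring

theorem ka_sc (hv : ¬ OddP v) {x : K} (hx : x ≠ 0) (hp : Prm (v.valuation K) x) :
    ka v (sc x) = kp (v.valuation K) x := by
  obtain ⟨y, hy, h⟩ := rep_sc hx
  obtain ⟨q, d, ψ, hl⟩ := loc_of v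
  obtain ⟨t, z, c, ht, hz, hc, he⟩ := hp
  have h2 := not_oddP.1 hv
  unfold ka
  rw [kp_eq hl h2 two_ne_zero ht hz hc he]
  refine kp_eq hl h2 two_ne_zero (mul_ne_zero ht hy) hz hc ?_
  rw [h, he]
  ring

theorem tp_sc (hv : OddP v) {x y : K} (hx : x ≠ 0) (hy : y ≠ 0) :
    tp v (sc x) (sc y) = tm (v.valuation K) (unif v) x y := by
  unfold tp tm
  rw [eo_sc hx, eo_sc hy, la_sc hv hx, la_sc hv hy, la_sc hv (neg_ne_zero.2 one_ne_zero)]

theorem eo_add (v : HeightOneSpectrum (𝓞 K)) (c c' : SC K) :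
    eo v (c + c') = eo v c + eo v c' := by
  obtain ⟨x, hx, rfl⟩ := sc_surj c
  obtain ⟨y, hy, rfl⟩ := sc_surj c'
  rw [← sc_mul hx hy, eo_sc (mul_ne_zero hx hy), eo_sc hx, eo_sc hy, ord_mul hx hy]
  push_cast
  rfl

theorem la_add (hv : OddP v) (c c' : SC K) : la v (c + c') = la v c + la v c' := by
  obtain ⟨x, hx, rfl⟩ := sc_surj c
  obtain ⟨y, hy, rfl⟩ := sc_surj c'
  obtain ⟨q, d, ψ, hl⟩ := loc_of v
  rw [← sc_mul hx hy, la_sc hv (mul_ne_zero hx hy), la_sc hv hx, la_sc hv hy, lam_mul hl hv hx hy]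

theorem si_add (w : K →+* ℝ) (c c' : SC K) : si w (c + c') = si w c + si w c' := by
  obtain ⟨x, hx, rfl⟩ := sc_surj c
  obtain ⟨y, hy, rfl⟩ := sc_surj c'
  rw [← sc_mul hx hy, si_sc w (mul_ne_zero hx hy), si_sc w hx, si_sc w hy]
  unfold sw
  have h1 : w x ≠ 0 := (map_ne_zero w).2 hx
  have h2 : w y ≠ 0 := (map_ne_zero w).2 hy
  have h11 : (0 : ZMod 2) = 1 + 1 := by decide
  rw [map_mul]
  rcases lt_or_gt_of_ne h1 with a | a <;> rcases lt_or_gt_of_ne h2 with b | b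
  · rw [if_neg (not_lt.2 (mul_pos_of_neg_of_neg a b).le), if_pos a, if_pos b, h11]
  · rw [if_pos (mul_neg_of_neg_of_pos a b), if_pos a, if_neg (not_lt.2 b.le), add_zero]
  · rw [if_pos (mul_neg_of_pos_of_neg a b), if_neg (not_lt.2 a.le), if_pos b, zero_add]
  · rw [if_neg (not_lt.2 (mul_pos a b).le), if_neg (not_lt.2 a.le), if_neg (not_lt.2 b.le),
      add_zero]

theorem pri_add (hv : ¬ OddP v) {c c' : SC K} (h : Pri v c) (h' : Pri v c') :
    Pri v (c + c') ∧ ka v (c + c') = ka v c + ka v c' := by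
  obtain ⟨x, hx, rfl⟩ := sc_surj c
  obtain ⟨y, hy, rfl⟩ := sc_surj c'
  obtain ⟨q, d, ψ, hl⟩ := loc_of v
  rw [pri_sc hv hx] at h
  rw [pri_sc hv hy] at h'
  obtain ⟨h1, h2⟩ := Prm_mul hl (not_oddP.1 hv) two_ne_zero h h'
  rw [← sc_mul hx hy, pri_sc hv (mul_ne_zero hx hy), ka_sc hv (mul_ne_zero hx hy) h1,
    ka_sc hv hx h, ka_sc hv hy h']
  exact ⟨h1, h2⟩

private theorem Ea_one : (0 : SC K) = sc 1 :=
  ((sc_eq_zero one_ne_zero).2 ⟨1, by rw [mul_one]⟩).symm

private theorem Ea_zz : (0 : SC K) + 0 = 0 := by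
  rw [Ea_one, ← sc_mul one_ne_zero one_ne_zero, mul_one]

theorem eo_zero (v : HeightOneSpectrum (𝓞 K)) : eo v (0 : SC K) = 0 := by
  have h := eo_add v 0 0
  rw [Ea_zz] at h
  exact left_eq_add.1 h

theorem la_zero (hv : OddP v) : la v (0 : SC K) = 0 := by
  have h := la_add hv 0 0
  rw [Ea_zz] at h
  exact left_eq_add.1 h

theorem si_zero (w : K →+* ℝ) : si w (0 : SC K) = 0 := by
  have h := si_add w 0 0
  rw [Ea_zz] at h
  exact left_eq_add.1 h

theorem pri_zero (hv : ¬ OddP v) : Pri v (0 : SC K) := by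
  rw [Ea_one, pri_sc hv one_ne_zero]
  refine ⟨1, 1, 0, one_ne_zero, map_one _, by rw [map_zero]; exact zero_le, by ring⟩

theorem pri_eo (hv : ¬ OddP v) {c : SC K} (h : Pri v c) : eo v c = 0 := by
  obtain ⟨q, d, ψ, hl⟩ := loc_of v
  obtain ⟨-, k, hk⟩ := Prm_even hl (not_oddP.1 hv) h
  unfold eo
  rw [hk]
  push_cast
  exact CharTwo.add_self_eq_zero _

theorem tp_comm (c c' : SC K) : tp v c c' = tp v c' c := by
  unfold tp
  ring

theorem tp_add_left (hv : OddP v) (c c' d : SC K) : tp v (c + c') d = tp v c d + tp v c' d := by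
  unfold tp
  rw [eo_add, la_add hv]
  ring

theorem tp_neg (hv : OddP v) {x : K} (hx : x ≠ 0) : tp v (sc x) (sc (-x)) = 0 := by
  obtain ⟨q, d, ψ, hl⟩ := loc_of v
  rw [tp_sc hv hx (neg_ne_zero.2 hx)]
  exact tm_neg hl hv hx

end H38T1
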