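import Pool.Agent.H38.T1.Ea

/-!
Row Eb. (about 170 lines): the Galois action.
val_smul: (g . v).asIdeal is the comap of v.asIdeal under gO g^-1, so a |-> g a maps v.asIdeal^n onto (g v).asIdeal^n; valuation of an integer: v.valuation_le_pow_iff_mem / intValuation characterised by membership in the powers (HeightOneSpectrum.valuation_le_pow_iff_mem or intValuation_le_pow_iff_mem);
 or: x |-> (g . v).valuation K (g x) and v.valuation K are two valuations; compare on 𝓞 K (both are exp (-n) with n the largest power of the ideal containing x) and extend to fractions.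
oddP_smul: g 2 = 2. eo_smul: c = sc x, g . sc x = sc (g x) (smul_sc), eo_sc, val_smul (ord). la_smul: c = sc x with eo v c = 0, so x = x' s^2 with x' a unit at v (s = unif v ^ k); then la v c = if Sq x' then 0 else 1 (lam_unit) and Sq ((g v).valuation) (g x') iff Sq (v.valuation) x' by val_smul (t |-> g t).
si_smul: si w (g . c) = si (w comp g) c (si_sc, smul_sc). pri_smul: apply g to y = t^2 (z^2 - 4c). rp_smul: rp (g v) = rp v: mem_iff_eq, (q : 𝓞 K) in (g v).asIdeal iff gO g^-1 q = q in v.asIdeal (mem_mv, map_natCast). mem_smul: the same for integers.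
ov_smul: ov K Q is stable. tp_smul: tp v does not depend on the uniformizer: choose x, y with c = sc x, c' = sc y; tm (g v) (g x) (g y) computed with unif (g v); lam with another uniformizer p': lam_p' x = lam_p x + ord x * lam_p(p'/p): symmetric bilinear
 correction ord x ord y lam(p'/p) occurs twice in tm, so tm is unchanged (and lam(-1) is of a unit: no change).
-/

set_option autoImplicit false
set_option linter.unusedSectionVars false
open scoped Classical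

open WithZero NumberField IsDedekindDomain H38RT

namespace H38T1

variable {K : Type} [Field K] [NumberField K] {v : HeightOneSpectrum (𝓞 K)}

theorem Eb_gO_inv (γ : K ≃ₐ[ℚ] K) (a : 𝓞 K) : gO γ⁻¹ (gO γ a) = a := by
  apply RingOfIntegers.ext
  rw [gO_coe, gO_coe]
  exact γ.symm_apply_apply _

theorem Eb_pow (γ : K ≃ₐ[ℚ] K) (v : HeightOneSpectrum (𝓞 K)) (a : 𝓞 K) (n : ℕ)
    (ha : a ∈ v.asIdeal ^ n) : gO γ a ∈ (γ • v).asIdeal ^ n := by
  have h1 : v.asIdeal ≤ (γ • v).asIdeal.comap (gO γ : 𝓞 K →+* 𝓞 K) := by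
    intro x hx
    rw [Ideal.mem_comap, smul_def, mem_mv]
    have h2 : gO γ⁻¹ ((gO γ : 𝓞 K →+* 𝓞 K) x) = x := Eb_gO_inv γ x
    rw [h2]
    exact hx
  have h2 : v.asIdeal ^ n ≤ ((γ • v).asIdeal ^ n).comap (gO γ : 𝓞 K →+* 𝓞 K) :=
    (Ideal.pow_right_mono h1 n).trans (Ideal.le_comap_pow _ n)
  exact h2 ha

theorem Eb_le (γ : K ≃ₐ[ℚ] K) (v : HeightOneSpectrum (𝓞 K)) (a : 𝓞 K) :
    (γ • v).intValuation (gO γ a) ≤ v.intValuation a := by
  by_cases ha : a = 0
  · rw [ha, map_zero, map_zero, map_zero]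
  · have h1 := v.intValuation_if_neg ha
    have h2 : a ∈ v.asIdeal ^
        ((Associates.mk v.asIdeal).count (Associates.mk (Ideal.span {a} : Ideal (𝓞 K))).factors) := by
      rw [← v.intValuation_le_pow_iff_mem, h1]
    rw [h1, (γ • v).intValuation_le_pow_iff_mem]
    exact Eb_pow γ v a _ h2

theorem Eb_int (γ : K ≃ₐ[ℚ] K) (v : HeightOneSpectrum (𝓞 K)) (a : 𝓞 K) :
    (γ • v).valuation K (γ (a : K)) = v.valuation K (a : K) := by
  have h1 : (γ • v).intValuation (gO γ a) = v.intValuation a := by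
    apply le_antisymm (Eb_le γ v a)
    have h2 := Eb_le γ⁻¹ (γ • v) (gO γ a)
    rw [inv_smul_smul, Eb_gO_inv] at h2
    exact h2
  have h3 : (γ • v).valuation K ((gO γ a : 𝓞 K) : K) = (γ • v).intValuation (gO γ a) :=
    (γ • v).valuation_of_algebraMap (gO γ a)
  have h4 : v.valuation K (a : K) = v.intValuation a := v.valuation_of_algebraMap a
  rw [← gO_coe, h3, h4, h1]

theorem val_smul (γ : K ≃ₐ[ℚ] K) (v : HeightOneSpectrum (𝓞 K)) (x : K) :
    (γ • v).valuation K (γ x) = v.valuation K x := by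
  obtain ⟨a, b, hb, hab⟩ := IsFractionRing.div_surjective (A := 𝓞 K) x
  have h1 : γ x = γ (a : K) / γ (b : K) := by
    rw [← map_div₀]
    exact congrArg γ hab.symm
  rw [h1, map_div₀, Eb_int, Eb_int, ← hab, map_div₀]

theorem mem_smul_nat (γ : K ≃ₐ[ℚ] K) (v : HeightOneSpectrum (𝓞 K)) (n : ℕ) :
    (n : 𝓞 K) ∈ (γ • v).asIdeal ↔ (n : 𝓞 K) ∈ v.asIdeal := by
  rw [smul_def, mem_mv, map_natCast]

theorem rp_smul (γ : K ≃ₐ[ℚ] K) (v : HeightOneSpectrum (𝓞 K)) : rp (γ • v) = rp v :=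
  (mem_iff_eq (rp_prime v)).1 ((mem_smul_nat γ v (rp v)).2 (rp_mem v))

theorem oddP_smul (γ : K ≃ₐ[ℚ] K) : OddP (γ • v) ↔ OddP v := by
  have h1 : γ (2 : K) = 2 := map_ofNat γ 2
  have h2 := val_smul γ v 2
  rw [h1] at h2
  unfold OddP
  rw [h2]

theorem ov_smul {Q : Set ℕ} (γ : K ≃ₐ[ℚ] K) : γ • v ∈ ov K Q ↔ v ∈ ov K Q := by
  constructor
  · rintro ⟨q, hq, h⟩
    exact ⟨q, hq, (mem_smul_nat γ v q).1 h⟩
  · rintro ⟨q, hq, h⟩
    exact ⟨q, hq, (mem_smul_nat γ v q).2 h⟩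

theorem Eb_ord (γ : K ≃ₐ[ℚ] K) (v : HeightOneSpectrum (𝓞 K)) (x : K) :
    ord ((γ • v).valuation K) (γ x) = ord (v.valuation K) x := by
  unfold ord
  rw [val_smul]

theorem Eb_ne (γ : K ≃ₐ[ℚ] K) {x : K} (hx : x ≠ 0) : γ x ≠ 0 := fun h => hx (by simpa using h)

theorem eo_smul (γ : K ≃ₐ[ℚ] K) (c : SC K) : eo (γ • v) (γ • c) = eo v c := by
  obtain ⟨x, hx, rfl⟩ := sc_surj c
  rw [smul_sc γ hx, eo_sc (Eb_ne γ hx), eo_sc hx, Eb_ord]

theorem Eb_sq (γ : K ≃ₐ[ℚ] K) (v : HeightOneSpectrum (𝓞 K)) (x : K) :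
    Sq ((γ • v).valuation K) (γ x) ↔ Sq (v.valuation K) x := by
  have key : ∀ (γ : K ≃ₐ[ℚ] K) (v : HeightOneSpectrum (𝓞 K)) (x : K), Sq (v.valuation K) x →
      Sq ((γ • v).valuation K) (γ x) := by
    rintro γ v x ⟨t, ht⟩
    refine ⟨γ t, ?_⟩
    rw [← map_pow, ← map_sub, val_smul]
    exact ht
  refine ⟨fun h => ?_, key γ v x⟩
  have h1 := key γ⁻¹ _ _ h
  rw [inv_smul_smul] at h1
  have h2 : γ⁻¹ (γ x) = x := γ.symm_apply_apply x
  rwa [h2] at h1

theorem Eb_lam (γ : K ≃ₐ[ℚ] K) (v : HeightOneSpectrum (𝓞 K)) (p x : K) :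
    lam ((γ • v).valuation K) (γ p) (γ x) = lam (v.valuation K) p x := by
  unfold lam
  have h1 : γ x * γ p ^ (-ord ((γ • v).valuation K) (γ x)) =
      γ (x * p ^ (-ord (v.valuation K) x)) := by
    rw [Eb_ord, map_mul, map_zpow₀]
  rw [h1]
  by_cases h : Sq (v.valuation K) (x * p ^ (-ord (v.valuation K) x))
  · rw [if_pos h, if_pos ((Eb_sq γ v _).2 h)]
  · rw [if_neg h, if_neg fun h' => h ((Eb_sq γ v _).1 h')]

/-- The Legendre class with respect to another uniformizer. -/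
theorem Eb_change {V : Valuation K (WithZero (Multiplicative ℤ))} {p p' : K} {q q' : ℕ} {d d' : ℤ}
    {ψ ψ' : AddChar K Circle} (h : Loc V p q d ψ) (h' : Loc V p' q' d' ψ') (h2 : V 2 = 1)
    {x : K} (hx : x ≠ 0) :
    lam V p' x = lam V p x + (ord V x : ZMod 2) * lam V p' p := by
  have hp0 : p ≠ 0 := by
    rintro rfl
    have := h.pi
    rw [map_zero] at this
    exact exp_ne_zero this.symm
  have key : ∀ u : K, V u = 1 → lam V p' u = lam V p u := fun u hu => by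
    rw [lam_unit hu, lam_unit hu]
  -- write `x = u * s * s` or `x = u * s * s * p`
  obtain ⟨k, hk⟩ : ∃ k : ℤ, ord V x = k + k ∨ ord V x = k + k + 1 := ⟨ord V x / 2, by omega⟩
  have hone : ord V p = 1 := by
    unfold ord
    rw [h.pi, log_exp, neg_neg]
  obtain ⟨hs, hs0⟩ := ord_pi h k
  have sq0 : ∀ (r : K) (q : ℕ) (d : ℤ) (ψ : AddChar K Circle), Loc V r q d ψ → ∀ s : K, s ≠ 0 →
      lam V r (s * s) = 0 := fun r q d ψ hr s hs => by
    rw [lam_mul hr h2 hs hs, CharTwo.add_self_eq_zero]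
  rcases hk with hk | hk
  · set u := x * (p ^ k * p ^ k)⁻¹ with hu
    have hu0 : u ≠ 0 := mul_ne_zero hx (inv_ne_zero (mul_ne_zero hs0 hs0))
    have hxu : x = u * (p ^ k * p ^ k) := by
      rw [hu, inv_mul_cancel_right₀ (mul_ne_zero hs0 hs0)]
    have hou : ord V u = 0 := by
      have h3 := ord_mul (V := V) hu0 (mul_ne_zero hs0 hs0)
      rw [← hxu, ord_mul hs0 hs0, hs, hk] at h3
      omega
    have hVu : V u = 1 := by
      rw [V_eq hu0, hou, neg_zero, exp_zero]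
    have h5 : (ord V x : ZMod 2) = 0 := by
      rw [hk]
      push_cast
      exact CharTwo.add_self_eq_zero _
    rw [h5, zero_mul, add_zero, hxu, lam_mul h' h2 hu0 (mul_ne_zero hs0 hs0),
      lam_mul h h2 hu0 (mul_ne_zero hs0 hs0), sq0 p' q' d' ψ' h' _ hs0, sq0 p q d ψ h _ hs0, key u hVu]
  · set u := x * (p ^ k * p ^ k)⁻¹ * p⁻¹ with hu
    have hu0 : u ≠ 0 := mul_ne_zero (mul_ne_zero hx (inv_ne_zero (mul_ne_zero hs0 hs0)))
      (inv_ne_zero hp0)
    have hxu : x = u * p * (p ^ k * p ^ k) := by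
      rw [hu, inv_mul_cancel_right₀ hp0, inv_mul_cancel_right₀ (mul_ne_zero hs0 hs0)]
    have hup0 : u * p ≠ 0 := mul_ne_zero hu0 hp0
    have hou : ord V u = 0 := by
      have h3 := ord_mul (V := V) hup0 (mul_ne_zero hs0 hs0)
      rw [← hxu, ord_mul hs0 hs0, ord_mul hu0 hp0, hs, hk, hone] at h3
      omega
    have hVu : V u = 1 := by
      rw [V_eq hu0, hou, neg_zero, exp_zero]
    have h5 : (ord V x : ZMod 2) = 1 := by
      rw [hk]
      push_cast
      rw [CharTwo.add_self_eq_zero, zero_add]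
    rw [h5, one_mul, hxu, lam_mul h' h2 hup0 (mul_ne_zero hs0 hs0), lam_mul h' h2 hu0 hp0,
      lam_mul h h2 hup0 (mul_ne_zero hs0 hs0), lam_mul h h2 hu0 hp0,
      sq0 p' q' d' ψ' h' _ hs0, sq0 p q d ψ h _ hs0, key u hVu, lam_pi h]
    ring

theorem la_smul (γ : K ≃ₐ[ℚ] K) (hv : OddP v) {c : SC K} (hc : eo v c = 0) :
    la (γ • v) (γ • c) = la v c := by
  obtain ⟨x, hx, rfl⟩ := sc_surj c
  have hv' : OddP (γ • v) := (oddP_smul γ).2 hv
  obtain ⟨q, d, ψ, h⟩ := loc_of (γ • v)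
  have h' : Loc ((γ • v).valuation K) (γ (unif v)) q d ψ :=
    ⟨by rw [val_smul]; exact unif_spec v, h.card, h.pos, h.cond⟩
  rw [smul_sc γ hx, la_sc hv' (Eb_ne γ hx), la_sc hv hx, Eb_change h' h hv' (Eb_ne γ hx), Eb_lam,
    Eb_ord]
  rw [eo_sc hx] at hc
  rw [hc, zero_mul, add_zero]

theorem si_smul (γ : K ≃ₐ[ℚ] K) (w : K →+* ℝ) (c : SC K) :
    si w (γ • c) = si (w.comp (γ : K →+* K)) c := by
  obtain ⟨x, hx, rfl⟩ := sc_surj c
  rw [smul_sc γ hx, si_sc w (Eb_ne γ hx), si_sc _ hx]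
  rfl

theorem pri_smul (γ : K ≃ₐ[ℚ] K) (hv : ¬ OddP v) {c : SC K} (h : Pri v c) :
    Pri (γ • v) (γ • c) := by
  obtain ⟨x, hx, rfl⟩ := sc_surj c
  have hv' : ¬ OddP (γ • v) := fun h => hv ((oddP_smul γ).1 h)
  rw [smul_sc γ hx, pri_sc hv' (Eb_ne γ hx)]
  rw [pri_sc hv hx] at h
  obtain ⟨t, z, c, ht, hz, hc, hxe⟩ := h
  refine ⟨γ t, γ z, γ c, Eb_ne γ ht, ?_, ?_, ?_⟩
  · rw [val_smul]
    exact hz
  · rw [val_smul]
    exact hc
  · rw [hxe, map_mul, map_pow, map_sub, map_pow, map_mul, map_ofNat]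

theorem tp_smul (γ : K ≃ₐ[ℚ] K) (hv : OddP v) (c c' : SC K) :
    tp (γ • v) (γ • c) (γ • c') = tp v c c' := by
  obtain ⟨x, hx, rfl⟩ := sc_surj c
  obtain ⟨y, hy, rfl⟩ := sc_surj c'
  have hv' : OddP (γ • v) := (oddP_smul γ).2 hv
  obtain ⟨q, d, ψ, h⟩ := loc_of (γ • v)
  have h' : Loc ((γ • v).valuation K) (γ (unif v)) q d ψ :=
    ⟨by rw [val_smul]; exact unif_spec v, h.card, h.pos, h.cond⟩
  rw [smul_sc γ hx, smul_sc γ hy, tp_sc hv' (Eb_ne γ hx) (Eb_ne γ hy), tp_sc hv hx hy]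
  unfold tm
  have h1 : (-1 : K) ≠ 0 := neg_ne_zero.2 one_ne_zero
  have h2 : γ (-1 : K) = -1 := by rw [map_neg, map_one]
  have h3 : ord ((γ • v).valuation K) (-1 : K) = 0 := by
    unfold ord
    rw [Valuation.map_neg, map_one, log_one, neg_zero]
  have h4 : lam ((γ • v).valuation K) (unif (γ • v)) (-1) = lam (v.valuation K) (unif v) (-1) := by
    rw [Eb_change h' h hv' h1, h3, Int.cast_zero, zero_mul, add_zero, ← Eb_lam γ v (unif v) (-1), h2]
  rw [Eb_change h' h hv' (Eb_ne γ hx), Eb_change h' h hv' (Eb_ne γ hy), Eb_lam, Eb_lam, Eb_ord,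
    Eb_ord, h4]
  generalize (ord (v.valuation K) x : ZMod 2) = a
  generalize (ord (v.valuation K) y : ZMod 2) = b
  generalize lam (v.valuation K) (unif v) x = e
  generalize lam (v.valuation K) (unif v) y = f
  generalize lam (v.valuation K) (unif v) (-1) = g
  generalize lam ((γ • v).valuation K) (unif (γ • v)) (γ (unif v)) = j
  have h6 : (2 : ZMod 2) = 0 := rfl
  linear_combination (a * b * j) * h6

theorem smul_int (γ : K ≃ₐ[ℚ] K) {m : ℤ} (hm : m ≠ 0) : γ • sc (m : K) = sc (m : K) := by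
  have h1 : (m : K) ≠ 0 := Int.cast_ne_zero.2 hm
  rw [smul_sc γ h1, map_intCast]

end H38T1
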