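import Pool.Agent.H11.Local

/-!
Row Ga. (about 110 lines): a copy of fin_prime_to and finite_of_two of Pool/Agent/H93/MQ/FinF.lean, with the valuation subring given (there it is made from an embedding into Q_l) and a finite residue field in place of ZMod l.
fin_prime_to_gen: code of a point: none for 0 and for (x, y) with x not in A; for x in A also y is in A (y_mem hW) and the code is the pair of the residues (IsLocalRing.residue A of the elements of A); the target Option (k x k) is finite. Equal codes give P - Q in InE1: both none: InE1.add_sub; both some: inE1_sub hW hD (equal residues mean A.valuation (x - x') < 1: the difference is in the maximal ideal, ValuationSubring.valuation_lt_one_iff or mem_nonunits_iff). If n P = 0 and m Q = 0 with n, m prime to l then n m (P - Q) = 0, so P = Q by InE1.eq_zero with hn (n * m). So the code is injective on the set.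
tors_of_two: P with n P = 0, n = l^e m with l not dividing m; s l^e + t m = 1; P = s (l^e P) + t (m P): the first is killed by m (prime to l), the second by l^e (prime to l'). So the set is in the sumset of two finite sets (last proof of FinF.lean).
-/

set_option autoImplicit false
set_option linter.unusedSectionVars false
open scoped Classical


namespace H38T1

open WeierstrassCurve Pool.Agent.H11

/-- the residue -/
noncomputable def Ga_res {F : Type*} [Field F] (A : ValuationSubring F) (x : F) :
    IsLocalRing.ResidueField A :=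
  if h : x ∈ A then IsLocalRing.residue A ⟨x, h⟩ else 0

lemma Ga_res_eq {F : Type*} [Field F] (A : ValuationSubring F) {x y : F} (hx : x ∈ A) (hy : y ∈ A)
    (h : Ga_res A x = Ga_res A y) : A.valuation (x - y) < 1 := by
  rw [Ga_res, Ga_res, dif_pos hx, dif_pos hy, ← sub_eq_zero, ← map_sub,
    IsLocalRing.residue_eq_zero_iff] at h
  exact (A.valuation_lt_one_iff _).1 h

/-- the code of a point -/
noncomputable def Ga_code {F : Type*} [Field F] (A : ValuationSubring F)
    {W : WeierstrassCurve F} :
    W.toAffine.Point → Option (IsLocalRing.ResidueField A × IsLocalRing.ResidueField A)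
  | 0 => none
  | .some x y _ => if x ∈ A then some (Ga_res A x, Ga_res A y) else none

lemma Ga_none {F : Type*} [Field F] (A : ValuationSubring F) {W : WeierstrassCurve F}
    {P : W.toAffine.Point} (h : Ga_code A P = none) : InE1 A W P := by
  match P, h with
  | 0, _ => exact Or.inl rfl
  | .some x y hxy, h =>
    right
    refine ⟨x, y, hxy, rfl, ?_⟩
    intro hx
    rw [Ga_code, if_pos hx] at h
    exact Option.some_ne_none _ h

lemma Ga_some {F : Type*} [Field F] (A : ValuationSubring F) {W : WeierstrassCurve F}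
    {P : W.toAffine.Point} {c : IsLocalRing.ResidueField A × IsLocalRing.ResidueField A}
    (h : Ga_code A P = some c) : ∃ x y h, P = .some x y h ∧ x ∈ A ∧ Ga_res A x = c.1 ∧
      Ga_res A y = c.2 := by
  match P, h with
  | 0, h => exact absurd (show (none : Option (IsLocalRing.ResidueField A ×
      IsLocalRing.ResidueField A)) = some c from h) (by simp)
  | .some x y hxy, h =>
    by_cases hx : x ∈ A
    · rw [Ga_code, if_pos hx, Option.some_inj] at h
      exact ⟨x, y, hxy, rfl, hx, by rw [← h], by rw [← h]⟩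
    · rw [Ga_code, if_neg hx] at h
      exact absurd h.symm (Option.some_ne_none _)

lemma Ga_sub {F : Type*} [Field F] (A : ValuationSubring F) {W : WeierstrassCurve F}
    [W.IsElliptic] (hW : Integral A W) (hΔ : A.valuation W.Δ = 1) {P Q : W.toAffine.Point}
    (h : Ga_code A P = Ga_code A Q) : InE1 A W (P - Q) := by
  rcases hP : Ga_code A P with _ | c
  · exact (InE1.add_sub hW (Ga_none A hP) (Ga_none A (h.symm.trans hP))).2.1
  · obtain ⟨x, y, h1, rfl, hx, e1, e2⟩ := Ga_some A hP
    obtain ⟨x', y', h1', rfl, hx', e1', e2'⟩ := Ga_some A (h.symm.trans hP)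
    have hy := y_mem hW (A := A) hx h1.1
    have hy' := y_mem hW (A := A) hx' h1'.1
    exact inE1_sub hW hΔ h1 h1' hx hx' (Ga_res_eq A hx hx' (e1.trans e1'.symm))
      (Ga_res_eq A hy hy' (e2.trans e2'.symm))

theorem fin_prime_to_gen {F : Type*} [Field F] (A : ValuationSubring F)
    [Finite (IsLocalRing.ResidueField A)] {l : ℕ}
    (hn : ∀ n : ℕ, n.Coprime l → A.valuation (n : F) = 1) {W : WeierstrassCurve F} [W.IsElliptic]
    (hW : Integral A W) (hΔ : A.valuation W.Δ = 1) :
    {P : W.toAffine.Point | ∃ n : ℕ, n.Coprime l ∧ n • P = 0}.Finite := by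
  apply Set.Finite.of_finite_image (f := Ga_code A) (Set.toFinite _)
  rintro P ⟨n, hn', hP⟩ Q ⟨m, hm', hQ⟩ hPQ
  have h1 := Ga_sub A hW hΔ hPQ
  rw [← sub_eq_zero]
  refine InE1.eq_zero hW h1 (n * m) (hn _ (Nat.Coprime.mul_left hn' hm')) ?_
  rw [smul_sub, mul_comm, mul_smul, hP, mul_comm, mul_smul, hQ, smul_zero, smul_zero, sub_zero]

theorem tors_of_two {F : Type*} [Field F] (A A' : ValuationSubring F)
    [Finite (IsLocalRing.ResidueField A)] [Finite (IsLocalRing.ResidueField A')] {l l' : ℕ}
    (hl : l.Prime) (hl' : l'.Prime) (hne : l ≠ l')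
    (hn : ∀ n : ℕ, n.Coprime l → A.valuation (n : F) = 1)
    (hn' : ∀ n : ℕ, n.Coprime l' → A'.valuation (n : F) = 1)
    {W : WeierstrassCurve F} [W.IsElliptic] (hW : Integral A W) (hΔ : A.valuation W.Δ = 1)
    (hW' : Integral A' W) (hΔ' : A'.valuation W.Δ = 1) :
    {P : W.toAffine.Point | ∃ n : ℕ, n ≠ 0 ∧ n • P = 0}.Finite := by
  have h1 := fin_prime_to_gen A hn hW hΔ
  have h2 := fin_prime_to_gen A' hn' hW' hΔ'
  refine (h1.image2 (fun u v => u + v) h2).subset ?_
  rintro P ⟨n, hn0, hP⟩
  obtain ⟨e, m, hm, hnm⟩ := Nat.exists_eq_pow_mul_and_not_dvd hn0 l hl.ne_one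
  have hml : m.Coprime l := (hl.coprime_iff_not_dvd.2 hm).symm
  have hll : (l ^ e).Coprime l' := ((Nat.coprime_primes hl hl').2 hne).pow_left e
  have hcop : IsCoprime ((l ^ e : ℕ) : ℤ) (m : ℤ) :=
    Nat.isCoprime_iff_coprime.2 (Nat.Coprime.pow_left e hml.symm)
  obtain ⟨s, t, hst⟩ := hcop
  have hP0 : ((l ^ e : ℕ) : ℤ) • ((m : ℤ) • P) = 0 := by
    rw [natCast_zsmul, natCast_zsmul, ← mul_smul, ← hnm]
    exact hP
  have hP1 : (m : ℤ) • (((l ^ e : ℕ) : ℤ) • P) = 0 := by
    rw [smul_comm]
    exact hP0
  refine ⟨s • (((l ^ e : ℕ) : ℤ) • P), ⟨m, hml, ?_⟩, t • ((m : ℤ) • P), ⟨l ^ e, hll, ?_⟩, ?_⟩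
  · rw [← natCast_zsmul, smul_comm, hP1, smul_zero]
  · rw [← natCast_zsmul, smul_comm, hP0, smul_zero]
  · show s • (((l ^ e : ℕ) : ℤ) • P) + t • ((m : ℤ) • P) = P
    rw [← mul_smul, ← mul_smul, ← add_smul, hst, one_smul]

end H38T1
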