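import Pool.Agent.H38.T1.Tw
import Pool.Agent.H93.T1.Ca
import Pool.Agent.H93.T1.Cq

/-!
Block C (helper93): the density theorems.
-/

set_option autoImplicit false
open scoped Classical

open WithZero NumberField IsDedekindDomain H38RT

namespace H38T1

theorem adm_gen (K K' : Type) [Field K] [NumberField K] [IsGalois ℚ K] [Field K'] [NumberField K']
    [IsGalois ℚ K'] [Algebra K K'] (hodd : Odd (Module.finrank ℚ K')) (t : K' ≃ₐ[K] K')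
    {J : ℕ → Prop} (hJ : ∀ l : ℕ, Spl K l → (∃ w : HeightOneSpectrum (𝓞 K'),
      (l : 𝓞 K') ∈ w.asIdeal ∧ (t.restrictScalars ℚ) • w = w) → J l)
    (hdir : ∀ M : ℕ, Squarefree M → Odd M → ∀ c : ℕ, c.Coprime (8 * M) →
      {l : ℕ | l.Prime ∧ l ≡ c [MOD 8 * M] ∧ J l}.Infinite) : Adm K J :=
  H93T1.adm_gen K K' hodd t hJ hdir

theorem dir_S (S : Finset ℕ) (hS : ∀ p ∈ S, p.Prime ∧ p ≠ 2) (M : ℕ) (hM : Squarefree M)
    (_hMo : Odd M) (c : ℕ) (hc : c.Coprime (8 * M)) :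
    {l : ℕ | l.Prime ∧ l ≡ c [MOD 8 * M] ∧ ∀ p ∈ S, ¬ p ^ 2 ∣ l ^ (p - 1) - 1}.Infinite :=
  H93T1.dir_S hS hM hc

end H38T1
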