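import Pool.Agent.H38.T1.Eb

/-!
Row Ed. (about 200 lines): rational integers at the places of a Galois extension of odd degree.
odd_ef: with q = rp v (v lies over span {q}): the ramification index and the inertia degree divide the order of the Galois group (IsGalois: Ideal.ncard_primesOver_mul_ramificationIdxIn_mul_inertiaDegIn: g e f = |Gal|), hence they are odd. (H10/Unique.lean odd_ramification is similar.)
ord_int: for an integer m <> 0, q = rp v: ord v m = e * padicValInt q m, e the ramification index (v.valuation of q is exp(-e), e >= 1: valuation and Ideal.ramificationIdx / multiplicity; m = q^k m' with m' prime to q, a unit at v by mem_iff_int).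
eo_int: eo_sc, ord_int, e odd.
la_int: m prime to q, q odd: la v (sc m) = 0 iff Sq V m (la_sc, lam_unit) iff m is a square in the residue field 𝓞 K / v (t with V t <= 1 is congruent to an element of 𝓞 K: valuation approximation as in Pr.lean Pr_app / exists_valuation_sub_lt_of_integer) iff m is a square modulo q:
 the residue field has q^f elements, f odd: a nonsquare m of F_q stays a nonsquare (FiniteField.isSquare_iff / pow_dichotomy: m^((q^f-1)/2) = (m^((q-1)/2))^(1+q+...+q^(f-1)) = (-1)^f), or: a root of X^2 - m generates an extension of F_q of degree 2 inside one of odd degree f.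
-/

set_option autoImplicit false
set_option linter.unusedSectionVars false
open scoped Classical

open WithZero NumberField IsDedekindDomain H38RT

namespace H38T1

variable {K : Type} [Field K] [NumberField K] {v : HeightOneSpectrum (𝓞 K)}

theorem Ed_lies (v : HeightOneSpectrum (𝓞 K)) :
    v.asIdeal.LiesOver (Ideal.span {((rp v : ℕ) : ℤ)}) := by
  constructor
  ext x
  rw [Ideal.mem_span_singleton, Ideal.under_def, Ideal.mem_comap, eq_intCast, mem_iff_int]

theorem Ed_odd [IsGalois ℚ K] (hodd : Odd (Module.finrank ℚ K)) (v : HeightOneSpectrum (𝓞 K)) :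
    Odd (v.asIdeal.ramificationIdx ℤ) ∧ Odd (v.asIdeal.inertiaDeg ℤ) := by
  have h1 := Ed_lies v
  have hq : Prime ((rp v : ℕ) : ℤ) := Nat.prime_iff_prime_int.1 (rp_prime v)
  have hp : (Ideal.span {((rp v : ℕ) : ℤ)}).IsPrime :=
    (Ideal.span_singleton_prime hq.ne_zero).2 hq
  have hm := Ideal.ncard_primesOver_mul_ramificationIdxIn_mul_inertiaDegIn
    (Ideal.span {((rp v : ℕ) : ℤ)}) (𝓞 K) Gal(K/ℚ)
  rw [Ideal.ramificationIdxIn_eq_ramificationIdx _ v.asIdeal Gal(K/ℚ),
    Ideal.inertiaDegIn_eq_inertiaDeg _ v.asIdeal Gal(K/ℚ),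
    IsGaloisGroup.card_eq_finrank Gal(K/ℚ) ℚ K] at hm
  rw [← hm, Nat.odd_mul, Nat.odd_mul] at hodd
  exact hodd.2

theorem Ed_ordq (v : HeightOneSpectrum (𝓞 K)) :
    ord (v.valuation K) ((rp v : ℕ) : K) = v.asIdeal.ramificationIdx ℤ := by
  have h0 := Ed_lies v
  have hp0 : ((rp v : ℕ) : 𝓞 K) ≠ 0 := by exact_mod_cast (rp_prime v).ne_zero
  have hne : (Ideal.span {((rp v : ℕ) : ℤ)}).map (algebraMap ℤ (𝓞 K)) =
      Ideal.span {((rp v : ℕ) : 𝓞 K)} := by
    rw [Ideal.map_span, Set.image_singleton, eq_intCast, Int.cast_natCast]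
  have hb : (Ideal.span {((rp v : ℕ) : ℤ)}).map (algebraMap ℤ (𝓞 K)) ≠ ⊥ := by
    rw [hne, Ne, Ideal.span_singleton_eq_bot]
    exact hp0
  rw [Ideal.IsDedekindDomain.ramificationIdx_eq_multiplicity (Ideal.span {((rp v : ℕ) : ℤ)})
    v.asIdeal hb, hne]
  have h1 := v.intValuation_eq_exp_neg_multiplicity hp0
  rw [← v.valuation_of_algebraMap (K := K)] at h1
  change v.valuation K (algebraMap (𝓞 K) K ((rp v : ℕ) : 𝓞 K)) = _ at h1
  rw [map_natCast] at h1
  unfold ord
  rw [h1, log_exp, neg_neg]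

theorem Ed_ord (v : HeightOneSpectrum (𝓞 K)) {m : ℤ} (hm : m ≠ 0) :
    ord (v.valuation K) (m : K) = v.asIdeal.ramificationIdx ℤ * padicValInt (rp v) m := by
  have hF : Fact (rp v).Prime := ⟨rp_prime v⟩
  obtain ⟨m', hm'⟩ := padicValInt_dvd (p := rp v) m
  have hn : ¬ (rp v : ℤ) ∣ m' := by
    rintro ⟨m2, rfl⟩
    have h1 : ((rp v : ℕ) : ℤ) ^ (padicValInt (rp v) m + 1) ∣ m := by
      refine ⟨m2, ?_⟩
      conv_lhs => rw [hm']
      rw [pow_succ, mul_assoc]
    rw [padicValInt_dvd_iff] at h1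
    rcases h1 with h1 | h1
    · exact hm h1
    · omega
  have h2 : (m' : 𝓞 K) ∉ v.asIdeal := fun h => hn ((mem_iff_int m').1 h)
  have h3 := (v.valuation_eq_one_iff_notMem (K := K) (r := (m' : 𝓞 K))).mpr h2
  rw [map_intCast] at h3
  have h4 : (m : K) = ((rp v : ℕ) : K) ^ (padicValInt (rp v) m) * (m' : K) := by
    conv_lhs => rw [hm']
    push_cast
    ring
  rw [← Ed_ordq v]
  unfold ord
  rw [h4, map_mul, h3, mul_one, map_pow, WithZero.log_pow]
  rw [nsmul_eq_mul]
  ring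

theorem Ed_half {q : ℕ} (hq : Odd q) (g : ℕ) : ∃ s, Odd s ∧ q ^ (2 * g + 1) / 2 = q / 2 * s := by
  obtain ⟨h, rfl⟩ := hq
  have e0 : (2 * h + 1) / 2 = h := by omega
  rw [e0]
  induction g with
  | zero => exact ⟨1, odd_one, by rw [mul_zero, zero_add, pow_one, mul_one, e0]⟩
  | succ g ih =>
    obtain ⟨s, hs, he⟩ := ih
    obtain ⟨N, hN⟩ : ∃ N, N = (2 * h + 1) ^ (2 * g + 1) := ⟨_, rfl⟩
    have hNo : Odd N := by
      rw [hN]
      exact Odd.pow ⟨h, rfl⟩
    obtain ⟨M, hM⟩ := hNo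
    rw [← hN] at he
    have hM2 : M = h * s := by
      rw [← he]
      omega
    refine ⟨(2 * h + 1) ^ 2 * s + (2 * h + 2), ?_, ?_⟩
    · refine Odd.add_even (Odd.mul (Odd.pow ⟨h, rfl⟩) hs) ⟨h + 1, by ring⟩
    · have e1 : (2 * h + 1) ^ (2 * (g + 1) + 1) = (2 * h + 1) ^ 2 * N := by
        rw [hN]
        ring
      have e2 : (2 * h + 1) ^ 2 * N =
          2 * (h * ((2 * h + 1) ^ 2 * s + (2 * h + 2))) + 1 := by
        rw [hM, hM2]
        ring
      rw [e1, e2]
      omega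

theorem Ed_sq {F : Type*} [Field F] [Fintype F] {q f : ℕ} [hF : Fact q.Prime] [CharP F q]
    (hq : q ≠ 2) (hf : Odd f) (hc : Fintype.card F = q ^ f) {m : ℤ} (hm : ¬ (q : ℤ) ∣ m)
    (hs : IsSquare ((m : ℤ) : F)) : IsSquare ((m : ℤ) : ZMod q) := by
  by_contra hn
  have hm0 : ((m : ℤ) : ZMod q) ≠ 0 := by
    rw [Ne, CharP.intCast_eq_zero_iff (ZMod q) q]
    exact hm
  have hmF : ((m : ℤ) : F) ≠ 0 := by
    rw [Ne, CharP.intCast_eq_zero_iff F q]
    exact hm
  have h1 : ((m : ℤ) : ZMod q) ^ (q / 2) = -1 := by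
    rcases ZMod.pow_div_two_eq_neg_one_or_one q hm0 with h | h
    · exact absurd ((ZMod.euler_criterion q hm0).2 h) hn
    · exact h
  have h2 : ((m : ℤ) : F) ^ (q / 2) = -1 := by
    have h3 := congrArg (ZMod.castHom (dvd_refl q) F) h1
    rw [map_pow, map_intCast, map_neg, map_one] at h3
    exact h3
  have hr : ringChar F ≠ 2 := by
    rw [ringChar.eq F q]
    exact hq
  have h4 := (FiniteField.isSquare_iff hr hmF).1 hs
  obtain ⟨g, rfl⟩ := hf
  obtain ⟨s, hs', he⟩ := Ed_half (hF.out.odd_of_ne_two hq) g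
  rw [hc, he, pow_mul, h2, hs'.neg_one_pow] at h4
  have h5 : (2 : F) = 0 := by linear_combination -h4
  exact Ring.two_ne_zero hr h5

theorem ord_int (v : HeightOneSpectrum (𝓞 K)) : ∃ e : ℕ, 0 < e ∧
    ∀ m : ℤ, m ≠ 0 → ord (v.valuation K) (m : K) = e * padicValInt (rp v) m := by
  refine ⟨v.asIdeal.ramificationIdx ℤ, ?_, fun m hm => Ed_ord v hm⟩
  have h1 : 0 < ord (v.valuation K) ((rp v : ℕ) : K) := by
    have h2 : v.valuation K (((rp v : ℕ) : 𝓞 K) : K) < 1 :=
      (v.valuation_lt_one_iff_mem _).2 (rp_mem v)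
    have h3 : (((rp v : ℕ) : 𝓞 K) : K) = ((rp v : ℕ) : K) := map_natCast (algebraMap (𝓞 K) K) _
    rw [h3] at h2
    have h4 : ((rp v : ℕ) : K) ≠ 0 := by exact_mod_cast (rp_prime v).ne_zero
    have h5 : v.valuation K ((rp v : ℕ) : K) ≠ 0 := (Valuation.ne_zero_iff _).2 h4
    unfold ord
    rw [← exp_zero, ← log_lt_iff_lt_exp h5] at h2
    omega
  rw [Ed_ordq v] at h1
  exact_mod_cast h1

theorem eo_int [IsGalois ℚ K] (hodd : Odd (Module.finrank ℚ K)) {m : ℤ} (hm : m ≠ 0) :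
    eo v (sc (m : K)) = (padicValInt (rp v) m : ZMod 2) := by
  have hmK : (m : K) ≠ 0 := by exact_mod_cast hm
  obtain ⟨k, hk⟩ := (Ed_odd hodd v).1
  rw [eo_sc hmK, Ed_ord v hm, hk]
  push_cast
  have h2 : (2 : ZMod 2) = 0 := by decide
  rw [h2, zero_mul, zero_add, one_mul]

theorem la_int [IsGalois ℚ K] (hodd : Odd (Module.finrank ℚ K)) (hv : OddP v) {m : ℤ}
    (hm : ¬ (rp v : ℤ) ∣ m) : la v (sc (m : K)) = 0 ↔ SqMod (rp v) m := by
  have hF : Fact (rp v).Prime := ⟨rp_prime v⟩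
  have hm0 : m ≠ 0 := by
    rintro rfl
    exact hm (dvd_zero _)
  have hmK : (m : K) ≠ 0 := by exact_mod_cast hm0
  have h2 : (m : 𝓞 K) ∉ v.asIdeal := fun h => hm ((mem_iff_int m).1 h)
  have h3 := (v.valuation_eq_one_iff_notMem (K := K) (r := (m : 𝓞 K))).mpr h2
  rw [map_intCast] at h3
  have h4 : ord (v.valuation K) (m : K) = 0 := by
    unfold ord
    rw [h3, log_one, neg_zero]
  have h5 : la v (sc (m : K)) = 0 ↔ Sq (v.valuation K) (m : K) := by
    rw [la_sc hv hmK]
    unfold lam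
    rw [h4, neg_zero, zpow_zero, mul_one]
    constructor
    · intro h
      by_contra hn
      rw [if_neg hn] at h
      exact one_ne_zero h
    · intro h
      exact if_pos h
  rw [h5]
  have hq2 : rp v ≠ 2 := by
    intro hq
    have h6 := rp_mem v
    rw [hq] at h6
    have h7 : v.valuation K (algebraMap (𝓞 K) K ((2 : ℕ) : 𝓞 K)) < 1 :=
      (v.valuation_lt_one_iff_mem (K := K) _).2 h6
    rw [map_natCast] at h7
    have h8 : v.valuation K (2 : K) = 1 := hv
    rw [Nat.cast_ofNat, h8] at h7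
    exact lt_irrefl _ h7
  constructor
  · rintro ⟨t, ht⟩
    have ht1 : v.valuation K t ≤ 1 := by
      have e1 : t ^ 2 = (m : K) - ((m : K) - t ^ 2) := by ring
      have e2 : v.valuation K (t ^ 2) ≤ 1 := by
        rw [e1]
        exact (Valuation.map_sub _ _ _).trans (max_le h3.le ht.le)
      rw [map_pow] at e2
      by_contra hc
      exact absurd e2 (not_le.2 (one_lt_pow₀ (not_le.1 hc) two_ne_zero))
    obtain ⟨a, ha⟩ := v.exists_valuation_sub_lt_of_integer ht1
      (Units.mk0 (1 : WithZero (Multiplicative ℤ)) one_ne_zero)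
    have ha' : v.valuation K ((a : K) - t) < 1 := ha
    have hsub : (m : 𝓞 K) - a ^ 2 ∈ v.asIdeal := by
      rw [← v.valuation_lt_one_iff_mem (K := K)]
      have e3 : algebraMap (𝓞 K) K ((m : 𝓞 K) - a ^ 2) =
          ((m : K) - t ^ 2) - ((a : K) - t) * ((a : K) + t) := by
        rw [map_sub, map_intCast, map_pow]
        ring
      change v.valuation K (algebraMap (𝓞 K) K ((m : 𝓞 K) - a ^ 2)) < 1
      rw [e3]
      refine (Valuation.map_sub _ _ _).trans_lt (max_lt ht ?_)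
      rw [map_mul]
      refine mul_lt_one_of_lt_of_le ha' ?_
      exact (Valuation.map_add _ _ _).trans (max_le (v.valuation_le_one a) ht1)
    have hmax : v.asIdeal.IsMaximal := v.isMaximal
    have hfin : Finite (𝓞 K ⧸ v.asIdeal) := Ideal.finiteQuotientOfFreeOfNeBot _ v.ne_bot
    let _ : Field (𝓞 K ⧸ v.asIdeal) := Ideal.Quotient.field _
    let _ : Fintype (𝓞 K ⧸ v.asIdeal) := Fintype.ofFinite _
    have hch : CharP (𝓞 K ⧸ v.asIdeal) (rp v) := ringChar.charP _
    have hl := Ed_lies v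
    have hcard : Fintype.card (𝓞 K ⧸ v.asIdeal) = rp v ^ (v.asIdeal.inertiaDeg ℤ) := by
      rw [← Nat.card_eq_fintype_card, ← Submodule.cardQuot_apply, ← Ideal.absNorm_apply]
      have hh := Ideal.absNorm_pow_inertiaDeg (Ideal.span {((rp v : ℕ) : ℤ)}) v.asIdeal
      rw [← hh]
      simp
    have hsq : IsSquare (((m : ℤ) : 𝓞 K ⧸ v.asIdeal)) := by
      refine ⟨Ideal.Quotient.mk v.asIdeal a, ?_⟩
      have e4 : ((m : ℤ) : 𝓞 K ⧸ v.asIdeal) = Ideal.Quotient.mk v.asIdeal (m : 𝓞 K) := by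
        rw [map_intCast]
      rw [e4, ← map_mul, Ideal.Quotient.eq, ← sq]
      exact hsub
    obtain ⟨r, hr⟩ := Ed_sq hq2 (Ed_odd hodd v).2 hcard hm hsq
    refine ⟨(r.val : ℤ), ?_⟩
    rw [← CharP.intCast_eq_zero_iff (ZMod (rp v)) (rp v)]
    push_cast
    rw [ZMod.natCast_zmod_val, hr]
    ring
  · rintro ⟨t, ht⟩
    refine ⟨(t : K), ?_⟩
    have h6 : v.valuation K (algebraMap (𝓞 K) K ((m - t ^ 2 : ℤ) : 𝓞 K)) < 1 :=
      (v.valuation_lt_one_iff_mem (K := K) _).2 ((mem_iff_int (v := v) _).2 ht)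
    rw [map_intCast] at h6
    push_cast at h6
    exact h6

end H38T1
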