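import Pool.Agent.H38.T1.Fr

/-!
Row Fw. (about 200 lines): a twisting integer times a free integer is again a twisting integer.
g = Int.gcd n d (positive, odd), n = g n1, d = g d1, s = g, n' = n1 d1; n d = n' g^2. A prime l | d is odd, prime to b D0 (D0 = a^2 - 4b), b and D0 are non-squares mod l; so l is not in Pp, Pp' (pp gives l | n and pr gives three alternatives, the first two are impossible). For a prime l | n1: l does not divide g (n squarefree), same for d1;
 n1 and d1 are coprime, n' is squarefree (Int.squarefree_mul / coprime). two: a n' g^2 = (a n) d = 5 mod 8 and g^2 = 1 mod 8. For q | b D0 odd: q does not divide d (pr), d = t^2 mod q with q not dividing t. SqMod q x and q not dividing c: SqMod q x iff SqMod q (x c^2) (c invertible mod q; prove this once as a lemma).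
 three, bev, dev: q does not divide n' (q divides neither n nor d); if a n' is a square mod q then a n' g^2 = a n d is, so a n is. bod: n = q u: q divides n1 (q does not divide g), n1 = q u1, u = g u1, n' = q (u1 d1); -(a u1 d1 b') g^2 = -(a u b') d; same for dod. pr: l | n' gives l | n or l | d.
 pp: l in Pp divides n and not g (above), so it divides n1. t0, t1: a n' > 0 iff a n > 0 (n' g^2 = n d, d > 0).
-/

set_option autoImplicit false
set_option linter.unusedSectionVars false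
open scoped Classical

open WithZero NumberField IsDedekindDomain H38RT

namespace H38T1

private lemma Fw_congr {q : ℕ} {x y : ℤ} (h : (q : ℤ) ∣ x - y) (hx : SqMod q x) : SqMod q y := by
  obtain ⟨t, ht⟩ := hx
  refine ⟨t, ?_⟩
  have h1 : y - t ^ 2 = (x - t ^ 2) - (x - y) := by ring
  rw [h1]
  exact dvd_sub ht h

private lemma Fw_mul_sq {q : ℕ} {x : ℤ} (c : ℤ) (hx : SqMod q x) : SqMod q (x * c ^ 2) := by
  obtain ⟨t, ht⟩ := hx
  refine ⟨t * c, ?_⟩
  have h1 : x * c ^ 2 - (t * c) ^ 2 = (x - t ^ 2) * c ^ 2 := by ring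
  rw [h1]
  exact Dvd.dvd.mul_right ht _

private lemma Fw_of_mul_sq {q : ℕ} (hq : q.Prime) {x c : ℤ} (hc : ¬ (q : ℤ) ∣ c)
    (hx : SqMod q (x * c ^ 2)) : SqMod q x := by
  have hcop : IsCoprime (q : ℤ) c := (Nat.prime_iff_prime_int.1 hq).coprime_iff_not_dvd.2 hc
  obtain ⟨u, v, huv⟩ := hcop
  have h1 := Fw_mul_sq v hx
  refine Fw_congr ?_ h1
  have h2 : x * c ^ 2 * v ^ 2 - x = (q : ℤ) * (-(u * x * (v * c + 1))) := by
    linear_combination x * (v * c + 1) * huv
  rw [h2]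
  exact Dvd.intro _ rfl

private lemma Fw_mul_d {q : ℕ} {x d : ℤ} (hd : SqMod q d) (hx : SqMod q x) : SqMod q (x * d) := by
  obtain ⟨t, ht⟩ := hd
  refine Fw_congr ?_ (Fw_mul_sq t hx)
  have h1 : x * t ^ 2 - x * d = -x * (d - t ^ 2) := by ring
  rw [h1]
  exact Dvd.dvd.mul_left ht _

private lemma Fw_of_mul_d {q : ℕ} (hq : q.Prime) {x d : ℤ} (hqd : ¬ (q : ℤ) ∣ d) (hd : SqMod q d)
    (hx : SqMod q (x * d)) : SqMod q x := by
  obtain ⟨t, ht⟩ := hd
  have hqt : ¬ (q : ℤ) ∣ t := by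
    intro h
    apply hqd
    have h1 : d = (d - t ^ 2) + t * t := by ring
    rw [h1]
    exact dvd_add ht (Dvd.dvd.mul_left h _)
  refine Fw_of_mul_sq hq hqt (Fw_congr ?_ hx)
  have h1 : x * d - x * t ^ 2 = x * (d - t ^ 2) := by ring
  rw [h1]
  exact Dvd.dvd.mul_left ht _

theorem twist_free {a b n : ℤ} (hab : Hyp a b) {Pp Pp' : Finset ℕ} {τ : Bool}
    (hn : TwistOK a b n Pp Pp' τ) {J : ℕ → Prop} {d : ℕ} (hd : Free a b J d) :
    ∃ n' s : ℤ, s ≠ 0 ∧ n * d = n' * s ^ 2 ∧ TwistOK a b n' Pp Pp' τ := by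
  have hd0 : d ≠ 0 := hd.sqf.ne_zero
  have hdZ : (0 : ℤ) < (d : ℤ) := by exact_mod_cast Nat.pos_of_ne_zero hd0
  have hn0 : n ≠ 0 := hn.sqf.ne_zero
  have hgpos : 0 < Int.gcd n d := Int.gcd_pos_of_ne_zero_left _ hn0
  obtain ⟨n1, d1, hcop, hn1, hd1⟩ := Int.exists_gcd_one hgpos
  generalize hg : ((Int.gcd n d : ℕ) : ℤ) = g at hn1 hd1
  have hg0 : g ≠ 0 := by
    rw [← hg]
    exact_mod_cast hgpos.ne'
  have hsqd : Squarefree (d : ℤ) := by
    rw [Int.squarefree_natCast]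
    exact hd.sqf
  -- the primes dividing `d`
  have hpd : ∀ l : ℕ, l.Prime → (l : ℤ) ∣ d → ¬ (l : ℤ) ∣ 2 * (b * (a ^ 2 - 4 * b)) ∧ ¬ SqMod l b ∧
      ¬ SqMod l (a ^ 2 - 4 * b) := by
    intro l hl hld
    obtain ⟨h1, h2, h3, -⟩ := hd.pr l hl (by exact_mod_cast hld)
    exact ⟨h1, h2, h3⟩
  have hgd : g ∣ (d : ℤ) := by rw [hd1]; exact Dvd.intro_left _ rfl
  have hd1d : d1 ∣ (d : ℤ) := by rw [hd1]; exact Dvd.intro _ rfl
  have hn1n : n1 ∣ n := by rw [hn1]; exact Dvd.intro _ rfl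
  -- a prime dividing `b D`
  have hqd : ∀ q : ℕ, q.Prime → (q : ℤ) ∣ b * (a ^ 2 - 4 * b) → ¬ (q : ℤ) ∣ d := by
    intro q hq h h'
    exact (hpd q hq h').1 (Dvd.dvd.mul_left h 2)
  have hqn : ∀ q : ℕ, q.Prime → (q : ℤ) ∣ b * (a ^ 2 - 4 * b) → ¬ (q : ℤ) ∣ n →
      ¬ (q : ℤ) ∣ n1 * d1 := by
    intro q hq h h1 h2
    rcases (Nat.prime_iff_prime_int.1 hq).dvd_or_dvd h2 with h3 | h3
    · exact h1 (h3.trans hn1n)
    · exact hqd q hq h (h3.trans hd1d)
  -- transfer of the square condition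
  have htr : ∀ q : ℕ, q.Prime → q ≠ 2 → (q : ℤ) ∣ b * (a ^ 2 - 4 * b) → ∀ E : ℤ,
      SqMod q (E * (n1 * d1)) → SqMod q (E * n) := by
    intro q hq hq2 h E hE
    refine Fw_of_mul_d hq (hqd q hq h) (hd.loc q hq hq2 h) ?_
    have h1 : E * n * d = E * (n1 * d1) * g ^ 2 := by
      rw [hn1, hd1]
      ring
    rw [h1]
    exact Fw_mul_sq g hE
  have htr' : ∀ q : ℕ, q.Prime → q ≠ 2 → (q : ℤ) ∣ b * (a ^ 2 - 4 * b) → ∀ E u u1 : ℤ,
      u = u1 * g → SqMod q (E * u) → SqMod q (E * (u1 * d1)) := by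
    intro q hq hq2 h E u u1 hu hE
    refine Fw_of_mul_sq hq (c := g) (fun h' => hqd q hq h (h'.trans hgd)) ?_
    have h1 : E * (u1 * d1) * g ^ 2 = E * u * d := by
      rw [hu, hd1]
      ring
    rw [h1]
    exact Fw_mul_d (hd.loc q hq hq2 h) hE
  -- divisibility of `n1` by a prime dividing `n` and not `g`
  have hdiv : ∀ q : ℕ, q.Prime → (q : ℤ) ∣ b * (a ^ 2 - 4 * b) → ∀ u : ℤ, n = q * u →
      ∃ u1 : ℤ, n1 = q * u1 ∧ u = u1 * g := by
    intro q hq h u hu
    have hqZ := Nat.prime_iff_prime_int.1 hq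
    have h1 : (q : ℤ) ∣ n1 * g := by rw [← hn1, hu]; exact Dvd.intro _ rfl
    rcases hqZ.dvd_or_dvd h1 with h2 | h2
    · obtain ⟨u1, hu1⟩ := h2
      refine ⟨u1, hu1, ?_⟩
      have h3 : (q : ℤ) * u = q * (u1 * g) := by
        rw [← hu, hn1, hu1]
        ring
      exact mul_left_cancel₀ hqZ.ne_zero h3
    · exact absurd (h2.trans hgd) (hqd q hq h)
  -- the sets `Pp`, `Pp'` contain no prime dividing `d`
  have hnot : ∀ l : ℕ, l.Prime → (l : ℤ) ∣ d → l ∉ Pp ∧ l ∉ Pp' := by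
    intro l hl hld
    obtain ⟨h1, h2, h3⟩ := hpd l hl hld
    have h4 : ¬ (l : ℤ) ∣ b * (a ^ 2 - 4 * b) := fun h => h1 (Dvd.dvd.mul_left h 2)
    constructor
    · intro h5
      rcases hn.pr l hl (hn.pp l h5).2.1 h4 with h | h | h
      · exact h2 h.2.1
      · exact h3 h.2.2
      · exact h.1 h5
    · intro h5
      rcases hn.pr l hl (hn.pp' l h5).2.1 h4 with h | h | h
      · exact h2 h.2.1
      · exact h3 h.2.2
      · exact h.2.1 h5
  have hsign : a * (n1 * d1) * g ^ 2 = a * n * d := by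
    rw [hn1, hd1]
    ring
  have hg2 : 0 < g ^ 2 := by positivity
  refine ⟨n1 * d1, g, hg0, ?_, ?_⟩
  · rw [hn1, hd1]
    ring
  have hbD : ∀ q : ℕ, (q : ℤ) ∣ b → (q : ℤ) ∣ b * (a ^ 2 - 4 * b) := fun q h => Dvd.dvd.mul_right h _
  have hDD : ∀ q : ℕ, (q : ℤ) ∣ a ^ 2 - 4 * b → (q : ℤ) ∣ b * (a ^ 2 - 4 * b) :=
    fun q h => Dvd.dvd.mul_left h _
  exact
  { sqf := by
      rw [squarefree_mul_iff]
      refine ⟨?_, hn.sqf.squarefree_of_dvd hn1n, hsqd.squarefree_of_dvd hd1d⟩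
      exact (Int.isCoprime_iff_gcd_eq_one.2 hcop).isRelPrime
    two := by
      have h1 := hn.two
      have h2 : (d : ℤ) % 8 = 1 := by
        have := hd.one
        omega
      have hgodd : g % 2 = 1 := by
        rcases Int.emod_two_eq_zero_or_one g with h | h
        · exfalso
          have h3 : (2 : ℤ) ∣ g := Int.dvd_of_emod_eq_zero h
          have h4 := h3.trans hgd
          omega
        · exact h
      have h3 : g ^ 2 % 8 = 1 := by
        have : g % 8 = 1 ∨ g % 8 = 3 ∨ g % 8 = 5 ∨ g % 8 = 7 := by omega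
        rcases this with h | h | h | h <;> rw [sq, Int.mul_emod, h] <;> norm_num
      have h4 : (a * (n1 * d1) * g ^ 2) % 8 = (a * (n1 * d1)) % 8 := by
        rw [Int.mul_emod, h3, mul_one, Int.emod_emod_of_dvd _ dvd_rfl]
      have h5 : (a * n * d) % 8 = (a * n) % 8 := by
        rw [Int.mul_emod, h2, mul_one, Int.emod_emod_of_dvd _ dvd_rfl]
      rw [← h4, hsign, h5, h1]
    three := fun q hq hq2 ha hb => hqn q hq (hbD q hb) (hn.three q hq hq2 ha hb)
    bev := by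
      intro q hq hq2 hb ha he
      obtain ⟨h1, h2⟩ := hn.bev q hq hq2 hb ha he
      exact ⟨hqn q hq (hbD q hb) h1, fun h => h2 (htr q hq hq2 (hbD q hb) a h)⟩
    bod := by
      intro q hq hq2 hb ha ho
      obtain ⟨u, b', k, h1, h2, h3, h4⟩ := hn.bod q hq hq2 hb ha ho
      obtain ⟨u1, h5, h6⟩ := hdiv q hq (hbD q hb) u h1
      refine ⟨u1 * d1, b', k, by rw [h5]; ring, h2, ?_, ?_⟩
      · intro h7
        have hqZ := Nat.prime_iff_prime_int.1 hq
        rcases hqZ.dvd_or_dvd h7 with h8 | h8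
        · rcases hqZ.dvd_or_dvd h8 with h9 | h9
          · exact h3 (by rw [h6]; exact Dvd.dvd.mul_right (Dvd.dvd.mul_right h9 _) _)
          · exact hqd q hq (hbD q hb) (h9.trans hd1d)
        · exact h3 (Dvd.dvd.mul_left h8 _)
      · have h7 : -(a * (u1 * d1) * b') = (-(a * b')) * (u1 * d1) := by ring
        rw [h7]
        refine htr' q hq hq2 (hbD q hb) (-(a * b')) u u1 h6 ?_
        have h8 : (-(a * b')) * u = -(a * u * b') := by ring
        rw [h8]
        exact h4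
    dev := by
      intro q hq hq2 hD hb he
      obtain ⟨h1, h2⟩ := hn.dev q hq hq2 hD hb he
      exact ⟨hqn q hq (hDD q hD) h1, fun h => h2 (htr q hq hq2 (hDD q hD) (-2 * a) h)⟩
    dod := by
      intro q hq hq2 hD hb ho
      obtain ⟨u, b', k, h1, h2, h3, h4⟩ := hn.dod q hq hq2 hD hb ho
      obtain ⟨u1, h5, h6⟩ := hdiv q hq (hDD q hD) u h1
      refine ⟨u1 * d1, b', k, by rw [h5]; ring, h2, ?_, ?_⟩
      · intro h7
        have hqZ := Nat.prime_iff_prime_int.1 hq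
        rcases hqZ.dvd_or_dvd h7 with h8 | h8
        · rcases hqZ.dvd_or_dvd h8 with h9 | h9
          · exact h3 (by rw [h6]; exact Dvd.dvd.mul_right (Dvd.dvd.mul_right h9 _) _)
          · exact hqd q hq (hDD q hD) (h9.trans hd1d)
        · exact h3 (Dvd.dvd.mul_left h8 _)
      · have h7 : 2 * a * (u1 * d1) * b' = (2 * a * b') * (u1 * d1) := by ring
        rw [h7]
        refine htr' q hq hq2 (hDD q hD) (2 * a * b') u u1 h6 ?_
        have h8 : (2 * a * b') * u = 2 * a * u * b' := by ring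
        rw [h8]
        exact h4
    pr := by
      intro l hl hln hlb
      rcases (Nat.prime_iff_prime_int.1 hl).dvd_or_dvd hln with h | h
      · exact hn.pr l hl (h.trans hn1n) hlb
      · have h1 := h.trans hd1d
        obtain ⟨-, h2, h3⟩ := hpd l hl h1
        obtain ⟨h4, h5⟩ := hnot l hl h1
        exact Or.inr (Or.inr ⟨h4, h5, h2, h3⟩)
    pp := by
      intro l hl
      obtain ⟨h1, h2, h3⟩ := hn.pp l hl
      refine ⟨h1, ?_, h3⟩
      rw [hn1] at h2
      rcases (Nat.prime_iff_prime_int.1 h1).dvd_or_dvd h2 with h | h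
      · exact Dvd.dvd.mul_right h _
      · exact absurd hl (hnot l h1 (h.trans hgd)).1
    pp' := by
      intro l hl
      obtain ⟨h1, h2, h3⟩ := hn.pp' l hl
      refine ⟨h1, ?_, h3⟩
      rw [hn1] at h2
      rcases (Nat.prime_iff_prime_int.1 h1).dvd_or_dvd h2 with h | h
      · exact Dvd.dvd.mul_right h _
      · exact absurd hl (hnot l h1 (h.trans hgd)).2
    t0 := by
      intro h
      rcases hn.t0 h with h1 | ⟨h1, h2, h3⟩
      · exact Or.inl h1
      · refine Or.inr ⟨h1, h2, ?_⟩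
        by_contra h4
        have h5 : 0 ≤ a * (n1 * d1) * g ^ 2 := mul_nonneg (not_lt.1 h4) hg2.le
        rw [hsign] at h5
        exact absurd h5 (not_le.2 (mul_neg_of_neg_of_pos h3 hdZ))
    t1 := by
      intro h
      rcases hn.t1 h with h1 | ⟨h1, h2, h3⟩
      · exact Or.inl h1
      · refine Or.inr ⟨h1, h2, ?_⟩
        by_contra h4
        have h5 : a * (n1 * d1) * g ^ 2 ≤ 0 := mul_nonpos_of_nonpos_of_nonneg (not_lt.1 h4) hg2.le
        rw [hsign] at h5
        exact absurd h5 (not_le.2 (mul_pos h3 hdZ)) }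

end H38T1
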