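import Pool.Agent.H38.T1.Tw2
import Pool.Agent.H86.KS.Asm

/-!
Block K (helper86): the fields.
-/

set_option autoImplicit false
open scoped Classical

open WithZero NumberField IsDedekindDomain H38RT H73IS H5SW

namespace H38T1

/-- The subfield of odd degree `p^j m` of the field of the roots of unity of order `p^(j+1)`. -/
def IsLay (p j : ℕ) (K : Type) [Field K] [NumberField K] : Prop :=
  IsR p K ∧ ∃ m s : ℕ, Module.finrank ℚ K = p ^ j * m ∧ Odd m ∧ p - 1 = m * 2 ^ s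

theorem exists_KS (K₀ : Type) [Field K₀] [NumberField K₀] [IsGalois ℚ K₀]
    (h₀ : Odd (Module.finrank ℚ K₀)) (S : Finset ℕ) (hS : ∀ p ∈ S, p.Prime ∧ p ≠ 2) (j₀ : ℕ) :
    ∃ j : ℕ, j₀ ≤ j ∧ ∃ (K K' : Type) (_ : Field K) (_ : NumberField K) (_ : Field K')
      (_ : NumberField K') (_ : Algebra K K') (_ : IsGalois ℚ K) (_ : IsGalois ℚ K'),
      Odd (Module.finrank ℚ K') ∧ Nonempty (K₀ →+* K) ∧
      (∀ p ∈ S, ∃ (Kp : Type) (_ : Field Kp) (_ : NumberField Kp), IsLay p j Kp ∧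
        Nonempty (Kp →+* K)) ∧
      ∃ t : K' ≃ₐ[K] K', ∀ p ∈ S, ∀ l : ℕ, l.Prime → p ^ (j + 2) ∣ l ^ (p - 1) - 1 →
        ∀ w : HeightOneSpectrum (𝓞 K'), (l : 𝓞 K') ∈ w.asIdeal →
          (t.restrictScalars ℚ) • w ≠ w :=
  H86KS.exists_KS K₀ h₀ S hS j₀

end H38T1
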