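import Pool.Agent.H38.T1.Tw
import Pool.Agent.H86.TL.Lz
import Pool.Agent.H86.TL.Cc

/-!
Block L (helper86): local conditions and conclusion.
-/

set_option autoImplicit false
open scoped Classical

open WithZero NumberField IsDedekindDomain H38RT H73IS

namespace H38T1

variable {K : Type} [Field K] [NumberField K]

theorem loc_X [IsGalois ℚ K] (hodd : Odd (Module.finrank ℚ K)) {a b n : ℤ} (hab : Hyp a b)
    {Pp Pp' : Finset ℕ} {τ : Bool} (hdj : Disjoint Pp Pp') (hn : TwistOK a b n Pp Pp' τ) {d : K}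
    (hd : d ≠ 0) (hf : FinQ K ((a * n : ℤ) : K) ((b * n ^ 2 : ℤ) : K) d)
    (hi : InfQ K ((a * n : ℤ) : K) ((b * n ^ 2 : ℤ) : K) d) : sc d ∈ XX (LDof K a b Pp Pp' τ) :=
  H86TL.loc_X hodd hab hn hdj hd hf hi

theorem loc_X' [IsGalois ℚ K] (hodd : Odd (Module.finrank ℚ K)) {a b n : ℤ} (hab : Hyp a b)
    {Pp Pp' : Finset ℕ} {τ : Bool} (hdj : Disjoint Pp Pp') (hn : TwistOK a b n Pp Pp' τ) {d : K}
    (hd : d ≠ 0)
    (hf : FinQ K ((-2 * (a * n) : ℤ) : K) (((a ^ 2 - 4 * b) * n ^ 2 : ℤ) : K) d)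
    (hi : InfQ K ((-2 * (a * n) : ℤ) : K) (((a ^ 2 - 4 * b) * n ^ 2 : ℤ) : K) d) :
    sc d ∈ XX' (LDof K a b Pp Pp' τ) :=
  H86TL.loc_X' hodd hab hn hdj hd hf hi

theorem concl {A B : K} (hB : B ≠ 0) (hD : A ^ 2 - 4 * B ≠ 0)
    (h1 : ∀ d : K, d ≠ 0 → FinQ K A B d → InfQ K A B d → IsSquare d ∨ IsSquare (d * B))
    (h2 : ∀ d : K, d ≠ 0 → FinQ K (-2 * A) (A ^ 2 - 4 * B) d → InfQ K (-2 * A) (A ^ 2 - 4 * B) d →
      IsSquare d ∨ IsSquare (d * (A ^ 2 - 4 * B))) :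
    Triv K A B ∧ Triv K (-2 * A) (A ^ 2 - 4 * B) :=
  H86TL.concl hB hD h1 h2

theorem descend {K₀ : Type} [Field K₀] [NumberField K₀] [Algebra K₀ K]
    (hodd : Odd (Module.finrank K₀ K)) {A B : K₀}
    (h : Triv K (algebraMap K₀ K A) (algebraMap K₀ K B)) : Triv K₀ A B :=
  H86TL.descend hodd h

end H38T1
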