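import Pool.Agent.H38.T1.Tw
import Pool.Agent.H93.T1.Na

/-!
Block N (helper93): existence of the twisting integer.
-/

set_option autoImplicit false
open scoped Classical

open WithZero NumberField IsDedekindDomain H38RT

namespace H38T1

/-- There is a real type `τ` such that for all sets `Pp`, `Pp'` of the right kind there are
arbitrarily large twisting integers. -/
theorem exists_n {a b : ℤ} (hab : Hyp a b) : ∃ τ : Bool,
    ((a ^ 2 < 4 * b ∨ (0 < b ∧ 0 < a ∧ IsCoprime a b)) → τ = false) ∧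
    (τ = false → 0 < b) ∧ (τ = true → 4 * b < a ^ 2) ∧
    ∀ (J : ℕ → Prop), (∀ M : ℕ, Squarefree M → Odd M → ∀ c : ℕ, c.Coprime (8 * M) →
        {l : ℕ | l.Prime ∧ l ≡ c [MOD 8 * M] ∧ J l}.Infinite) →
      ∀ Pp Pp' : Finset ℕ, Disjoint Pp Pp' →
      (∀ l ∈ Pp, l.Prime ∧ ¬ (l : ℤ) ∣ 2 * (b * (a ^ 2 - 4 * b)) ∧ SqMod l b ∧
        ¬ SqMod l (a ^ 2 - 4 * b)) →
      (∀ l ∈ Pp', l.Prime ∧ ¬ (l : ℤ) ∣ 2 * (b * (a ^ 2 - 4 * b)) ∧ ¬ SqMod l b ∧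
        SqMod l (a ^ 2 - 4 * b)) →
      Pp.card = Pp'.card + (if τ = true then 1 else 0) →
      ∀ N : ℕ, ∃ n : ℤ, N < n.natAbs ∧ TwistOK a b n Pp Pp' τ ∧
        ∀ l : ℕ, l.Prime → (l : ℤ) ∣ n → ¬ (l : ℤ) ∣ b * (a ^ 2 - 4 * b) → l ∉ Pp → l ∉ Pp' →
          J l :=
  H93T1.exists_n' hab

end H38T1
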