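import Pool.Agent.H38.T1.Tw2

/-!
Row Sc. (about 200 lines): the conclusion is invariant under the scaling (x, y) -> (r^2 x, r^3 y).
exists_scale: W : y^2 = x^3 + A x^2 + B x, W' : y^2 = x^3 + r^2 A x^2 + r^4 B x. The equation and the nonsingularity (Affine.equation_iff, nonsingular_iff) of (r^2 x, r^3 y) for W' are r^6 times (r^4, r^3 times) those of (x, y) for W. Define phi 0 = 0, phi (some x y h) = some (r^2 x) (r^3 y) h';
 inverse with r^-1. Additivity: cases on the addition law (Affine.Point.add_def / add_of_X_ne, add_self_of_Y_ne, add_of_Y_eq ... as in the proof for Affine.Point.map, or the file H73/IS/Bas.lean for IsTw): negY' (r^2 x) (r^3 y) = r^3 negY x y (= - r^3 y), slope' = r * slope (two cases: x1 <> x2, and tangent),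
 addX' = r^2 addX, addY' = r^3 addY.
nat_scale: for a field homomorphism g : F -> F' the maps phi commute with the maps of points: on some x y both give some (g r)^2 (g x) ... (this is used for the Galois action and for the embeddings into the completions; state it in the form you need, e.g. with WeierstrassCurve.Affine.Point.map).
triv_scale: finiteness from phi over L. Sha2Trivial: W' over L, f a cocycle of W' with values over the algebraic closure, g s := phi^-1 (f s) is a cocycle of W (phi commutes with the Galois action because r is in L), locally trivial with phi_v^-1 P, and (2^m) f coboundary of Q gives (2^m) g coboundary of phi^-1 Q; so g is the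
 coboundary of some R and f is the coboundary of phi R. (baseChange of W' is (0, algebraMap (r^2 A), 0, ..): rewrite map_mul, map_pow with an equality of curves, e.g. by first proving the statement for curves W W' with hypotheses W.a2 = .. etc.)
-/

set_option autoImplicit false
set_option linter.unusedSectionVars false
open scoped Classical

open WithZero NumberField IsDedekindDomain H38RT

namespace H38T1

section Sc_aux

open WeierstrassCurve Pool.Agent.H10

/-- The curves are related by the scaling `(x, y) -> (r^2 x, r^3 y)`. -/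
structure Sc_rel {F : Type*} [Field F] (W W' : WeierstrassCurve F) (r : F) : Prop where
  r0 : r ≠ 0
  a₁ : W'.a₁ = r * W.a₁
  a₂ : W'.a₂ = r ^ 2 * W.a₂
  a₃ : W'.a₃ = r ^ 3 * W.a₃
  a₄ : W'.a₄ = r ^ 4 * W.a₄
  a₆ : W'.a₆ = r ^ 6 * W.a₆

variable {F F' : Type*} [Field F] [Field F'] {W W' : WeierstrassCurve F} {r : F}

theorem Sc_rel.symm (h : Sc_rel W W' r) : Sc_rel W' W r⁻¹ := by
  have h0 := h.r0
  refine ⟨inv_ne_zero h0, ?_, ?_, ?_, ?_, ?_⟩
  · rw [h.a₁]; field_simp
  · rw [h.a₂]; field_simp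
  · rw [h.a₃]; field_simp
  · rw [h.a₄]; field_simp
  · rw [h.a₆]; field_simp

theorem Sc_rel.map (h : Sc_rel W W' r) (φ : F →+* F') : Sc_rel (W.map φ) (W'.map φ) (φ r) := by
  refine ⟨(map_ne_zero φ).2 h.r0, ?_, ?_, ?_, ?_, ?_⟩
  · rw [map_a₁, map_a₁, h.a₁, map_mul]
  · rw [map_a₂, map_a₂, h.a₂, map_mul, map_pow]
  · rw [map_a₃, map_a₃, h.a₃, map_mul, map_pow]
  · rw [map_a₄, map_a₄, h.a₄, map_mul, map_pow]
  · rw [map_a₆, map_a₆, h.a₆, map_mul, map_pow]

theorem Sc_negY (h : Sc_rel W W' r) (x y : F) :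
    W'.toAffine.negY (r ^ 2 * x) (r ^ 3 * y) = r ^ 3 * W.toAffine.negY x y := by
  rw [Affine.negY, Affine.negY, h.a₁, h.a₃]
  ring

theorem Sc_nons (h : Sc_rel W W' r) {x y : F} (hxy : W.toAffine.Nonsingular x y) :
    W'.toAffine.Nonsingular (r ^ 2 * x) (r ^ 3 * y) := by
  have h0 := h.r0
  rw [Affine.nonsingular_iff, Affine.equation_iff] at hxy ⊢
  obtain ⟨h1, h2⟩ := hxy
  rw [h.a₁, h.a₂, h.a₃, h.a₄, h.a₆]
  refine ⟨by linear_combination r ^ 6 * h1, ?_⟩
  rcases h2 with h2 | h2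
  · left
    intro h3
    apply h2
    apply mul_left_cancel₀ (pow_ne_zero 4 h0)
    linear_combination h3
  · right
    intro h3
    apply h2
    apply mul_left_cancel₀ (pow_ne_zero 3 h0)
    linear_combination h3

/-- The map on points, as a function. -/
def Sc_fun (h : Sc_rel W W' r) : W.toAffine.Point → W'.toAffine.Point
  | 0 => 0
  | .some x y hxy => .some (r ^ 2 * x) (r ^ 3 * y) (Sc_nons h hxy)

theorem Sc_slope [DecidableEq F] (h : Sc_rel W W' r) (x₁ x₂ y₁ y₂ : F) :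
    W'.toAffine.slope (r ^ 2 * x₁) (r ^ 2 * x₂) (r ^ 3 * y₁) (r ^ 3 * y₂) =
      r * W.toAffine.slope x₁ x₂ y₁ y₂ := by
  have h0 := h.r0
  by_cases hx : x₁ = x₂
  · subst hx
    by_cases hy : y₁ = W.toAffine.negY x₁ y₂
    · rw [Affine.slope_of_Y_eq rfl hy, Affine.slope_of_Y_eq rfl, mul_zero]
      rw [hy, Sc_negY h]
    · have hy' : r ^ 3 * y₁ ≠ W'.toAffine.negY (r ^ 2 * x₁) (r ^ 3 * y₂) := by
        rw [Sc_negY h]
        exact fun h3 => hy (mul_left_cancel₀ (pow_ne_zero 3 h0) h3)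
      rw [Affine.slope_of_Y_ne rfl hy, Affine.slope_of_Y_ne rfl hy', Sc_negY h, h.a₁, h.a₂, h.a₄]
      have h3 : r ^ 3 * y₁ - r ^ 3 * W.toAffine.negY x₁ y₁ =
        r ^ 3 * (y₁ - W.toAffine.negY x₁ y₁) := by ring
      have h4 : 3 * (r ^ 2 * x₁) ^ 2 + 2 * (r ^ 2 * W.a₂) * (r ^ 2 * x₁) + r ^ 4 * W.a₄ -
          r * W.a₁ * (r ^ 3 * y₁) =
          r ^ 3 * (r * (3 * x₁ ^ 2 + 2 * W.a₂ * x₁ + W.a₄ - W.a₁ * y₁)) := by ring
      rw [h3, h4, mul_div_mul_left _ _ (pow_ne_zero 3 h0), mul_div_assoc]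
  · have hx' : r ^ 2 * x₁ ≠ r ^ 2 * x₂ := fun h3 => hx (mul_left_cancel₀ (pow_ne_zero 2 h0) h3)
    rw [Affine.slope_of_X_ne hx, Affine.slope_of_X_ne hx']
    have h3 : r ^ 3 * y₁ - r ^ 3 * y₂ = r ^ 2 * (r * (y₁ - y₂)) := by ring
    rw [h3, ← mul_sub, mul_div_mul_left _ _ (pow_ne_zero 2 h0), mul_div_assoc]

theorem Sc_addX (h : Sc_rel W W' r) (x₁ x₂ l : F) :
    W'.toAffine.addX (r ^ 2 * x₁) (r ^ 2 * x₂) (r * l) = r ^ 2 * W.toAffine.addX x₁ x₂ l := by
  rw [Affine.addX, Affine.addX, h.a₁, h.a₂]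
  ring

theorem Sc_addY (h : Sc_rel W W' r) (x₁ x₂ y₁ l : F) :
    W'.toAffine.addY (r ^ 2 * x₁) (r ^ 2 * x₂) (r ^ 3 * y₁) (r * l) =
      r ^ 3 * W.toAffine.addY x₁ x₂ y₁ l := by
  rw [Affine.addY, Affine.addY, Affine.negAddY, Affine.negAddY, Sc_addX h, ← Sc_negY h]
  congr 1
  ring

/-- The map on points. -/
noncomputable def Sc_ph (h : Sc_rel W W' r) : W.toAffine.Point →+ W'.toAffine.Point where
  toFun := Sc_fun h
  map_zero' := rfl
  map_add' := by
    have h0 := h.r0
    rintro (_ | ⟨x₁, y₁, h₁⟩) (_ | ⟨x₂, y₂, h₂⟩)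
    any_goals rfl
    by_cases hxy : x₁ = x₂ ∧ y₁ = W.toAffine.negY x₂ y₂
    · rw [Affine.Point.add_of_Y_eq hxy.left hxy.right]
      change _ = Affine.Point.some (r ^ 2 * x₁) (r ^ 3 * y₁) _ +
        Affine.Point.some (r ^ 2 * x₂) (r ^ 3 * y₂) _
      rw [Affine.Point.add_of_Y_eq (by rw [hxy.left]) (by
        rw [hxy.right, Sc_negY h])]
      rfl
    · rw [Affine.Point.add_some hxy]
      change Affine.Point.some (r ^ 2 * _) (r ^ 3 * _) _ =
        Affine.Point.some (r ^ 2 * x₁) (r ^ 3 * y₁) _ + Affine.Point.some (r ^ 2 * x₂) (r ^ 3 * y₂) _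
      rw [Affine.Point.add_some (fun h' => hxy ⟨mul_left_cancel₀ (pow_ne_zero 2 h0) h'.1,
        mul_left_cancel₀ (pow_ne_zero 3 h0) (by rw [← Sc_negY h]; exact h'.2)⟩)]
      rw [Affine.Point.some.injEq]
      constructor
      · rw [Sc_slope h, Sc_addX h]
      · rw [Sc_slope h, Sc_addY h]

theorem Sc_some (h : Sc_rel W W' r) {x y : F} (hxy : W.toAffine.Nonsingular x y) :
    Sc_ph h (.some x y hxy) = .some (r ^ 2 * x) (r ^ 3 * y) (Sc_nons h hxy) := rfl

theorem Sc_inv (h : Sc_rel W W' r) {s : F} (h' : Sc_rel W' W s) (hs : s * r = 1)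
    (P : W.toAffine.Point) : Sc_ph h' (Sc_ph h P) = P := by
  rcases P with _ | ⟨x, y, hxy⟩
  · rfl
  · rw [Sc_some, Sc_some, Affine.Point.some.injEq]
    constructor
    · linear_combination x * (s * r + 1) * hs
    · linear_combination y * (s ^ 2 * r ^ 2 + s * r + 1) * hs

theorem Sc_pm (h : Sc_rel W W' r) {V V' : WeierstrassCurve F'} {s : F'} (h' : Sc_rel V V' s)
    {φ : F →+* F'} (hV : W.map φ = V) (hV' : W'.map φ = V') (hs : φ r = s)
    (P : W.toAffine.Point) : pm φ hV' (Sc_ph h P) = Sc_ph h' (pm φ hV P) := by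
  rcases P with _ | ⟨x, y, hxy⟩
  · rfl
  · rw [Sc_some, pm_some, pm_some, Sc_some, Affine.Point.some.injEq]
    constructor
    · rw [map_mul, map_pow, hs]
    · rw [map_mul, map_pow, hs]

end Sc_aux

open WeierstrassCurve Pool.Agent.H10 in
theorem Sc_sha {L : Type} [Field L] [NumberField L] {W W' : WeierstrassCurve L} {r : L}
    (h : Sc_rel W W' r) (H : Sha2Trivial L W) : Sha2Trivial L W' := by
  intro f hf hl hm
  have hs := h.symm
  have hr0 := h.r0
  have u : Sc_rel (W.baseChange (AlgebraicClosure L)) (W'.baseChange (AlgebraicClosure L))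
    (algebraMap L (AlgebraicClosure L) r) := h.map _
  have d : Sc_rel (W'.baseChange (AlgebraicClosure L)) (W.baseChange (AlgebraicClosure L))
    (algebraMap L (AlgebraicClosure L) r⁻¹) := hs.map _
  have hinv : algebraMap L (AlgebraicClosure L) r * algebraMap L (AlgebraicClosure L) r⁻¹ = 1 := by
    rw [← map_mul, mul_inv_cancel₀ hr0, map_one]
  -- equivariance
  have hda : ∀ (σ : AlgebraicClosure L ≃ₐ[L] AlgebraicClosure L)
      (P : (W'.baseChange (AlgebraicClosure L)).toAffine.Point),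
      act (inv_bc L W) σ (Sc_ph d P) = Sc_ph d (act (inv_bc L W') σ P) := fun σ P =>
    Sc_pm d d _ _ (σ.commutes _) P
  have hua : ∀ (σ : AlgebraicClosure L ≃ₐ[L] AlgebraicClosure L)
      (P : (W.baseChange (AlgebraicClosure L)).toAffine.Point),
      act (inv_bc L W') σ (Sc_ph u P) = Sc_ph u (act (inv_bc L W) σ P) := fun σ P =>
    Sc_pm u u _ _ (σ.commutes _) P
  set g := fun σ => Sc_ph d (f σ) with hg
  rw [Pool.Agent.H10.isCocycle_iff] at hf
  have h1 : IsCocycle L W g := by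
    rw [Pool.Agent.H10.isCocycle_iff]
    refine ⟨hf.1.comp _, fun σ τ => ?_⟩
    change Sc_ph d (f (σ * τ)) = Sc_ph d (f σ) + act (inv_bc L W) σ (Sc_ph d (f τ))
    rw [hf.2, map_add, hda]
  have h2 : IsLocTriv L W g := by
    rw [Pool.Agent.H10.isLocTriv_iff] at hl ⊢
    refine ⟨fun v ι => ?_, fun v ι => ?_⟩
    · obtain ⟨P, hP⟩ := hl.1 v ι
      have dF : Sc_rel (W'.baseChange (AlgebraicClosure (v.adicCompletion L)))
        (W.baseChange (AlgebraicClosure (v.adicCompletion L)))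
        (algebraMap L (AlgebraicClosure (v.adicCompletion L)) r⁻¹) := hs.map _
      refine ⟨Sc_ph dF P, fun τ σ hτ => ?_⟩
      have h3 := hP τ σ hτ
      have h4 : pm (ι : AlgebraicClosure L →+* AlgebraicClosure (v.adicCompletion L)) (map_bc W ι)
          (Sc_ph d (f σ)) = Sc_ph dF (pm (ι : AlgebraicClosure L →+* _) (map_bc W' ι) (f σ)) :=
        Sc_pm d dF (map_bc W' ι) (map_bc W ι) (ι.commutes _) _
      have h5 : act (inv_bc' W) τ (Sc_ph dF P) = Sc_ph dF (act (inv_bc' W') τ P) := by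
        refine Sc_pm dF dF _ _ ?_ P
        change τ (algebraMap L (AlgebraicClosure (v.adicCompletion L)) r⁻¹) = _
        rw [IsScalarTower.algebraMap_apply L (v.adicCompletion L)]
        exact τ.commutes _
      change pm (ι : AlgebraicClosure L →+* AlgebraicClosure (v.adicCompletion L)) (map_bc W ι)
          (Sc_ph d (f σ)) = _
      rw [h4, h3, h5, map_sub]
    · obtain ⟨P, hP⟩ := hl.2 v ι
      have dF : Sc_rel (W'.baseChange (AlgebraicClosure v.Completion))
        (W.baseChange (AlgebraicClosure v.Completion))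
        (algebraMap L (AlgebraicClosure v.Completion) r⁻¹) := hs.map _
      refine ⟨Sc_ph dF P, fun τ σ hτ => ?_⟩
      have h3 := hP τ σ hτ
      have h4 : pm (ι : AlgebraicClosure L →+* AlgebraicClosure v.Completion) (map_bc W ι)
          (Sc_ph d (f σ)) = Sc_ph dF (pm (ι : AlgebraicClosure L →+* _) (map_bc W' ι) (f σ)) :=
        Sc_pm d dF (map_bc W' ι) (map_bc W ι) (ι.commutes _) _
      have h5 : act (inv_bc' W) τ (Sc_ph dF P) = Sc_ph dF (act (inv_bc' W') τ P) := by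
        refine Sc_pm dF dF _ _ ?_ P
        change τ (algebraMap L (AlgebraicClosure v.Completion) r⁻¹) = _
        rw [IsScalarTower.algebraMap_apply L v.Completion]
        exact τ.commutes _
      change pm (ι : AlgebraicClosure L →+* AlgebraicClosure v.Completion) (map_bc W ι)
          (Sc_ph d (f σ)) = _
      rw [h4, h3, h5, map_sub]
  have h3 : ∃ m : ℕ, IsCobound L W (fun σ => (2 ^ m) • g σ) := by
    obtain ⟨m, hm⟩ := hm
    refine ⟨m, ?_⟩
    rw [Pool.Agent.H10.isCobound_iff] at hm ⊢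
    obtain ⟨Q, hQ⟩ := hm
    refine ⟨Sc_ph d Q, fun σ => ?_⟩
    have h4 : (2 ^ m) • g σ = Sc_ph d ((2 ^ m) • f σ) := (map_nsmul (Sc_ph d) _ _).symm
    have h5 : (2 ^ m) • f σ = act (inv_bc L W') σ Q - Q := hQ σ
    change (2 ^ m) • g σ = _
    rw [h4, h5, map_sub, hda]
  have h4 := H g h1 h2 h3
  rw [Pool.Agent.H10.isCobound_iff] at h4 ⊢
  obtain ⟨Q, hQ⟩ := h4
  refine ⟨Sc_ph u Q, fun σ => ?_⟩
  have h5 : Sc_ph u (g σ) = f σ := Sc_inv d u hinv (f σ)
  rw [← h5, hQ, map_sub, hua]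

theorem triv_scale {L : Type} [Field L] [NumberField L] {A B r : L} (hr : r ≠ 0)
    (h : Triv L A B) : Triv L (r ^ 2 * A) (r ^ 4 * B) := by
  have hrel : Sc_rel (⟨0, A, 0, B, 0⟩ : WeierstrassCurve L) ⟨0, r ^ 2 * A, 0, r ^ 4 * B, 0⟩ r :=
    ⟨hr, by simp, rfl, by simp, rfl, by simp⟩
  refine ⟨Sc_sha hrel h.1, ?_⟩
  haveI := h.2
  refine Finite.of_injective (Sc_ph hrel.symm) fun P Q hPQ => ?_
  have h1 := Sc_inv hrel.symm hrel (mul_inv_cancel₀ hr) P
  have h2 := Sc_inv hrel.symm hrel (mul_inv_cancel₀ hr) Q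
  rw [← h1, ← h2, hPQ]

end H38T1
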