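import Pool.Agent.H38.T1.Tw2
import Pool.Agent.H38.T1.La
import Pool.Agent.H10.TT.Com
import Pool.Agent.H10.TT.Up

/-!
Block T (helper10): the tower.
-/

set_option autoImplicit false
set_option linter.style.haveILetI false
open scoped Classical

open WithZero NumberField IsDedekindDomain H38RT H73IS H5SW H10TT

namespace H38T1

theorem tower_p (p : ℕ) [Fact p.Prime] (hp2 : p ≠ 2) {a b : ℤ} (hab : Hyp a b) :
    ∃ j₀ : ℕ, ∀ j : ℕ, j₀ ≤ j →
      ∀ (K : Type) [Field K] [NumberField K], IsR p K →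
      (∃ m s : ℕ, Module.finrank ℚ K = p ^ j * m ∧ Odd m ∧ p - 1 = m * 2 ^ s) →
      ∀ n : ℤ, n % 2 = 1 → RPos (a * n) (b * n ^ 2) →
      (∀ l : ℕ, l.Prime → (l : ℤ) ∣ n → ¬ (l : ℤ) ∣ b * (a ^ 2 - 4 * b) →
        ¬ p ^ (j + 2) ∣ l ^ (p - 1) - 1) → Both K a b n →
      ∀ (L : Type) [Field L] [NumberField L], IsR p L → Odd (Module.finrank ℚ L) →
        Both L a b n := by
  have hp := (Fact.out : p.Prime)
  have hb0 : b ≠ 0 := by
    rintro rfl
    exact hab.nb ⟨0, by ring⟩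
  have hd0 : a ^ 2 - 4 * b ≠ 0 := by
    intro h
    exact hab.nD (by rw [h]; exact ⟨0, by ring⟩)
  obtain ⟨k0, hk0⟩ := sinnott (p := p) hp2
  have hDz : 2 * (b * (a ^ 2 - 4 * b)) ≠ 0 := mul_ne_zero two_ne_zero (mul_ne_zero hb0 hd0)
  have hD : (2 * (b * (a ^ 2 - 4 * b))).natAbs ≠ 0 := Int.natAbs_ne_zero.mpr hDz
  obtain ⟨T, hT⟩ := exists_val_bound (p := p) hD
  refine ⟨k0 + T + 1, ?_⟩
  rintro j hj K _ _ hK ⟨m, s, hKd, hm, hpm⟩ n hn hRP hJ ⟨h1, h2⟩ L _ _ hLr hLo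
  have hpK : p ^ j ∣ Module.finrank ℚ K := by
    rw [hKd]
    exact Dvd.intro _ rfl
  have hjK : j ≤ padicValNat p (Module.finrank ℚ K) :=
    (padicValNat_dvd_iff_le (Module.finrank_pos.ne')).mp hpK
  obtain ⟨L', _, _, _, _, hL'r, hLL', i, hi⟩ := common hp2 hm hpm hK hKd hLr hLo
  have hn0 : n ≠ 0 := by
    rintro rfl
    simp at hn
  have hodd : Odd (Module.finrank K L') := by
    rw [hi]
    exact (hp.odd_of_ne_two hp2).pow
  have hB0 : b * n ^ 2 ≠ 0 := mul_ne_zero hb0 (pow_ne_zero 2 hn0)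
  have eD : (a * n) ^ 2 - 4 * (b * n ^ 2) = (a ^ 2 - 4 * b) * n ^ 2 := by ring
  have hD0 : (a * n) ^ 2 - 4 * (b * n ^ 2) ≠ 0 := by
    rw [eD]
    exact mul_ne_zero hd0 (pow_ne_zero 2 hn0)
  have hDD : 2 * (b * n ^ 2) * ((a * n) ^ 2 - 4 * (b * n ^ 2)) ≠ 0 :=
    mul_ne_zero (mul_ne_zero two_ne_zero hB0) hD0
  have hT' : ∀ q : ℕ, q.Prime →
      q ∣ (2 * (b * n ^ 2) * ((a * n) ^ 2 - 4 * (b * n ^ 2))).natAbs → q ≠ p →
      ¬ p ^ ((j + 1) + 1) ∣ q ^ (p - 1) - 1 := by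
    intro q hq hqD hqp
    have hq' : Prime (q : ℤ) := Nat.prime_iff_prime_int.1 hq
    have hbig : (q : ℤ) ∣ 2 * (b * (a ^ 2 - 4 * b)) → ¬ p ^ ((j + 1) + 1) ∣ q ^ (p - 1) - 1 := by
      intro h3 h4
      exact hT q hq (Int.natCast_dvd.1 h3) hqp ((pow_dvd_pow p (by omega)).trans h4)
    by_cases h3 : (q : ℤ) ∣ 2 * (b * (a ^ 2 - 4 * b))
    · exact hbig h3
    · have h4 : (q : ℤ) ∣ n := by
        have h5 : (q : ℤ) ∣ 2 * (b * n ^ 2) * ((a * n) ^ 2 - 4 * (b * n ^ 2)) :=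
          Int.natCast_dvd.2 hqD
        have h6 : 2 * (b * n ^ 2) * ((a * n) ^ 2 - 4 * (b * n ^ 2)) =
            2 * (b * (a ^ 2 - 4 * b)) * n ^ 4 := by ring
        rw [h6] at h5
        rcases hq'.dvd_or_dvd h5 with h7 | h7
        · exact absurd h7 h3
        · exact hq'.dvd_of_dvd_pow h7
      exact hJ q hq h4 fun h5 => h3 (h5.mul_left 2)
  obtain ⟨g, R1, R2, hbad, hunr, h3⟩ := layer (K := K) (L := L') (T := j + 1) hp2 hk0 hDD hT'
    hL'r hi (by omega) (by omega) (by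
      intro h3
      right
      subst h3
      exact (dvd_pow_self 3 (by omega)).trans hpK)
  have hodd' : (a * n) % 2 = 1 := by
    have ha : a % 2 = 1 := by have := hab.a4; omega
    rw [Int.mul_emod, ha, hn]
    rfl
  have hSm : ¬ Small (a * n) (b * n ^ 2) := by
    intro h
    have := h.1
    omega
  obtain ⟨H, H'⟩ := nq_two (K := K) (L := L') (a := a * n) (b := b * n ^ 2) (a₀ := a * n)
    (b₀ := b * n ^ 2) (i := 0) hodd R1 R2 hB0 hD0 (by ring) (by ring)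
    (fun h => by have := h.1; omega) (iff_of_true hRP hSm) hbad hunr h3
  rw [← eD] at h2
  obtain ⟨g1, g2⟩ := both_up (K := K) (L := L') hodd hB0 hD0 H H' h1 h2
  constructor
  · apply descend (K₀ := L) (K := L') hLL'
    rwa [map_intCast, map_intCast]
  · rw [← eD]
    apply descend (K₀ := L) (K := L') hLL'
    rwa [map_intCast, map_intCast]

end H38T1
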