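import Pool.Agent.H38.T1.Mz
import Pool.Agent.H38.T1.La
import Pool.Agent.H38.T1.Na
import Pool.Agent.H38.T1.Ca
import Pool.Agent.H38.T1.Tb
import Pool.Agent.H38.T1.Ka
import Pool.Agent.H38.T1.Sc
import Pool.Agent.H38.T1.Fw

/-!
Final assembly (helper38).
-/

set_option autoImplicit false
set_option linter.unusedSectionVars false
open scoped Classical

open WithZero NumberField IsDedekindDomain H38RT H73IS

namespace H38T1

lemma sq_or_of_mem {K : Type} [Field K] {d B t : K} (hd : d ≠ 0) (hB : B ≠ 0)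
    (h : sc d ∈ ({0, sc B} : Set (SC K))) : IsSquare d ∨ IsSquare (d * (B * t ^ 2)) := by
  rcases h with h | h
  · exact Or.inl ((sc_eq_zero hd).1 h)
  · rw [Set.mem_singleton_iff] at h
    right
    have h1 : sc (d * B) = 0 := by
      rw [sc_mul hd hB, h]
      exact (two_nsmul (sc B)).symm.trans (SC.two_smul _)
    obtain ⟨s, hs⟩ := (sc_eq_zero (mul_ne_zero hd hB)).1 h1
    exact ⟨s * t, by rw [← mul_assoc, hs]; ring⟩

lemma odd_of_twist {a b n : ℤ} {Pp Pp' : Finset ℕ} {τ : Bool} (hT : TwistOK a b n Pp Pp' τ) :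
    n % 2 = 1 := by
  have h2 := hT.two
  by_contra hcon
  have : n % 2 = 0 := by omega
  obtain ⟨m, rfl⟩ := Int.dvd_of_emod_eq_zero this
  have : a * (2 * m) = 2 * (a * m) := by ring
  omega

theorem both_of_twist {K : Type} [Field K] [NumberField K] [IsGalois ℚ K]
    (hodd : Odd (Module.finrank ℚ K)) {a b : ℤ} (hab : Hyp a b) {Pp Pp' : Finset ℕ} {τ : Bool}
    (hdj : Disjoint Pp Pp') (hX : XX (LDof K a b Pp Pp' τ) ⊆ {0, sc ((b : ℤ) : K)})
    (hX' : XX' (LDof K a b Pp Pp' τ) ⊆ {0, sc ((a ^ 2 - 4 * b : ℤ) : K)}) {n : ℤ}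
    (hT : TwistOK a b n Pp Pp' τ) : Both K a b n := by
  have hodd2 := odd_of_twist hT
  have hn0 : n ≠ 0 := by
    rintro rfl
    simp at hodd2
  have hnK : (n : K) ≠ 0 := Int.cast_ne_zero.2 hn0
  have hbK : ((b : ℤ) : K) ≠ 0 := Int.cast_ne_zero.2 hab.ne.1
  have hDK : ((a ^ 2 - 4 * b : ℤ) : K) ≠ 0 := Int.cast_ne_zero.2 hab.ne.2
  have e1 : ((b * n ^ 2 : ℤ) : K) = ((b : ℤ) : K) * (n : K) ^ 2 := by push_cast; ring
  have e2 : (((a ^ 2 - 4 * b) * n ^ 2 : ℤ) : K) = ((a ^ 2 - 4 * b : ℤ) : K) * (n : K) ^ 2 := by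
    push_cast; ring
  have e3 : ((a * n : ℤ) : K) ^ 2 - 4 * ((b * n ^ 2 : ℤ) : K) =
      (((a ^ 2 - 4 * b) * n ^ 2 : ℤ) : K) := by
    push_cast; ring
  have e4 : -2 * ((a * n : ℤ) : K) = ((-2 * (a * n) : ℤ) : K) := by push_cast; ring
  have hfin := concl (K := K) (A := ((a * n : ℤ) : K)) (B := ((b * n ^ 2 : ℤ) : K))
    (by rw [e1]; exact mul_ne_zero hbK (pow_ne_zero 2 hnK))
    (by rw [e3, e2]; exact mul_ne_zero hDK (pow_ne_zero 2 hnK))
    (fun d hd hf hi => by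
      rw [e1]
      exact sq_or_of_mem hd hbK (hX (loc_X hodd hab hdj hT hd hf hi)))
    (fun d hd hf hi => by
      rw [e3] at hf hi ⊢
      rw [e4] at hf hi
      rw [e2]
      exact sq_or_of_mem hd hDK (hX' (loc_X' hodd hab hdj hT hd hf hi)))
  rw [e3, e4] at hfin
  exact hfin

theorem both_scale {K : Type} [Field K] [NumberField K] {a b n n' s : ℤ} (hs : s ≠ 0)
    (h : n = n' * s ^ 2) (H : Both K a b n') : Both K a b n := by
  have hsK : (s : K) ≠ 0 := Int.cast_ne_zero.2 hs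
  constructor
  · have := triv_scale hsK H.1
    convert this using 1
    · rw [h]; push_cast; ring
    · rw [h]; push_cast; ring
  · have := triv_scale hsK H.2
    convert this using 1
    · rw [h]; push_cast; ring
    · rw [h]; push_cast; ring

/-- The twists over a Galois extension of odd degree. -/
theorem twists (K : Type) [Field K] [NumberField K] [IsGalois ℚ K]
    (hodd : Odd (Module.finrank ℚ K)) {a b : ℤ} (hab : Hyp a b) {J : ℕ → Prop} (hJ : Adm K J)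
    (N : ℕ) : ∃ n : ℤ, N < n.natAbs ∧ Squarefree n ∧ n % 2 = 1 ∧
      (∀ l : ℕ, l.Prime → (l : ℤ) ∣ n → ¬ (l : ℤ) ∣ b * (a ^ 2 - 4 * b) → J l) ∧
      ((a ^ 2 < 4 * b ∨ (0 < b ∧ 0 < a ∧ IsCoprime a b)) → RPos (a * n) (b * n ^ 2)) ∧
      ∀ d : ℕ, Free a b J d → Both K a b (n * d) := by
  obtain ⟨τ, hτ, h0, h1, hn⟩ := exists_n hab
  obtain ⟨Pp, Pp', hdj, hP, hP', hc, hX, hX'⟩ := main_sel hodd hab hJ τ h0 h1
  obtain ⟨n, hnN, hT, hn2⟩ := hn J hJ.dir Pp Pp' hdj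
    (fun l hl => ⟨(hP l hl).1, (hP l hl).2.1, (hP l hl).2.2.1, (hP l hl).2.2.2.1⟩)
    (fun l hl => ⟨(hP' l hl).1, (hP' l hl).2.1, (hP' l hl).2.2.1, (hP' l hl).2.2.2.1⟩) hc N
  have hn0 : n ≠ 0 := by
    rintro rfl
    have := odd_of_twist hT
    simp at this
  have hn2p : 0 < n ^ 2 := by positivity
  refine ⟨n, hnN, hT.sqf, odd_of_twist hT, ?_, fun h => ?_, fun d hd => ?_⟩
  · intro l hl hln hlD
    by_cases h3 : l ∈ Pp
    · exact (hP l h3).2.2.2.2
    by_cases h4 : l ∈ Pp'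
    · exact (hP' l h4).2.2.2.2
    exact hn2 l hl hln hlD h3 h4
  · rcases hT.t0 (hτ h) with h3 | ⟨h3, _, h4⟩
    · left
      nlinarith
    · right
      exact ⟨mul_pos h3 hn2p, h4⟩
  · obtain ⟨n', s, hs, he, hT'⟩ := twist_free hab hT hd
    exact both_scale hs he (both_of_twist hodd hab hdj hX hX' hT')

/-- The fields of the conclusion: the subfields of `K₀` and the layers of odd degree. -/
def Fld (S : Finset ℕ) (K₀ : Type) [Field K₀] [NumberField K₀] (L : Type) [Field L]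
    [NumberField L] : Prop :=
  Nonempty (L →+* K₀) ∨ ∃ p ∈ S, H5SW.IsR p L ∧ Odd (Module.finrank ℚ L)

/-- One twist for all subfields of `K₀` and all layers for the primes in `S`. -/
theorem final_free {a b : ℤ} (hab : Hyp a b) (S : Finset ℕ) (hS : ∀ p ∈ S, p.Prime ∧ p ≠ 2)
    (hneg : S.Nonempty → a ^ 2 < 4 * b ∨ (0 < b ∧ 0 < a ∧ IsCoprime a b)) (K₀ : Type) [Field K₀] [NumberField K₀] [IsGalois ℚ K₀]
    (h₀ : Odd (Module.finrank ℚ K₀)) (j₁ : ℕ) : ∃ (j : ℕ) (J : ℕ → Prop), j₁ ≤ j ∧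
    (∀ l : ℕ, l.Prime → (∀ p ∈ S, ¬ p ^ (j + 2) ∣ l ^ (p - 1) - 1) → J l) ∧
    ∀ N : ℕ, ∃ n : ℤ, N < n.natAbs ∧ Squarefree n ∧ ∀ d : ℕ, Free a b J d →
      ∀ (L : Type) [Field L] [NumberField L], Fld S K₀ L → Both L a b (n * d) := by
  -- the level
  have hj : ∃ j₀ : ℕ, ∀ p ∈ S, ∀ j : ℕ, j₀ ≤ j →
      ∀ (K : Type) [Field K] [NumberField K], IsLay p j K → ∀ n : ℤ, n % 2 = 1 →
      RPos (a * n) (b * n ^ 2) → (∀ l : ℕ, l.Prime → (l : ℤ) ∣ n → ¬ (l : ℤ) ∣ b * (a ^ 2 - 4 * b) →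
        ¬ p ^ (j + 2) ∣ l ^ (p - 1) - 1) → Both K a b n →
      ∀ (L : Type) [Field L] [NumberField L], H5SW.IsR p L → Odd (Module.finrank ℚ L) →
        Both L a b n := by
    have h1 : ∀ p ∈ S, ∃ j₀ : ℕ, ∀ j : ℕ, j₀ ≤ j →
        ∀ (K : Type) [Field K] [NumberField K], IsLay p j K → ∀ n : ℤ, n % 2 = 1 →
        RPos (a * n) (b * n ^ 2) → (∀ l : ℕ, l.Prime → (l : ℤ) ∣ n → ¬ (l : ℤ) ∣ b * (a ^ 2 - 4 * b) →
          ¬ p ^ (j + 2) ∣ l ^ (p - 1) - 1) → Both K a b n →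
        ∀ (L : Type) [Field L] [NumberField L], H5SW.IsR p L → Odd (Module.finrank ℚ L) →
          Both L a b n := by
      intro p hp
      have hF : Fact p.Prime := ⟨(hS p hp).1⟩
      obtain ⟨j₀, hj₀⟩ := tower_p p (hS p hp).2 hab
      exact ⟨j₀, fun j hj K _ _ hK => hj₀ j hj K hK.1 hK.2⟩
    choose! f hf using h1
    refine ⟨S.sup f, fun p hp j hj => hf p hp j (le_trans (Finset.le_sup hp) hj)⟩
  obtain ⟨j₀, hj₀⟩ := hj
  obtain ⟨j, hjj, K, K', _, _, _, _, _, _, _, hodd', ⟨φ₀⟩, hKp, t, ht⟩ := exists_KS K₀ h₀ S hS (max j₀ j₁)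
  have hodd : Odd (Module.finrank ℚ K) := by
    have h1 := Module.finrank_mul_finrank ℚ K K'
    rw [← h1] at hodd'
    exact (Nat.odd_mul.1 hodd').1
  refine ⟨j, fun l => ∀ p ∈ S, ¬ p ^ (j + 2) ∣ l ^ (p - 1) - 1, (le_max_right _ _).trans hjj,
    fun l _ h => h, fun N => ?_⟩
  have hJ : Adm K (fun l => ∀ p ∈ S, ¬ p ^ (j + 2) ∣ l ^ (p - 1) - 1) := by
    refine adm_gen K K' hodd' t ?_ ?_
    · rintro l hl ⟨w, hw, hw2⟩ p hp hdvd
      exact ht p hp l hl.1 hdvd w hw hw2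
    · intro M hM hMo c hc
      refine (dir_S S hS M hM hMo c hc).mono ?_
      rintro l ⟨h1, h2, h3⟩
      exact ⟨h1, h2, fun p hp hd => h3 p hp ((pow_dvd_pow p (by omega)).trans hd)⟩
  obtain ⟨n, hN, hs, hn2, hJn, hR, hfr⟩ := twists K hodd hab hJ N
  refine ⟨n, hN, hs, fun d hd => ?_⟩
  obtain ⟨h1, h2⟩ := hfr d hd
  have hsub : ∀ (L : Type) [Field L] [NumberField L], Nonempty (L →+* K) →
      Both L a b (n * d) := by
    intro L _ _ ⟨φ⟩
    let _ : Algebra L K := φ.toAlgebra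
    have hL : Odd (Module.finrank L K) := by
      have := Module.finrank_mul_finrank ℚ L K
      rw [← this] at hodd
      exact (Nat.odd_mul.1 hodd).2
    constructor
    · apply descend hL
      rwa [map_intCast, map_intCast]
    · apply descend hL
      rwa [map_intCast, map_intCast]
  intro L _ _ hL
  rcases hL with hψ | ⟨p, hp, hL, hLo⟩
  · obtain ⟨ψ⟩ := hψ
    exact hsub L ⟨φ₀.comp ψ⟩
  · obtain ⟨Kp, _, _, hlay, hemb⟩ := hKp p hp
    refine hj₀ p hp j ((le_max_left _ _).trans hjj) Kp hlay (n * d) ?_ ?_ ?_ (hsub Kp hemb) L hL hLo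
    · have hd2 : (d : ℤ) % 2 = 1 := by
        have := hd.one
        omega
      rw [Int.mul_emod, hn2, hd2]
      rfl
    · have hd0 : (0 : ℤ) < d := by
        have := hd.one
        omega
      have hd2 : (0 : ℤ) < (d : ℤ) ^ 2 := by positivity
      rcases hR (hneg ⟨p, hp⟩) with h3 | ⟨h3, h4⟩
      · left
        have e1 : (a * (n * d)) ^ 2 = (a * n) ^ 2 * (d : ℤ) ^ 2 := by ring
        have e2 : 4 * (b * (n * d) ^ 2) = 4 * (b * n ^ 2) * (d : ℤ) ^ 2 := by ring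
        rw [e1, e2]
        exact mul_lt_mul_of_pos_right h3 hd2
      · right
        refine ⟨?_, ?_⟩
        · have e2 : b * (n * d) ^ 2 = b * n ^ 2 * (d : ℤ) ^ 2 := by ring
          rw [e2]
          exact mul_pos h3 hd2
        · have e1 : a * (n * d) = (a * n) * (d : ℤ) := by ring
          rw [e1]
          exact mul_neg_of_neg_of_pos h4 hd0
    · intro l hl hln hlD
      have hl' : Prime (l : ℤ) := Nat.prime_iff_prime_int.1 hl
      rcases hl'.dvd_or_dvd hln with h | h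
      · exact hJn l hl h hlD p hp
      · exact (hd.pr l hl (Int.natCast_dvd_natCast.1 h)).2.2.2 p hp

end H38T1
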