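import Pool.Agent.H38.T1.Tw2

/-!
Row Sq. (about 130 lines): reduction to twist-minimal coefficients.
reduce: strong induction on a.natAbs (a <> 0 as a is odd). If there is a prime q with q | a and q^2 | b: q is odd, a = q a1, b = q^2 b1, |a1| < |a|; b1 = 4^(k+2) b2 with b2 odd (q^2 is prime to 4^(k+2), divides b0 * 4^(k+2), so divides b0); b1, a1^2 - 4 b1 = D/q^2, b1 (a1^2 - 4 b1) = b D/q^4 are not squares
 (otherwise b = q^2 b1 etc. would be); apply the induction hypothesis and multiply m by q. Otherwise Hyp holds up to the sign: a % 4 = 1: m = 1; a % 4 = 3: m = -1, a' = -a (conditions in b unchanged, q | -a iff q | a).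
sqf_part: Nat.sq_mul_squarefree for (m n').natAbs, put the sign into n. (Int.squarefree_natAbs, Int.natAbs_eq.)
sqf_inj: x, y squarefree, x s^2 = y t^2, s, t <> 0: x and y have the same sign and natAbs; for each prime the valuations of x and y are 0 or 1 and congruent modulo two, so equal. (Or: x y is a square (x y s^2 = (y t)^2), two squarefree integers of the same sign whose product is a square are equal: x | y: for a prime p | x, p | y.)
-/

set_option autoImplicit false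
set_option linter.unusedSectionVars false
open scoped Classical

open WithZero NumberField IsDedekindDomain H38RT

namespace H38T1

theorem Sq_aux (n : ℕ) : ∀ {a b : ℤ}, a.natAbs = n → a % 2 = 1 →
    (∃ (k : ℕ) (b₀ : ℤ), b = 4 ^ (k + 2) * b₀ ∧ b₀ % 2 = 1) →
    ¬ IsSquare b → ¬ IsSquare (a ^ 2 - 4 * b) → ¬ IsSquare (b * (a ^ 2 - 4 * b)) →
    ∃ m a' b' : ℤ, m ≠ 0 ∧ a = m * a' ∧ b = m ^ 2 * b' ∧ Hyp a' b' := by
  induction n using Nat.strong_induction_on with
  | _ n ih =>
    intro a b hn ha hb nb nD nbD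
    by_cases hq : ∃ q : ℕ, q.Prime ∧ (q : ℤ) ∣ a ∧ (q : ℤ) ^ 2 ∣ b
    · obtain ⟨q, hqp, ⟨a1, ha1⟩, ⟨b1, hb1⟩⟩ := hq
      have hq0 : (q : ℤ) ≠ 0 := by exact_mod_cast hqp.ne_zero
      have hq2 : q ≠ 2 := by
        rintro rfl
        rw [ha1] at ha
        push_cast at ha
        omega
      have ha1o : a1 % 2 = 1 := by
        rcases Int.emod_two_eq_zero_or_one a1 with h | h
        · exfalso
          rw [ha1, Int.mul_emod, h, mul_zero] at ha
          simp at ha
        · exact h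
      have ha10 : a1.natAbs ≠ 0 := by omega
      have hlt : a1.natAbs < n := by
        rw [← hn, ha1, Int.natAbs_mul, Int.natAbs_natCast]
        have h1 := hqp.two_le
        have h2 : 0 < a1.natAbs := Nat.pos_of_ne_zero ha10
        nlinarith
      obtain ⟨k, b₀, hk, hb₀⟩ := hb
      have hcop : IsCoprime ((q : ℤ) ^ 2) ((4 : ℤ) ^ (k + 2)) := by
        apply IsCoprime.pow
        rw [Int.isCoprime_iff_gcd_eq_one]
        have h4 : Nat.Coprime q 4 := by
          have h2 : Nat.Coprime q 2 := (Nat.coprime_primes hqp Nat.prime_two).2 hq2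
          exact Nat.Coprime.pow_right 2 h2
        exact_mod_cast h4
      have hdvd : (q : ℤ) ^ 2 ∣ b₀ := by
        refine hcop.dvd_of_dvd_mul_left ?_
        rw [← hk, hb1]
        exact dvd_mul_right _ _
      obtain ⟨b2, hb2⟩ := hdvd
      have hb1' : b1 = 4 ^ (k + 2) * b2 := by
        have h1 : (q : ℤ) ^ 2 * b1 = (q : ℤ) ^ 2 * (4 ^ (k + 2) * b2) := by
          rw [← hb1, hk, hb2]
          ring
        exact mul_left_cancel₀ (pow_ne_zero 2 hq0) h1
      have hb2o : b2 % 2 = 1 := by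
        rcases Int.emod_two_eq_zero_or_one b2 with h | h
        · exfalso
          rw [hb2, Int.mul_emod, h, mul_zero] at hb₀
          simp at hb₀
        · exact h
      have hsq : IsSquare ((q : ℤ) ^ 2) := IsSquare.sq (q : ℤ)
      have nb1 : ¬ IsSquare b1 := fun h => nb (by rw [hb1]; exact hsq.mul h)
      have nD1 : ¬ IsSquare (a1 ^ 2 - 4 * b1) := fun h => nD (by
        have e : a ^ 2 - 4 * b = (q : ℤ) ^ 2 * (a1 ^ 2 - 4 * b1) := by
          rw [ha1, hb1]
          ring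
        rw [e]
        exact hsq.mul h)
      have nbD1 : ¬ IsSquare (b1 * (a1 ^ 2 - 4 * b1)) := fun h => nbD (by
        have e : b * (a ^ 2 - 4 * b) = ((q : ℤ) ^ 2) ^ 2 * (b1 * (a1 ^ 2 - 4 * b1)) := by
          rw [ha1, hb1]
          ring
        rw [e]
        exact (IsSquare.sq ((q : ℤ) ^ 2)).mul h)
      obtain ⟨m, a', b', hm, h1, h2, h3⟩ := ih a1.natAbs hlt (a := a1) (b := b1) rfl ha1o
        ⟨k, b2, hb1', hb2o⟩ nb1 nD1 nbD1
      refine ⟨q * m, a', b', mul_ne_zero hq0 hm, ?_, ?_, h3⟩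
      · rw [ha1, h1]
        ring
      · rw [hb1, h2]
        ring
    · push Not at hq
      have h4 : a % 4 = 1 ∨ a % 4 = 3 := by omega
      rcases h4 with h4 | h4
      · refine ⟨1, a, b, one_ne_zero, by ring, by ring, ⟨h4, hb, nb, nD, nbD, ?_⟩⟩
        intro q hqp hqa
        exact hq q hqp hqa
      · refine ⟨-1, -a, b, by norm_num, by ring, by ring, ⟨by omega, hb, nb, ?_, ?_, ?_⟩⟩
        · rw [neg_sq]
          exact nD
        · rw [neg_sq]
          exact nbD
        · intro q hqp hqa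
          exact hq q hqp ((dvd_neg).1 hqa)

theorem reduce {a b : ℤ} (ha : a % 2 = 1) (hb : ∃ (k : ℕ) (b₀ : ℤ), b = 4 ^ (k + 2) * b₀ ∧ b₀ % 2 = 1)
    (nb : ¬ IsSquare b) (nD : ¬ IsSquare (a ^ 2 - 4 * b)) (nbD : ¬ IsSquare (b * (a ^ 2 - 4 * b))) :
    ∃ m a' b' : ℤ, m ≠ 0 ∧ a = m * a' ∧ b = m ^ 2 * b' ∧ Hyp a' b' :=
  Sq_aux a.natAbs rfl ha hb nb nD nbD

theorem sqf_part {m : ℤ} (hm : m ≠ 0) : ∃ n s : ℤ, Squarefree n ∧ s ≠ 0 ∧ m = n * s ^ 2 := by
  obtain ⟨a, b, hab, hsq⟩ := Nat.sq_mul_squarefree m.natAbs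
  have hb : (b : ℤ) ≠ 0 := by
    intro h
    have h1 : b = 0 := by exact_mod_cast h
    rw [h1] at hab
    simp at hab
    exact hm (Int.natAbs_eq_zero.1 (by omega))
  have habz : (b : ℤ) ^ 2 * a = (m.natAbs : ℤ) := by exact_mod_cast hab
  rcases Int.natAbs_eq m with h | h
  · refine ⟨a, b, ?_, hb, ?_⟩
    · rw [← Int.squarefree_natAbs, Int.natAbs_natCast]
      exact hsq
    · rw [h, ← habz]
      ring
  · refine ⟨-a, b, ?_, hb, ?_⟩
    · rw [← Int.squarefree_natAbs, Int.natAbs_neg, Int.natAbs_natCast]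
      exact hsq
    · rw [h, ← habz]
      ring

theorem sqf_inj {x y s t : ℤ} (hx : Squarefree x) (hy : Squarefree y) (hs : s ≠ 0) (ht : t ≠ 0)
    (h : x * s ^ 2 = y * t ^ 2) : x = y := by
  have hx0 : x ≠ 0 := hx.ne_zero
  have h1 : s ^ 2 ∣ (y * t) ^ 2 := ⟨x * y, by
    calc (y * t) ^ 2 = y * (y * t ^ 2) := by ring
      _ = s ^ 2 * (x * y) := by rw [← h]; ring⟩
  obtain ⟨w, hw⟩ := (Int.pow_dvd_pow_iff two_ne_zero).1 h1
  have h2 : x * y = w ^ 2 := by
    have h3 : s ^ 2 * (x * y) = s ^ 2 * w ^ 2 := by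
      calc s ^ 2 * (x * y) = y * (x * s ^ 2) := by ring
        _ = (y * t) ^ 2 := by rw [h]; ring
        _ = s ^ 2 * w ^ 2 := by rw [hw]; ring
    exact mul_left_cancel₀ (pow_ne_zero 2 hs) h3
  have h3 : x ∣ w := (hx.dvd_pow_iff_dvd two_ne_zero).1
    ⟨y, h2.symm⟩
  obtain ⟨v, hv⟩ := h3
  have h4 : y = x * (v * v) := by
    have h5 : x * y = x * (x * (v * v)) := by
      rw [h2, hv]
      ring
    exact mul_left_cancel₀ hx0 h5
  have h5 : IsUnit v := hy v ⟨x, by rw [h4]; ring⟩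
  rcases Int.isUnit_iff.1 h5 with h6 | h6
  · rw [h4, h6]
    ring
  · rw [h4, h6]
    ring

end H38T1
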