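import Pool.Agent.H38.T1.Fin
import Pool.Agent.H38.T1.Sq

/-!
Reduction to twist-minimal coefficients (helper38).
-/

set_option autoImplicit false
set_option linter.unusedSectionVars false
open scoped Classical

open WithZero NumberField IsDedekindDomain H38RT H73IS

namespace H38T1

theorem both_change {K : Type} [Field K] [NumberField K] {a b a' b' m n n' s : ℤ} (hm : m ≠ 0)
    (hs : s ≠ 0) (ha : a = m * a') (hb : b = m ^ 2 * b') (h : m * n' = n * s ^ 2)
    (H : Both K a' b' n') : Both K a b n := by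
  have hsK : (s : K) ≠ 0 := Int.cast_ne_zero.2 hs
  have hmK : (m : K) ≠ 0 := Int.cast_ne_zero.2 hm
  have hr : (m : K) / s ≠ 0 := div_ne_zero hmK hsK
  have hK : (m : K) * n' = n * s ^ 2 := by exact_mod_cast h
  have hn : ((m : K) * n) = n' * ((m : K) / s) ^ 2 := by
    rw [div_pow, ← mul_div_assoc, eq_div_iff (pow_ne_zero 2 hsK)]
    linear_combination (-(m : K)) * hK
  constructor
  · have := triv_scale hr H.1
    convert this using 1
    · rw [ha]
      push_cast
      linear_combination (a' : K) * hn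
    · rw [hb]
      push_cast
      linear_combination (b' : K) * ((m : K) * n + n' * ((m : K) / s) ^ 2) * hn
  · have := triv_scale hr H.2
    convert this using 1
    · rw [ha]
      push_cast
      linear_combination (-2 * a' : K) * hn
    · rw [ha, hb]
      push_cast
      linear_combination ((a' : K) ^ 2 - 4 * b') * ((m : K) * n + n' * ((m : K) / s) ^ 2) * hn

theorem final_gen {a b : ℤ} (ha : a % 2 = 1)
    (hb : ∃ (k : ℕ) (b₀ : ℤ), b = 4 ^ (k + 2) * b₀ ∧ b₀ % 2 = 1) (nb : ¬ IsSquare b)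
    (nD : ¬ IsSquare (a ^ 2 - 4 * b)) (nbD : ¬ IsSquare (b * (a ^ 2 - 4 * b)))
    (S : Finset ℕ) (hS : ∀ p ∈ S, p.Prime ∧ p ≠ 2)
    (hneg : S.Nonempty → a ^ 2 < 4 * b ∨ (0 < b ∧ IsCoprime a b ∧ |a| % 4 = 1))
    (K₀ : Type) [Field K₀] [NumberField K₀] [IsGalois ℚ K₀] (h₀ : Odd (Module.finrank ℚ K₀))
    (j₁ : ℕ) :
    ∃ (a' b' : ℤ) (j : ℕ) (J : ℕ → Prop), Hyp a' b' ∧ j₁ ≤ j ∧
      (∀ l : ℕ, l.Prime → (∀ p ∈ S, ¬ p ^ (j + 2) ∣ l ^ (p - 1) - 1) → J l) ∧
      ∃ n : ℤ, Squarefree n ∧ ∀ d : ℕ, Free a' b' J d →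
        ∀ (L : Type) [Field L] [NumberField L], Fld S K₀ L → Both L a b (n * d) := by
  obtain ⟨m, a', b', hm, ea, eb, hab⟩ := reduce ha hb nb nD nbD
  have hm2 : 0 < m ^ 2 := by positivity
  have hneg' : S.Nonempty → a' ^ 2 < 4 * b' ∨ (0 < b' ∧ 0 < a' ∧ IsCoprime a' b') := by
    intro h
    rcases hneg h with h1 | ⟨h1, h2, h3⟩
    · left
      rw [ea, eb] at h1
      have e1 : (m * a') ^ 2 = m ^ 2 * a' ^ 2 := by ring
      have e2 : 4 * (m ^ 2 * b') = m ^ 2 * (4 * b') := by ring
      rw [e1, e2] at h1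
      exact lt_of_mul_lt_mul_left h1 hm2.le
    · right
      have hu : IsUnit m := h2.isUnit_of_dvd' ⟨a', ea⟩ ⟨m * b', by rw [eb]; ring⟩
      have hm1 : m = 1 ∨ m = -1 := Int.isUnit_iff.1 hu
      have hb' : b = b' := by rcases hm1 with rfl | rfl <;> rw [eb] <;> ring
      have ha4 := hab.a4
      refine ⟨hb' ▸ h1, ?_, ?_⟩
      · rcases hm1 with rfl | rfl
        · rw [one_mul] at ea
          subst ea
          rcases abs_cases a with ⟨h5, h6⟩ | ⟨h5, h6⟩
          · rcases h6.lt_or_eq with h7 | h7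
            · exact h7
            · rw [← h7] at ha4
              simp at ha4
          · rw [h5] at h3
            omega
        · have h8 : a = -a' := by rw [ea]; ring
          rw [h8, abs_neg] at h3
          rcases abs_cases a' with ⟨h5, h6⟩ | ⟨h5, h6⟩
          · rcases h6.lt_or_eq with h7 | h7
            · exact h7
            · rw [← h7] at ha4
              simp at ha4
          · rw [h5] at h3
            omega
      · rw [← hb']
        rcases hm1 with rfl | rfl
        · rw [one_mul] at ea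
          rwa [← ea]
        · have h8 : a = -a' := by rw [ea]; ring
          rw [h8] at h2
          exact (IsCoprime.neg_left_iff a' b).1 h2
  obtain ⟨j, J, hj, hJ, hn⟩ := final_free hab S hS hneg' K₀ h₀ j₁
  obtain ⟨n', -, hn's, hn'⟩ := hn 0
  have hmn : m * n' ≠ 0 := mul_ne_zero hm hn's.ne_zero
  obtain ⟨n, s, hns, hs, he⟩ := sqf_part hmn
  refine ⟨a', b', j, J, hab, hj, hJ, n, hns, fun d hd L _ _ hL => ?_⟩
  refine both_change hm hs ea eb ?_ (hn' d hd L hL)
  linear_combination (d : ℤ) * he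

end H38T1
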