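import Pool.Agent.H38.T1.Df

/-!
Row Mc. (about 150 lines): functionals on a vector space over F_2 and an injective choice of primes.
exists_fun1: if D = 0 take W = 0, otherwise pass to V / <D>: images of b and z are nonzero. If they are equal take a functional with value 1 on it; otherwise they are linearly independent (F_2) and there is a functional with value 1 on both
 (Module.exists_dual_forall_apply / LinearIndependent.extend, Basis.constr; or exists_le_ker...). Any other proof is fine (for instance: functionals f with f b = 1 etc. from Module.forall_dual_apply_eq_zero_iff or Submodule.exists_le_ker_of_notMem, then combine).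
exists_fun2: if D in X take phi. Otherwise there is psi with psi = 0 on X and psi D = 1 (Submodule.exists_le_ker_of_notMem / separating functional; X is a ZMod 2-subspace: AddSubgroup.toZModSubmodule), and Phi = phi + (1 + phi D) psi.
choose_inj: induction on T.
-/

set_option autoImplicit false
set_option linter.unusedSectionVars false
open scoped Classical

open WithZero NumberField IsDedekindDomain H38RT

namespace H38T1

theorem Mc_zmod (a : ZMod 2) (h : a ≠ 0) : a = 1 := by
  revert a
  decide

theorem Mc_sep {V : Type*} [AddCommGroup V] [Module (ZMod 2) V] {b D : V} (hb : b ≠ 0) (hbD : b ≠ D) :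
    ∃ f : V →ₗ[ZMod 2] ZMod 2, f D = 0 ∧ f b = 1 := by
  have h1 : b ∉ Submodule.span (ZMod 2) {D} := by
    intro h
    obtain ⟨a, ha⟩ := Submodule.mem_span_singleton.1 h
    by_cases h0 : a = 0
    · rw [h0, zero_smul] at ha
      exact hb ha.symm
    · rw [Mc_zmod a h0, one_smul] at ha
      exact hbD ha.symm
  obtain ⟨f, hf, hle⟩ := Submodule.exists_le_ker_of_notMem h1
  refine ⟨f, ?_, Mc_zmod _ hf⟩
  have h2 : D ∈ LinearMap.ker f := hle (Submodule.mem_span_singleton_self D)
  exact LinearMap.mem_ker.1 h2

theorem exists_fun1 {V : Type*} [AddCommGroup V] [Module (ZMod 2) V] {b D z : V} (hb : b ≠ 0)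
    (hbD : b ≠ D) (hz : z ≠ 0) (hzD : z ≠ D) : ∃ Φ : V →+ ZMod 2, Φ D = 0 ∧ Φ b = 1 ∧ Φ z = 1 := by
  obtain ⟨f, hfD, hfb⟩ := Mc_sep hb hbD
  obtain ⟨g, hgD, hgz⟩ := Mc_sep hz hzD
  by_cases h1 : f z = 0
  · by_cases h2 : g b = 0
    · refine ⟨(f + g).toAddMonoidHom, ?_, ?_, ?_⟩
      · show (f + g) D = 0
        rw [LinearMap.add_apply, hfD, hgD, add_zero]
      · show (f + g) b = 1
        rw [LinearMap.add_apply, hfb, h2, add_zero]
      · show (f + g) z = 1
        rw [LinearMap.add_apply, h1, hgz, zero_add]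
    · exact ⟨g.toAddMonoidHom, hgD, Mc_zmod _ h2, hgz⟩
  · exact ⟨f.toAddMonoidHom, hfD, hfb, Mc_zmod _ h1⟩

theorem exists_fun2 {V : Type*} [AddCommGroup V] [Module (ZMod 2) V] (X : AddSubgroup V) {D : V}
    (φ : V →+ ZMod 2) (hD : D ∈ X → φ D = 1) :
    ∃ Φ : V →+ ZMod 2, (∀ x ∈ X, Φ x = φ x) ∧ Φ D = 1 := by
  by_cases h1 : φ D = 0
  · have h2 : D ∉ AddSubgroup.toZModSubmodule 2 X := by
      intro h
      have h3 : D ∈ X := h
      have h4 := hD h3
      rw [h1] at h4
      exact absurd h4 (by decide)
    obtain ⟨f, hf, hle⟩ := Submodule.exists_le_ker_of_notMem h2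
    refine ⟨φ + f.toAddMonoidHom, ?_, ?_⟩
    · intro x hx
      have h5 : x ∈ LinearMap.ker f := hle (show x ∈ AddSubgroup.toZModSubmodule 2 X from hx)
      have h6 : f x = 0 := LinearMap.mem_ker.1 h5
      show φ x + f x = φ x
      rw [h6, add_zero]
    · show φ D + f D = 1
      rw [h1, Mc_zmod _ hf, zero_add]
  · exact ⟨φ, fun x _ => rfl, Mc_zmod _ h1⟩

theorem choose_inj {ι : Type*} (T : Finset ι) (A : ι → Set ℕ) (hA : ∀ i ∈ T, (A i).Infinite)
    (F : Finset ℕ) : ∃ f : ι → ℕ, Set.InjOn f (T : Set ι) ∧ ∀ i ∈ T, f i ∈ A i ∧ f i ∉ F := by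
  induction T using Finset.induction_on with
  | empty => exact ⟨fun _ => 0, by simp, by simp⟩
  | insert i T hi ih =>
    obtain ⟨f, hf1, hf2⟩ := ih (fun j hj => hA j (Finset.mem_insert_of_mem hj))
    obtain ⟨a, ha, haF⟩ := (hA i (Finset.mem_insert_self i T)).exists_notMem_finset (F ∪ T.image f)
    rw [Finset.mem_union, not_or] at haF
    have hne : ∀ j ∈ T, j ≠ i := fun j hj e => hi (e ▸ hj)
    have hup : ∀ j ∈ T, Function.update f i a j = f j := fun j hj => Function.update_of_ne (hne j hj) _ _
    refine ⟨Function.update f i a, ?_, ?_⟩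
    · intro x hx y hy hxy
      rw [Finset.mem_coe, Finset.mem_insert] at hx hy
      rcases hx with rfl | hx
      · rcases hy with rfl | hy
        · rfl
        · rw [Function.update_self, hup y hy] at hxy
          exact absurd (Finset.mem_image.2 ⟨y, hy, hxy.symm⟩) haF.2
      · rcases hy with rfl | hy
        · rw [Function.update_self, hup x hx] at hxy
          exact absurd (Finset.mem_image.2 ⟨x, hx, hxy⟩) haF.2
        · rw [hup x hx, hup y hy] at hxy
          exact hf1 hx hy hxy
    · intro j hj
      rw [Finset.mem_insert] at hj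
      rcases hj with rfl | hj
      · rw [Function.update_self]
        exact ⟨ha, haF.1⟩
      · rw [hup j hj]
        exact hf2 j hj

end H38T1
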