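import Pool.Agent.H38.T1.Fr
import Pool.Agent.H38.T1.Mc

/-!
Row Fx. (about 150 lines): the free integers are infinite in number and closed under multiplication modulo squares.
free_mul: g = gcd d d', d = g d1, d' = g d1', d'' = d1 d1', s = g (as d d' = d'' g^2). Squarefree, primes clear. d'' g^2 = d d' = 1 mod 8, g odd. q: d'' g^2 is a square mod q, g prime to q (a prime dividing d does not divide 2 b D0).
free_one: d = 1.
free_pair: two different primes l, l' of the same class modulo 8 M (M = product of the odd primes dividing b D0) which are neutral and in J: d = l l'. l l' = l^2 = 1 mod 8, and l l' = l^2 mod q.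
exists_neutral_class (hypothesis hc): there is a class c modulo 8 M, prime to it, all of whose primes are neutral. free_inf: by hdir there are infinitely many primes in J of the class c; the products l0 l for l0 fixed and l varying.
(In the statement hc is a hypothesis: it is proved elsewhere.)
-/

set_option autoImplicit false
set_option linter.unusedSectionVars false
open scoped Classical

open WithZero NumberField IsDedekindDomain H38RT

namespace H38T1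

private lemma Fx_sq8 {g : ℕ} (hg : g % 2 = 1) : g ^ 2 % 8 = 1 := by
  have h : g % 8 = 1 ∨ g % 8 = 3 ∨ g % 8 = 5 ∨ g % 8 = 7 := by omega
  rcases h with h | h | h | h <;> simp [pow_succ, Nat.mul_mod, h]

theorem free_mul {a b : ℤ} (hab : Hyp a b) {J : ℕ → Prop} {d d' : ℕ} (hd : Free a b J d)
    (hd' : Free a b J d') : ∃ d'' s : ℕ, s ≠ 0 ∧ d * d' = d'' * s ^ 2 ∧ Free a b J d'' := by
  have hd0 : d ≠ 0 := hd.sqf.ne_zero
  obtain ⟨g, hg⟩ : ∃ g, g = Nat.gcd d d' := ⟨_, rfl⟩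
  have hg0 : 0 < g := by
    rw [hg]
    exact Nat.gcd_pos_of_pos_left _ (Nat.pos_of_ne_zero hd0)
  obtain ⟨d1, h1⟩ : g ∣ d := hg ▸ Nat.gcd_dvd_left d d'
  obtain ⟨d2, h2⟩ : g ∣ d' := hg ▸ Nat.gcd_dvd_right d d'
  have hco : Nat.Coprime d1 d2 := by
    have h3 : Nat.gcd (g * d1) (g * d2) = g := by rw [← h1, ← h2, ← hg]
    rw [Nat.gcd_mul_left] at h3
    exact Nat.eq_of_mul_eq_mul_left hg0 (by rw [h3, mul_one])
  have heq : d * d' = d1 * d2 * g ^ 2 := by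
    rw [h1, h2]
    ring
  have hgd : g ∣ d := ⟨d1, h1⟩
  have hgodd : g % 2 = 1 := by
    by_contra hc
    have h3 : 2 ∣ g := by omega
    have h4 : 2 ∣ d := h3.trans hgd
    have := hd.one
    omega
  refine ⟨d1 * d2, g, hg0.ne', heq, ?_, ?_, ?_, ?_⟩
  · rw [Nat.squarefree_mul hco]
    exact ⟨hd.sqf.squarefree_of_dvd ⟨g, by rw [h1, mul_comm]⟩,
      hd'.sqf.squarefree_of_dvd ⟨g, by rw [h2, mul_comm]⟩⟩
  · have h3 : (d * d') % 8 = 1 := by
      rw [Nat.mul_mod, hd.one, hd'.one]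
    rw [heq, Nat.mul_mod, Fx_sq8 hgodd, mul_one, Nat.mod_mod] at h3
    exact h3
  · intro l hl hld
    rcases (Nat.Prime.dvd_mul hl).mp hld with h | h
    · exact hd.pr l hl (h.trans ⟨g, by rw [h1, mul_comm]⟩)
    · exact hd'.pr l hl (h.trans ⟨g, by rw [h2, mul_comm]⟩)
  · intro q hq hq2 hqb
    obtain ⟨t, ht⟩ := hd.loc q hq hq2 hqb
    obtain ⟨t', ht'⟩ := hd'.loc q hq hq2 hqb
    have hqg : ¬ q ∣ g := by
      intro h
      apply (hd.pr q hq (h.trans hgd)).1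
      exact Dvd.dvd.mul_left hqb 2
    have hcop : IsCoprime (g : ℤ) (q : ℤ) := by
      rw [Nat.isCoprime_iff_coprime, Nat.coprime_comm, Nat.Prime.coprime_iff_not_dvd hq]
      exact hqg
    obtain ⟨u, v, huv⟩ := hcop
    have h3 : (q : ℤ) ∣ (d : ℤ) * d' - (t * t') ^ 2 := by
      have h4 : (d : ℤ) * d' - (t * t') ^ 2 = ((d : ℤ) - t ^ 2) * d' + t ^ 2 * ((d' : ℤ) - t' ^ 2) := by
        ring
      rw [h4]
      exact dvd_add (Dvd.dvd.mul_right ht _) (Dvd.dvd.mul_left ht' _)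
    have h5 : ((d : ℤ) * d') = ((d1 * d2 : ℕ) : ℤ) * (g : ℤ) ^ 2 := by
      exact_mod_cast heq
    refine ⟨t * t' * u, ?_⟩
    have h6 : (q : ℤ) ∣ (g : ℤ) * u - 1 := ⟨-v, by linear_combination huv⟩
    have h7 : ((d1 * d2 : ℕ) : ℤ) - (t * t' * u) ^ 2 =
        u ^ 2 * ((d : ℤ) * d' - (t * t') ^ 2) -
          ((d1 * d2 : ℕ) : ℤ) * ((g : ℤ) * u + 1) * ((g : ℤ) * u - 1) := by
      rw [h5]
      ring
    rw [h7]
    exact dvd_sub (Dvd.dvd.mul_left h3 _) (Dvd.dvd.mul_left h6 _)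

theorem free_one (a b : ℤ) (J : ℕ → Prop) : Free a b J 1 := by
  refine ⟨squarefree_one, rfl, ?_, ?_⟩
  · intro l hl hl1
    exact absurd (Nat.dvd_one.mp hl1) hl.ne_one
  · intro q _ _ _
    exact ⟨1, by norm_num⟩

theorem free_inf {a b : ℤ} (hab : Hyp a b) {J : ℕ → Prop} {M c : ℕ} (hM : Odd M)
    (hMq : ∀ q : ℕ, q.Prime → q ≠ 2 → (q : ℤ) ∣ b * (a ^ 2 - 4 * b) → q ∣ M)
    (hc : {l : ℕ | l.Prime ∧ l ≡ c [MOD 8 * M] ∧ J l}.Infinite)
    (hn : ∀ l : ℕ, l.Prime → l ≡ c [MOD 8 * M] → ¬ (l : ℤ) ∣ 2 * (b * (a ^ 2 - 4 * b)) ∧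
      ¬ SqMod l b ∧ ¬ SqMod l (a ^ 2 - 4 * b)) : {d : ℕ | Free a b J d}.Infinite := by
  obtain ⟨l0, hl0, hl0c, hl0J⟩ := hc.nonempty
  have hinf : ({l : ℕ | l.Prime ∧ l ≡ c [MOD 8 * M] ∧ J l} \ {l0}).Infinite :=
    hc.sdiff (Set.finite_singleton l0)
  have himg : ((fun l => l0 * l) '' ({l : ℕ | l.Prime ∧ l ≡ c [MOD 8 * M] ∧ J l} \ {l0})).Infinite := by
    apply hinf.image
    intro x _ y _ hxy
    exact Nat.eq_of_mul_eq_mul_left hl0.pos hxy
  refine himg.mono ?_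
  rintro _ ⟨l, ⟨⟨hl, hlc, hlJ⟩, hne⟩, rfl⟩
  have hne' : l0 ≠ l := fun h => hne (Set.mem_singleton_iff.mpr h.symm)
  have hll : l0 ≡ l [MOD 8 * M] := hl0c.trans hlc.symm
  have h8 : l0 ≡ l [MOD 8] := hll.of_mul_right M
  have hl0odd : l0 % 2 = 1 := by
    rcases hl0.eq_two_or_odd with h | h
    · exfalso
      apply (hn l0 hl0 hl0c).1
      rw [h]
      exact ⟨_, rfl⟩
    · exact h
  refine ⟨?_, ?_, ?_, ?_⟩
  · change Squarefree (l0 * l)
    rw [Nat.squarefree_mul ((Nat.coprime_primes hl0 hl).mpr hne')]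
    exact ⟨hl0.prime.squarefree, hl.prime.squarefree⟩
  · change (l0 * l) % 8 = 1
    have h3 : l0 * l ≡ l0 * l0 [MOD 8] := Nat.ModEq.mul_left _ h8.symm
    rw [h3, ← sq]
    exact Fx_sq8 hl0odd
  · intro p hp hpd
    rcases (Nat.Prime.dvd_mul hp).mp hpd with h | h
    · have h4 := (Nat.prime_dvd_prime_iff_eq hp hl0).mp h
      subst h4
      have := hn p hp hl0c
      exact ⟨this.1, this.2.1, this.2.2, hl0J⟩
    · have h4 := (Nat.prime_dvd_prime_iff_eq hp hl).mp h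
      subst h4
      have := hn p hp hlc
      exact ⟨this.1, this.2.1, this.2.2, hlJ⟩
  · intro q hq hq2 hqb
    have hqM : q ∣ 8 * M := Dvd.dvd.mul_left (hMq q hq hq2 hqb) 8
    have h3 : l0 ≡ l [MOD q] := hll.of_dvd hqM
    refine ⟨(l0 : ℤ), ?_⟩
    have h4 : (q : ℤ) ∣ (l : ℤ) - (l0 : ℤ) := (Nat.modEq_iff_dvd.mp h3)
    have h5 : ((l0 * l : ℕ) : ℤ) - (l0 : ℤ) ^ 2 = (l0 : ℤ) * ((l : ℤ) - (l0 : ℤ)) := by
      push_cast
      ring
    change (q : ℤ) ∣ ((l0 * l : ℕ) : ℤ) - (l0 : ℤ) ^ 2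
    rw [h5]
    exact Dvd.dvd.mul_left h4 _

end H38T1
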