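import Mathlib

/-!
Row Gc. (about 170 lines): square classes of Q_p and the infinity of the subset of D of the elements which are squares in Q_p for p in P.
sq_close: Hensel (hensels_lemma, Mathlib.NumberTheory.Padics.Hensel) for F = X^2 - C x at a = 1: |F(1)| = |1 - x| < |2|^2 = |F'(1)|^2. (For p odd |2| = 1, for p = 2 it is 1/2; the hypothesis p^3 | u' - u below gives |u'/u - 1| <= p^-3 < |2|^2 in all cases.)
sq_class: d = p^v u with p not dividing u (d nonzero; Nat.exists_eq_pow_mul_and_not_dvd or v = padicValNat, u = d / p^v). Class c d = (v mod 2, u mod p^3) in Fin 2 x ZMod (p^3), a finite type. If c d = c d' then d d' = p^(v+v') u u' with v + v' even and u u' = u^2 (u'/u) with u'/u = 1 + (u'-u)/u a square in Z_p.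
sub_inf: by sq_class for each p in P the product of the class maps maps D to a finite type (choose for p in P a finite type; e.g. the type (p : P) -> N p); an infinite set has an infinite fibre (Set.Infinite.exists_... / Finite.exists_infinite_fiber / by contradiction: D would be a finite union of finite sets). Fix d0 in it (d0 is in D); for d in the fibre choose d'' in D, s with d0 d = d'' s^2; d'' = d0 d / s^2 is a square in Q_p for all p in P. d -> d'' is injective on the fibre: d0 d1 = d'' s1^2 and d0 d2 = d'' s2^2 give d1 s2^2 = d2 s1^2 with d1, d2 squarefree, so d1 = d2 (Sq.lean of this directory has sqf_inj for integers; or Nat.sq_mul_squarefree uniqueness). Elements of D are nonzero (squarefree).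
-/

set_option autoImplicit false
set_option linter.unusedSectionVars false
open scoped Classical


namespace H38T1

theorem sq_close {p : ℕ} [Fact p.Prime] {x : ℤ_[p]} (h : ‖x - 1‖ < ‖(2 : ℤ_[p])‖ ^ 2) :
    IsSquare x := by
  have h1 : Polynomial.aeval (1 : ℤ_[p]) (Polynomial.X ^ 2 - Polynomial.C x) = 1 - x := by
    simp
  have h2 : Polynomial.aeval (1 : ℤ_[p]) (Polynomial.derivative (Polynomial.X ^ 2 - Polynomial.C x)) =
      (2 : ℤ_[p]) := by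
    rw [Polynomial.derivative_sub, Polynomial.derivative_X_pow, Polynomial.derivative_C]
    simp
  have h3 : ‖Polynomial.aeval (1 : ℤ_[p]) (Polynomial.X ^ 2 - Polynomial.C x)‖ <
      ‖Polynomial.aeval (1 : ℤ_[p]) (Polynomial.derivative
        (Polynomial.X ^ 2 - Polynomial.C x))‖ ^ 2 := by
    rw [h1, h2, norm_sub_rev]
    exact h
  obtain ⟨z, hz, _⟩ := hensels_lemma h3
  refine ⟨z, ?_⟩
  rw [map_sub, map_pow, Polynomial.aeval_X, Polynomial.aeval_C] at hz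
  have h4 : z ^ 2 = x := sub_eq_zero.1 hz
  rw [← h4, pow_two]

theorem Gc_two (p : ℕ) [Fact p.Prime] : (p : ℝ) ^ (-(3 : ℕ) : ℤ) < ‖(2 : ℤ_[p])‖ ^ 2 := by
  have hp := Fact.out (p := p.Prime)
  have hp1 : (1 : ℝ) < p := by exact_mod_cast hp.one_lt
  have h1 : ¬ ‖((2 : ℤ) : ℤ_[p])‖ ≤ (p : ℝ) ^ (-((2 : ℕ) : ℤ)) := by
    rw [PadicInt.norm_int_le_pow_iff_dvd]
    intro h
    have h2 : (p : ℤ) ^ 2 ≤ 2 := Int.le_of_dvd (by norm_num) h
    have h3 : (2 : ℤ) ≤ p := by exact_mod_cast hp.two_le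
    nlinarith
  rw [PadicInt.norm_le_pow_iff_norm_lt_pow_add_one, not_lt] at h1
  have h2 : ((2 : ℤ) : ℤ_[p]) = 2 := by norm_num
  rw [h2] at h1
  have e1 : (-((2 : ℕ) : ℤ) + 1) = -1 := by norm_num
  rw [e1, zpow_neg_one] at h1
  have h3 : ((p : ℝ)⁻¹) ^ 2 ≤ ‖(2 : ℤ_[p])‖ ^ 2 := pow_le_pow_left₀ (by positivity) h1 2
  refine lt_of_lt_of_le ?_ h3
  have e2 : (p : ℝ) ^ (-((3 : ℕ) : ℤ)) = ((p : ℝ)⁻¹) ^ 3 := by
    rw [zpow_neg, zpow_natCast, inv_pow]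
  rw [e2]
  exact pow_lt_pow_right_of_lt_one₀ (by positivity) (inv_lt_one_of_one_lt₀ hp1) (by norm_num)

theorem Gc_unit (p : ℕ) [Fact p.Prime] (u u' : ℕ) (hu : ¬ p ∣ u)
    (h : (u : ZMod (p ^ 3)) = (u' : ZMod (p ^ 3))) :
    ∃ y : ℤ_[p], (u' : ℤ_[p]) = (u : ℤ_[p]) * (y * y) := by
  have hp := Fact.out (p := p.Prime)
  have h1 : ‖(u : ℤ_[p])‖ = 1 := by
    rw [PadicInt.norm_natCast_eq_one_iff]
    exact (Nat.Prime.coprime_iff_not_dvd hp).2 hu
  obtain ⟨U, hU⟩ := PadicInt.isUnit_iff.2 h1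
  have h2 : IsSquare ((u' : ℤ_[p]) * ((U⁻¹ : ℤ_[p]ˣ) : ℤ_[p])) := by
    apply sq_close
    refine lt_of_le_of_lt ?_ (Gc_two p)
    have e1 : (u' : ℤ_[p]) * ((U⁻¹ : ℤ_[p]ˣ) : ℤ_[p]) - 1 =
        (((u' : ℤ) - (u : ℤ) : ℤ) : ℤ_[p]) * ((U⁻¹ : ℤ_[p]ˣ) : ℤ_[p]) := by
      have e2 : (u : ℤ_[p]) * ((U⁻¹ : ℤ_[p]ˣ) : ℤ_[p]) = 1 := by
        rw [← hU, Units.mul_inv]
      push_cast
      rw [sub_mul, e2]
    have h3 : ‖((U⁻¹ : ℤ_[p]ˣ) : ℤ_[p])‖ = 1 := PadicInt.isUnit_iff.1 (U⁻¹).isUnit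
    rw [e1, norm_mul, h3, mul_one, PadicInt.norm_int_le_pow_iff_dvd]
    have h4 : ((p ^ 3 : ℕ) : ℤ) ∣ (u' : ℤ) - (u : ℤ) := by
      rw [ZMod.natCast_eq_natCast_iff] at h
      exact (Nat.modEq_iff_dvd).1 h
    push_cast at h4
    exact h4
  obtain ⟨y, hy⟩ := h2
  refine ⟨y, ?_⟩
  rw [← hy, ← hU, mul_left_comm, Units.mul_inv, mul_one]

theorem sq_class (p : ℕ) [Fact p.Prime] : ∃ (T : Type) (_ : Finite T) (c : ℕ → T),
    ∀ d d' : ℕ, d ≠ 0 → d' ≠ 0 → c d = c d' → IsSquare ((d : ℚ_[p]) * (d' : ℚ_[p])) := by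
  have hp := Fact.out (p := p.Prime)
  have hne : NeZero (p ^ 3) := ⟨pow_ne_zero _ hp.ne_zero⟩
  refine ⟨ZMod 2 × ZMod (p ^ 3), inferInstance,
    fun d => ((d.factorization p : ZMod 2), ((d / p ^ d.factorization p : ℕ) : ZMod (p ^ 3))), ?_⟩
  intro d d' hd hd' hc
  rw [Prod.mk.injEq] at hc
  obtain ⟨h1, h2⟩ := hc
  obtain ⟨y, hy⟩ := Gc_unit p _ _ (Nat.not_dvd_ordCompl hp hd) h2
  obtain ⟨w, hw⟩ : ∃ w, d.factorization p + d'.factorization p = 2 * w := by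
    rw [ZMod.natCast_eq_natCast_iff] at h1
    have h3 : d.factorization p % 2 = d'.factorization p % 2 := h1
    exact ⟨(d.factorization p + d'.factorization p) / 2, by omega⟩
  have e1 := Nat.ordProj_mul_ordCompl_eq_self d p
  have e2 := Nat.ordProj_mul_ordCompl_eq_self d' p
  obtain ⟨u, hu⟩ : ∃ u, u = d / p ^ d.factorization p := ⟨_, rfl⟩
  obtain ⟨u', hu'⟩ : ∃ u', u' = d' / p ^ d'.factorization p := ⟨_, rfl⟩
  rw [← hu, ← hu'] at hy
  rw [← hu] at e1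
  rw [← hu'] at e2
  have hyQ : (u' : ℚ_[p]) = (u : ℚ_[p]) * ((y : ℚ_[p]) * (y : ℚ_[p])) := by
    have h3 := congrArg (fun z : ℤ_[p] => (z : ℚ_[p])) hy
    simp only [PadicInt.coe_mul, PadicInt.coe_natCast] at h3
    exact h3
  refine ⟨(p : ℚ_[p]) ^ w * (u : ℚ_[p]) * (y : ℚ_[p]), ?_⟩
  have e3 : (d : ℚ_[p]) = (p : ℚ_[p]) ^ d.factorization p * u := by
    conv_lhs => rw [← e1]
    push_cast
    rfl
  have e4 : (d' : ℚ_[p]) = (p : ℚ_[p]) ^ d'.factorization p * u' := by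
    conv_lhs => rw [← e2]
    push_cast
    rfl
  have e5 : (p : ℚ_[p]) ^ d.factorization p * (p : ℚ_[p]) ^ d'.factorization p =
      (p : ℚ_[p]) ^ w * (p : ℚ_[p]) ^ w := by
    rw [← pow_add, ← pow_add, hw, two_mul]
  rw [e3, e4, hyQ]
  calc (p : ℚ_[p]) ^ d.factorization p * u * ((p : ℚ_[p]) ^ d'.factorization p *
        ((u : ℚ_[p]) * ((y : ℚ_[p]) * (y : ℚ_[p])))) =
      ((p : ℚ_[p]) ^ d.factorization p * (p : ℚ_[p]) ^ d'.factorization p) *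
        ((u : ℚ_[p]) * u * (y * y)) := by ring
    _ = _ := by
      rw [e5]
      ring

theorem Gc_sqf {a b s t : ℕ} (ha : Squarefree a) (hb : Squarefree b) (hs : s ≠ 0) (ht : t ≠ 0)
    (h : a * t ^ 2 = b * s ^ 2) : a = b := by
  refine Nat.eq_of_factorization_eq ha.ne_zero hb.ne_zero fun q => ?_
  have h1 := congrArg (fun n : ℕ => n.factorization q) h
  rw [Nat.factorization_mul ha.ne_zero (pow_ne_zero _ ht),
    Nat.factorization_mul hb.ne_zero (pow_ne_zero _ hs), Nat.factorization_pow,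
    Nat.factorization_pow] at h1
  simp only [Finsupp.add_apply, Finsupp.smul_apply, smul_eq_mul] at h1
  have h2 := Squarefree.natFactorization_le_one q ha
  have h3 := Squarefree.natFactorization_le_one q hb
  omega

theorem sub_inf {D : Set ℕ} (hinf : D.Infinite) (hs : ∀ d ∈ D, Squarefree d)
    (hmul : ∀ d ∈ D, ∀ d' ∈ D, ∃ d'' ∈ D, ∃ s : ℕ, s ≠ 0 ∧ d * d' = d'' * s ^ 2) (P : Finset ℕ) :
    {d ∈ D | ∀ (p : ℕ) [Fact p.Prime], p ∈ P → IsSquare ((d : ℕ) : ℚ_[p])}.Infinite := by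
  choose T hT c hc using fun p : {p // p ∈ P ∧ p.Prime} =>
    (@sq_class p.1 ⟨p.2.2⟩)
  have hfin : Finite {p // p ∈ P ∧ p.Prime} :=
    Finite.of_injective (fun p => (⟨p.1, p.2.1⟩ : P)) (fun a b hab => by
      apply Subtype.ext
      exact congrArg (fun z : P => (z : ℕ)) hab)
  have hDinf : Infinite D := hinf.to_subtype
  obtain ⟨y, hy⟩ := Finite.exists_infinite_fiber
    (fun (d : D) (p : {p // p ∈ P ∧ p.Prime}) => c p (d : ℕ))
  obtain ⟨d0, hd0⟩ : Nonempty ↑((fun (d : D) (p : {p // p ∈ P ∧ p.Prime}) => c p (d : ℕ)) ⁻¹' {y}) :=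
    inferInstance
  have h0ne : (d0 : ℕ) ≠ 0 := (hs d0 d0.2).ne_zero
  choose f hfD g hg0 hfg using fun d : ↑((fun (d : D) (p : {p // p ∈ P ∧ p.Prime}) =>
    c p (d : ℕ)) ⁻¹' {y}) => hmul d0 d0.2 d.1 d.1.2
  refine Set.infinite_of_injective_forall_mem (f := f) ?_ ?_
  · intro d1 d2 h12
    have e1 := hfg d1
    have e2 := hfg d2
    have h3 : (d1.1 : ℕ) * g d2 ^ 2 = (d2.1 : ℕ) * g d1 ^ 2 := by
      apply Nat.eq_of_mul_eq_mul_left (Nat.pos_of_ne_zero h0ne)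
      calc (d0 : ℕ) * ((d1.1 : ℕ) * g d2 ^ 2) = ((d0 : ℕ) * (d1.1 : ℕ)) * g d2 ^ 2 := by ring
        _ = (f d1 * g d1 ^ 2) * g d2 ^ 2 := by rw [e1]
        _ = (f d2 * g d2 ^ 2) * g d1 ^ 2 := by rw [h12]; ring
        _ = ((d0 : ℕ) * (d2.1 : ℕ)) * g d1 ^ 2 := by rw [e2]
        _ = (d0 : ℕ) * ((d2.1 : ℕ) * g d1 ^ 2) := by ring
    have h4 := Gc_sqf (hs d1.1 d1.1.2) (hs d2.1 d2.1.2) (hg0 d1) (hg0 d2) h3
    exact Subtype.ext (Subtype.ext h4)
  · intro d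
    refine ⟨hfD d, fun p _ hp => ?_⟩
    have hpp : p.Prime := Fact.out
    have h1 : c ⟨p, hp, hpp⟩ (d0 : ℕ) = c ⟨p, hp, hpp⟩ (d.1 : ℕ) := by
      have e1 : (fun (p : {p // p ∈ P ∧ p.Prime}) => c p (d0 : ℕ)) = y := hd0
      have e2 : (fun (p : {p // p ∈ P ∧ p.Prime}) => c p (d.1 : ℕ)) = y := d.2
      exact congrFun (e1.trans e2.symm) ⟨p, hp, hpp⟩
    obtain ⟨r, hr⟩ := hc ⟨p, hp, hpp⟩ d0 d.1 h0ne (hs d.1 d.1.2).ne_zero h1
    have h2 : ((f d : ℕ) : ℚ_[p]) * ((g d : ℕ) : ℚ_[p]) ^ 2 = r * r := by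
      rw [← hr]
      exact_mod_cast congrArg (fun n : ℕ => (n : ℚ_[p])) (hfg d).symm
    have h3 : ((g d : ℕ) : ℚ_[p]) ≠ 0 := by
      exact_mod_cast hg0 d
    refine ⟨r / g d, ?_⟩
    field_simp
    rw [h2]
    ring

end H38T1
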