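import Mathlib

/-!
Row Gb. (about 200 lines): a multiquadratic field which embeds in Q_l.
Let Om = PadicAlgCl l (= AlgebraicClosure of Q_[l] with its norm: PadicAlgCl.normedField, PadicAlgCl.isNonarchimedean, PadicAlgCl.norm_extends / spectralNorm_extends) and f : AlgebraicClosure Q ->a[Q] Om (IsAlgClosed.lift). For d in D, x^2 = d: d = s^2 in Q_l, so (f x)^2 = (algebraMap s)^2 and f x = +- algebraMap s is in the range R of algebraMap Q_[l] -> Om. So f maps M = adjoin Q {x | ..} into R (IntermediateField.adjoin_le_iff with the preimage of the subfield R under f, an intermediate field of Q).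
range_of: this statement. embed_padic: compose M -> R with the inverse of the isomorphism Q_[l] = R (RingEquiv.ofInjective / the algebraMap is injective).
exists_val: E = F0 sup M; A = the elements x of E with norm (f x) at most 1 (a ValuationSubring as finF_R in Pool/Agent/H93/MQ/FinF.lean: that file, lines 35-100, has the same construction with Q_[l] in place of Om); |f l| = |l| = 1/l < 1.
Finite residue field k of A: E is finite over M of degree m at most [F0 : Q] (IntermediateField.finiteDimensional_sup or: E is generated over M by a finite dimensional F0). Claim: any m+1 residues are linearly dependent over the prime field ZMod l (k has characteristic l: Algebra (ZMod l) k, ZMod.algebra). Given alpha_0 .. alpha_m in A there are c_i in M, not all zero, with sum c_i alpha_i = 0 (in E); divide by the c_k with |f c_k| maximal: all |f c_i| <= 1 and c_k = 1. As f c_i is in R (range_of), f c_i = algebraMap u with u in Z_l; there is a natural number n_i with |u - n_i| < 1 (PadicInt.zmodRepr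 or PadicInt.appr), n_k = 1 possible (or: n_k is prime to l). So sum n_i alpha_i has |f(.)| < 1, i.e. its residue is zero: a nontrivial relation sum n_i res(alpha_i) = 0 over ZMod l. Hence k is finite dimensional over ZMod l (Module.finite of bounded rank / rank_lt_aleph0), and finite (Module.finite_of_finite (ZMod l)).
Other way: E' = the intermediate field of Om / Q_[l] generated by f(F0) is finite dimensional over Q_[l] and contains f(E); its closed unit ball is compact (FiniteDimensional.proper), so it is covered by finitely many open balls of radius one; so k is finite (two elements of A with |f x - f y| < 1 have the same residue).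
-/

set_option autoImplicit false
set_option linter.unusedSectionVars false
open scoped Classical


namespace H38T1

/-- the elements whose image has norm at most one -/
private noncomputable def Gb_R {F : Type*} [Field F] {l : ℕ} [Fact l.Prime] (f : F →+* PadicAlgCl l) :
    ValuationSubring F where
  carrier := {x | ‖f x‖ ≤ 1}
  mul_mem' := by
    intro a b ha hb
    show ‖f (a * b)‖ ≤ 1
    rw [map_mul, norm_mul]
    exact mul_le_one₀ ha (norm_nonneg _) hb
  one_mem' := by
    show ‖f 1‖ ≤ 1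
    rw [map_one, norm_one]
  add_mem' := by
    intro a b ha hb
    show ‖f (a + b)‖ ≤ 1
    rw [map_add]
    exact (PadicAlgCl.isNonarchimedean l _ _).trans (max_le ha hb)
  zero_mem' := by
    show ‖f 0‖ ≤ 1
    rw [map_zero, norm_zero]
    exact zero_le_one
  neg_mem' := by
    intro a ha
    show ‖f (-a)‖ ≤ 1
    rw [map_neg, norm_neg]
    exact ha
  mem_or_inv_mem' := by
    intro x
    show ‖f x‖ ≤ 1 ∨ ‖f x⁻¹‖ ≤ 1
    rw [map_inv₀, norm_inv]
    rcases le_total ‖f x‖ 1 with h | h
    · exact Or.inl h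
    · exact Or.inr (inv_le_one_of_one_le₀ h)

private theorem Gb_lift (K : Type) [Field K] [Algebra ℚ K] [Algebra.IsAlgebraic ℚ K] (L : Type)
    [Field L] [IsAlgClosed L] [CharZero L] : Nonempty (K →+* L) :=
  ⟨(IsAlgClosed.lift (R := ℚ) (S := K) (M := L)).toRingHom⟩

private theorem Gb_mem {F : Type*} [Field F] {l : ℕ} [Fact l.Prime] (f : F →+* PadicAlgCl l) {x : F} :
    x ∈ Gb_R f ↔ ‖f x‖ ≤ 1 := Iff.rfl

private theorem Gb_lt {F : Type*} [Field F] {l : ℕ} [Fact l.Prime] (f : F →+* PadicAlgCl l) {x : F} :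
    (Gb_R f).valuation x < 1 ↔ ‖f x‖ < 1 := by
  rw [← ValuationSubring.mem_nonunits_iff, ValuationSubring.mem_nonunits_iff_or, Gb_mem, map_inv₀,
    norm_inv]
  constructor
  · rintro (rfl | h)
    · rw [map_zero, norm_zero]; exact zero_lt_one
    · by_contra hcon
      push Not at hcon
      exact h (inv_le_one_of_one_le₀ hcon)
  · intro h
    by_cases hx : x = 0
    · exact Or.inl hx
    · right
      push Not
      have hpos : 0 < ‖f x‖ := norm_pos_iff.2 ((map_ne_zero f).2 hx)
      exact (one_lt_inv₀ hpos).2 h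

private theorem Gb_fin {F : Type*} [Field F] {l : ℕ} [Fact l.Prime] (f : F →+* PadicAlgCl l)
    (E' : IntermediateField ℚ_[l] (PadicAlgCl l)) [FiniteDimensional ℚ_[l] E']
    (hf : ∀ x, f x ∈ E') : Finite (IsLocalRing.ResidueField (Gb_R f)) := by
  have hP : ProperSpace E' := FiniteDimensional.proper ℚ_[l] E'
  have hcomp : IsCompact (Metric.closedBall (0 : E') 1) := isCompact_closedBall _ _
  obtain ⟨t, -, ht, hcov⟩ := Metric.totallyBounded_iff.1 hcomp.totallyBounded 1 one_pos
    |>.imp (fun t h => (⟨trivial, h.1, h.2⟩ :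
      True ∧ t.Finite ∧ Metric.closedBall (0 : E') 1 ⊆ ⋃ y ∈ t, Metric.ball y 1))
  have hch : ∀ r : IsLocalRing.ResidueField (Gb_R f), ∃ a : Gb_R f, ∃ c : t,
      IsLocalRing.residue (Gb_R f) a = r ∧ ‖f (a : F) - ((c : E') : PadicAlgCl l)‖ < 1 := by
    intro r
    obtain ⟨a, ha⟩ := IsLocalRing.residue_surjective (R := Gb_R f) r
    have h1 : (⟨f (a : F), hf a⟩ : E') ∈ Metric.closedBall (0 : E') 1 := by
      rw [mem_closedBall_zero_iff]
      exact (Gb_mem f).1 a.2
    have h2 := hcov h1
    rw [Set.mem_iUnion₂] at h2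
    obtain ⟨c, hc, h3⟩ := h2
    refine ⟨a, ⟨c, hc⟩, ha, ?_⟩
    rw [Metric.mem_ball, dist_eq_norm] at h3
    exact h3
  choose a c hac hdist using hch
  have hinj : Function.Injective c := by
    intro r s hrs
    have h1 : ‖f (a r : F) - f (a s : F)‖ < 1 := by
      have e1 : f (a r : F) - f (a s : F) = (f (a r : F) - ((c r : E') : PadicAlgCl l)) +
          -(f (a s : F) - ((c s : E') : PadicAlgCl l)) := by
        rw [hrs]
        ring
      rw [e1]
      refine lt_of_le_of_lt (PadicAlgCl.isNonarchimedean l _ _) (max_lt (hdist r) ?_)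
      rw [norm_neg]
      exact hdist s
    have h2 : (Gb_R f).valuation ((a r - a s : Gb_R f) : F) < 1 := by
      rw [Gb_lt]
      push_cast
      rw [map_sub]
      exact h1
    have h3 : (a r - a s) ∈ IsLocalRing.maximalIdeal (Gb_R f) :=
      (ValuationSubring.valuation_lt_one_iff _ _).2 h2
    rw [← hac r, ← hac s, ← sub_eq_zero, ← map_sub]
    exact (IsLocalRing.residue_eq_zero_iff _).2 h3
  have hfin : Finite t := ht
  exact Finite.of_injective c hinj

private theorem Gb_sq {l : ℕ} [Fact l.Prime] {D : Set ℕ} (hD : ∀ d ∈ D, IsSquare ((d : ℕ) : ℚ_[l]))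
    (f : AlgebraicClosure ℚ →+* AlgebraicClosure ℚ_[l]) {x : AlgebraicClosure ℚ}
    (hx : ∃ d ∈ D, x ^ 2 = (d : AlgebraicClosure ℚ)) :
    ∃ u : ℚ_[l], algebraMap ℚ_[l] (AlgebraicClosure ℚ_[l]) u = f x := by
  obtain ⟨d, hd, hx⟩ := hx
  obtain ⟨s, hs⟩ := hD d hd
  have h1 : (f x) ^ 2 = (algebraMap ℚ_[l] (AlgebraicClosure ℚ_[l]) s) ^ 2 := by
    rw [← map_pow, hx, map_natCast, ← map_pow, sq, ← hs, map_natCast]
  rcases sq_eq_sq_iff_eq_or_eq_neg.1 h1 with h | h
  · exact ⟨s, h.symm⟩
  · exact ⟨-s, by rw [map_neg, h]⟩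

private theorem Gb_le {l : ℕ} [Fact l.Prime] (f : AlgebraicClosure ℚ →+* AlgebraicClosure ℚ_[l])
    (S : Subfield (AlgebraicClosure ℚ_[l])) (T : Set (AlgebraicClosure ℚ))
    (hT : ∀ x ∈ T, f x ∈ S) : IntermediateField.adjoin ℚ T ≤
      Subfield.toIntermediateField (S.comap f) (fun q => by
        rw [eq_ratCast]
        exact SubfieldClass.ratCast_mem (S.comap f) q) := by
  rw [IntermediateField.adjoin_le_iff]
  intro x hx
  exact hT x hx

theorem range_of {l : ℕ} [Fact l.Prime] {D : Set ℕ} (hD : ∀ d ∈ D, IsSquare ((d : ℕ) : ℚ_[l]))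
    (f : AlgebraicClosure ℚ →+* AlgebraicClosure ℚ_[l]) {x : AlgebraicClosure ℚ}
    (hx : x ∈ IntermediateField.adjoin ℚ
      {x : AlgebraicClosure ℚ | ∃ d ∈ D, x ^ 2 = (d : AlgebraicClosure ℚ)}) :
    ∃ u : ℚ_[l], algebraMap ℚ_[l] (AlgebraicClosure ℚ_[l]) u = f x := by
  have h1 := Gb_le f (algebraMap ℚ_[l] (AlgebraicClosure ℚ_[l])).fieldRange
    {x : AlgebraicClosure ℚ | ∃ d ∈ D, x ^ 2 = (d : AlgebraicClosure ℚ)}
    (fun y hy => RingHom.mem_fieldRange.2 (Gb_sq hD f hy))
  exact RingHom.mem_fieldRange.1 (h1 hx)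

theorem embed_padic {l : ℕ} [Fact l.Prime] {D : Set ℕ} (hD : ∀ d ∈ D, IsSquare ((d : ℕ) : ℚ_[l])) :
    Nonempty (IntermediateField.adjoin ℚ
      {x : AlgebraicClosure ℚ | ∃ d ∈ D, x ^ 2 = (d : AlgebraicClosure ℚ)} →+* ℚ_[l]) := by
  obtain ⟨f⟩ : Nonempty (AlgebraicClosure ℚ →+* AlgebraicClosure ℚ_[l]) :=
    @Gb_lift (AlgebraicClosure ℚ) _ (AlgebraicClosure.instAlgebra ℚ)
      (AlgebraicClosure.isAlgebraic ℚ) (AlgebraicClosure ℚ_[l]) _ _ _
  have hinj : Function.Injective (algebraMap ℚ_[l] (AlgebraicClosure ℚ_[l])) :=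
    (algebraMap ℚ_[l] (AlgebraicClosure ℚ_[l])).injective
  have hch : ∀ x : IntermediateField.adjoin ℚ
      {x : AlgebraicClosure ℚ | ∃ d ∈ D, x ^ 2 = (d : AlgebraicClosure ℚ)},
      ∃ u : ℚ_[l], algebraMap ℚ_[l] (AlgebraicClosure ℚ_[l]) u = f (x : AlgebraicClosure ℚ) :=
    fun x => range_of hD f x.2
  choose g hg using hch
  exact ⟨{ toFun := g
           map_one' := hinj (by rw [hg, map_one]; exact map_one f)
           map_mul' := fun x y => hinj (by rw [hg, map_mul, hg, hg]; exact map_mul f _ _)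
           map_zero' := hinj (by rw [hg, map_zero]; exact map_zero f)
           map_add' := fun x y => hinj (by rw [hg, map_add, hg, hg]; exact map_add f _ _) }⟩

theorem exists_val {l : ℕ} [Fact l.Prime] {D : Set ℕ} (hD : ∀ d ∈ D, IsSquare ((d : ℕ) : ℚ_[l]))
    (F₀ : IntermediateField ℚ (AlgebraicClosure ℚ)) [FiniteDimensional ℚ F₀] :
    ∃ A : ValuationSubring (F₀ ⊔ IntermediateField.adjoin ℚ
      {x : AlgebraicClosure ℚ | ∃ d ∈ D, x ^ 2 = (d : AlgebraicClosure ℚ)} :
        IntermediateField ℚ (AlgebraicClosure ℚ)),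
      Finite (IsLocalRing.ResidueField A) ∧ A.valuation (l : (F₀ ⊔ IntermediateField.adjoin ℚ
      {x : AlgebraicClosure ℚ | ∃ d ∈ D, x ^ 2 = (d : AlgebraicClosure ℚ)} :
        IntermediateField ℚ (AlgebraicClosure ℚ))) < 1 := by
  obtain ⟨f⟩ : Nonempty (AlgebraicClosure ℚ →+* AlgebraicClosure ℚ_[l]) :=
    @Gb_lift (AlgebraicClosure ℚ) _ (AlgebraicClosure.instAlgebra ℚ)
      (AlgebraicClosure.isAlgebraic ℚ) (AlgebraicClosure ℚ_[l]) _ _ _
  obtain ⟨E', hE', hF0⟩ : ∃ E' : IntermediateField ℚ_[l] (PadicAlgCl l),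
      FiniteDimensional ℚ_[l] E' ∧ ∀ x ∈ F₀, f x ∈ E' := by
    refine ⟨IntermediateField.adjoin ℚ_[l]
      (Set.range (fun i => f ((Module.finBasis ℚ F₀ i : F₀) : AlgebraicClosure ℚ))), ?_, ?_⟩
    · exact IntermediateField.finiteDimensional_adjoin
        (fun x _ => Algebra.IsIntegral.isIntegral x)
    · intro x hx
      have e1 := congrArg (fun y : F₀ => (y : AlgebraicClosure ℚ))
        ((Module.finBasis ℚ F₀).sum_repr ⟨x, hx⟩)
      have e2 : x = ∑ i, ((Module.finBasis ℚ F₀).repr ⟨x, hx⟩ i : AlgebraicClosure ℚ) *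
          ((Module.finBasis ℚ F₀ i : F₀) : AlgebraicClosure ℚ) := by
        refine Eq.trans e1.symm ?_
        push_cast
        refine Finset.sum_congr rfl (fun i _ => ?_)
        rw [Algebra.smul_def, eq_ratCast]
      rw [e2, map_sum]
      refine sum_mem (fun i _ => ?_)
      rw [map_mul, map_ratCast]
      exact mul_mem (SubfieldClass.ratCast_mem _ _) (IntermediateField.subset_adjoin _ _ ⟨i, rfl⟩)
  have hle : (F₀ ⊔ IntermediateField.adjoin ℚ
      {x : AlgebraicClosure ℚ | ∃ d ∈ D, x ^ 2 = (d : AlgebraicClosure ℚ)} :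
        IntermediateField ℚ (AlgebraicClosure ℚ)) ≤
      Subfield.toIntermediateField (E'.toSubfield.comap f) (fun q => by
        rw [eq_ratCast]
        exact SubfieldClass.ratCast_mem (E'.toSubfield.comap f) q) := by
    refine sup_le (fun x hx => hF0 x hx) ?_
    refine Gb_le f E'.toSubfield _ (fun x hx => ?_)
    obtain ⟨u, hu⟩ := Gb_sq hD f hx
    rw [← hu]
    exact E'.algebraMap_mem u
  refine ⟨Gb_R (f.comp (algebraMap (F₀ ⊔ IntermediateField.adjoin ℚ
      {x : AlgebraicClosure ℚ | ∃ d ∈ D, x ^ 2 = (d : AlgebraicClosure ℚ)} :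
        IntermediateField ℚ (AlgebraicClosure ℚ)) (AlgebraicClosure ℚ))), ?_, ?_⟩
  · exact Gb_fin _ E' (fun x => hle x.2)
  · rw [Gb_lt, map_natCast]
    have h1 : ((l : ℕ) : PadicAlgCl l) = algebraMap ℚ_[l] (PadicAlgCl l) (l : ℚ_[l]) := by
      rw [map_natCast]
    rw [h1]
    have h2 := PadicAlgCl.norm_extends l (l : ℚ_[l])
    rw [h2]
    exact Padic.norm_p_lt_one

end H38T1
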