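import Pool.Agent.H38.T1.Ga
import Pool.Agent.H38.T1.Gb
import Pool.Agent.H38.T1.Sc

/-!
Row Gd. (about 170 lines): torsion of the twist by m over the compositum E = F0 M.
M = adjoin ..; choose s in AlgebraicClosure Q with s^2 = m; F1 = F0 sup adjoin Q {s} is finite dimensional (IntermediateField.finiteDimensional_sup, s integral); E1 = F1 sup M contains E. By exists_val hD F1 for l and l' there are valuation subrings A, A' of E1 with finite residue fields and A.valuation l < 1.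
For n prime to l: A.valuation (n : E1) = 1: n is in A (natCast_mem) so at most 1; u n + v l = 1 in integers, so if it were < 1 then the valuation of 1 would be < 1. The same for an integer prime to l (hence Delta).
W1 : y^2 = x^3 + a x^2 + b x over E1: Integral (coefficients are integers), Delta = 16 b^2 (a^2 - 4b) is an integer prime to l; IsElliptic since Delta is nonzero. tors_of_two (l <> l'): the torsion points of W1 are finite in number.
The curve W = (0, a m, 0, b m^2, 0) over E maps to the same curve over E1 (pm / Affine.Point.map along the inclusion E -> E1, injective) and then, by Sc_ph with r = s^-1 (s in E1, s nonzero: Sc_rel with a2 = r^2 (a m), a4 = r^4 (b m^2), using s^2 = m), to W1; the composite is an injective additive map (Sc_inv), so it maps torsion points to torsion points and the set in question is finite (Set.Finite.of_finite_image / of_injOn).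
-/

set_option autoImplicit false
set_option linter.unusedSectionVars false
open scoped Classical


namespace H38T1

open WeierstrassCurve Pool.Agent.H10 Pool.Agent.H11

theorem Gd_val {F : Type*} [Field F] (A : ValuationSubring F) {l : ℕ} (hl : l.Prime)
    (h : A.valuation (l : F) < 1) {k : ℤ} (hk : ¬ (l : ℤ) ∣ k) : A.valuation (k : F) = 1 := by
  have hle : ∀ j : ℤ, A.valuation (j : F) ≤ 1 := fun j =>
    (A.valuation_le_one_iff _).2 (intCast_mem A j)
  refine le_antisymm (hle k) (not_lt.1 fun hlt => ?_)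
  have hco : IsCoprime (l : ℤ) k := ((Nat.prime_iff_prime_int.1 hl).coprime_iff_not_dvd).2 hk
  obtain ⟨u, v, huv⟩ := hco
  have h1 : A.valuation ((u * (l : ℤ) + v * k : ℤ) : F) < 1 := by
    rw [Int.cast_add, Int.cast_mul, Int.cast_mul, Int.cast_natCast]
    refine (A.valuation.map_add _ _).trans_lt (max_lt ?_ ?_)
    · rw [map_mul]
      exact (mul_le_of_le_one_left' (hle u)).trans_lt h
    · rw [map_mul]
      exact (mul_le_of_le_one_left' (hle v)).trans_lt hlt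
  rw [huv, Int.cast_one, map_one] at h1
  exact lt_irrefl _ h1

theorem Gd_valn {F : Type*} [Field F] (A : ValuationSubring F) {l : ℕ} (hl : l.Prime)
    (h : A.valuation (l : F) < 1) (n : ℕ) (hn : n.Coprime l) : A.valuation (n : F) = 1 := by
  have h1 := Gd_val A hl h (k := (n : ℤ)) (fun hd => by
    have h2 : l ∣ n := Int.natCast_dvd_natCast.1 hd
    exact (Nat.Prime.coprime_iff_not_dvd hl).1 hn.symm h2)
  rwa [Int.cast_natCast] at h1

theorem Gd_disc {F : Type*} [Field F] (a b : ℤ) :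
    (⟨0, (a : F), 0, (b : F), 0⟩ : WeierstrassCurve F).Δ =
      ((16 * b ^ 2 * (a ^ 2 - 4 * b) : ℤ) : F) := by
  simp only [WeierstrassCurve.Δ, WeierstrassCurve.b₂, WeierstrassCurve.b₄, WeierstrassCurve.b₆,
    WeierstrassCurve.b₈]
  push_cast
  ring

theorem Gd_dvd {a b : ℤ} {l : ℕ} (hl : l.Prime) (h : ¬ (l : ℤ) ∣ 2 * (b * (a ^ 2 - 4 * b))) :
    ¬ (l : ℤ) ∣ 16 * b ^ 2 * (a ^ 2 - 4 * b) := by
  have hp : Prime (l : ℤ) := Nat.prime_iff_prime_int.1 hl
  have h2 : ¬ (l : ℤ) ∣ 2 := fun hd => h (hd.mul_right _)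
  have hb : ¬ (l : ℤ) ∣ b := fun hd => h ((hd.mul_right _).mul_left _)
  have hc : ¬ (l : ℤ) ∣ a ^ 2 - 4 * b := fun hd => h ((hd.mul_left _).mul_left _)
  intro hd
  rcases hp.dvd_or_dvd hd with h3 | h3
  · rcases hp.dvd_or_dvd h3 with h4 | h4
    · have h5 : (16 : ℤ) = 2 ^ 4 := by norm_num
      rw [h5] at h4
      exact h2 (hp.dvd_of_dvd_pow h4)
    · exact hb (hp.dvd_of_dvd_pow h4)
  · exact hc h3

theorem Gd_gen {E E₁ : Type*} [Field E] [DecidableEq E] [Field E₁] (ι : E →+* E₁) {a b m : ℤ} (s : E₁)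
    (hs : s ^ 2 = (m : E₁)) (hs0 : s ≠ 0) {l l' : ℕ} (hl : l.Prime) (hl' : l'.Prime)
    (hne : l ≠ l') (hd : ¬ (l : ℤ) ∣ 2 * (b * (a ^ 2 - 4 * b)))
    (hd' : ¬ (l' : ℤ) ∣ 2 * (b * (a ^ 2 - 4 * b))) (A A' : ValuationSubring E₁)
    [Finite (IsLocalRing.ResidueField A)] [Finite (IsLocalRing.ResidueField A')]
    (hA : A.valuation (l : E₁) < 1) (hA' : A'.valuation (l' : E₁) < 1) :
    {P : (⟨0, ((a * m : ℤ) : E), 0, ((b * m ^ 2 : ℤ) : E), 0⟩ : WeierstrassCurve E).toAffine.Point |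
      ∃ n : ℕ, n ≠ 0 ∧ n • P = 0}.Finite := by
  have hΔ : ∀ (B : ValuationSubring E₁) (p : ℕ), p.Prime → B.valuation (p : E₁) < 1 →
      ¬ (p : ℤ) ∣ 2 * (b * (a ^ 2 - 4 * b)) →
      B.valuation (⟨0, (a : E₁), 0, (b : E₁), 0⟩ : WeierstrassCurve E₁).Δ = 1 := by
    intro B p hp hB hdp
    rw [Gd_disc]
    exact Gd_val B hp hB (Gd_dvd hp hdp)
  have hI : ∀ B : ValuationSubring E₁,
      Integral B (⟨0, (a : E₁), 0, (b : E₁), 0⟩ : WeierstrassCurve E₁) := fun B =>
    ⟨zero_mem B, intCast_mem B a, zero_mem B, intCast_mem B b, zero_mem B⟩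
  have hell : (⟨0, (a : E₁), 0, (b : E₁), 0⟩ : WeierstrassCurve E₁).IsElliptic := by
    refine ⟨isUnit_iff_ne_zero.2 fun h0 => ?_⟩
    have h1 := hΔ A l hl hA hd
    rw [h0, map_zero] at h1
    exact zero_ne_one h1
  have key := tors_of_two A A' hl hl' hne (Gd_valn A hl hA) (Gd_valn A' hl' hA')
    (hI A) (hΔ A l hl hA hd) (hI A') (hΔ A' l' hl' hA' hd')
  have hmap : (⟨0, ((a * m : ℤ) : E), 0, ((b * m ^ 2 : ℤ) : E), 0⟩ : WeierstrassCurve E).map ι =
      (⟨0, ((a * m : ℤ) : E₁), 0, ((b * m ^ 2 : ℤ) : E₁), 0⟩ : WeierstrassCurve E₁) := by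
    unfold WeierstrassCurve.map
    simp only [map_zero, map_intCast]
  have hm2 : ((a * m : ℤ) : E₁) = s ^ 2 * a := by
    rw [hs]
    push_cast
    ring
  have hm4 : ((b * m ^ 2 : ℤ) : E₁) = s ^ 4 * b := by
    have h4 : s ^ 4 = (m : E₁) ^ 2 := by
      rw [← hs]
      ring
    rw [h4]
    push_cast
    ring
  have hrel : Sc_rel (⟨0, (a : E₁), 0, (b : E₁), 0⟩ : WeierstrassCurve E₁)
      (⟨0, ((a * m : ℤ) : E₁), 0, ((b * m ^ 2 : ℤ) : E₁), 0⟩ : WeierstrassCurve E₁) s :=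
    ⟨hs0, by simp, hm2, by simp, hm4, by simp⟩
  refine Set.Finite.of_injOn (f := fun P => Sc_ph hrel.symm (pm ι hmap P)) (t := _) ?_ ?_ key
  · rintro P ⟨n, hn, hP⟩
    refine ⟨n, hn, ?_⟩
    rw [← map_nsmul, ← map_nsmul, hP, map_zero, map_zero]
  · intro P _ Q _ hPQ
    have h1 := Sc_inv hrel.symm hrel (mul_inv_cancel₀ hs0) (pm ι hmap P)
    have h2 := Sc_inv hrel.symm hrel (mul_inv_cancel₀ hs0) (pm ι hmap Q)
    have hPQ' : Sc_ph hrel.symm (pm ι hmap P) = Sc_ph hrel.symm (pm ι hmap Q) := hPQ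
    apply pm_injective ι hmap
    rw [← h1, ← h2, hPQ']

theorem tors_twist {a b : ℤ} {l l' : ℕ} [Fact l.Prime] [Fact l'.Prime] (hne : l ≠ l')
    (hl : ¬ (l : ℤ) ∣ 2 * (b * (a ^ 2 - 4 * b))) (hl' : ¬ (l' : ℤ) ∣ 2 * (b * (a ^ 2 - 4 * b)))
    {D : Set ℕ} (hD : ∀ d ∈ D, IsSquare ((d : ℕ) : ℚ_[l]) ∧ IsSquare ((d : ℕ) : ℚ_[l']))
    (F₀ : IntermediateField ℚ (AlgebraicClosure ℚ)) [FiniteDimensional ℚ F₀] {m : ℤ} (hm : m ≠ 0)
    {E : IntermediateField ℚ (AlgebraicClosure ℚ)} (hE : E = F₀ ⊔ IntermediateField.adjoin ℚ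
      {x : AlgebraicClosure ℚ | ∃ d ∈ D, x ^ 2 = (d : AlgebraicClosure ℚ)}) :
    {P : (⟨0, ((a * m : ℤ) : E), 0, ((b * m ^ 2 : ℤ) : E), 0⟩ : WeierstrassCurve E).toAffine.Point |
      ∃ n : ℕ, n ≠ 0 ∧ n • P = 0}.Finite := by
  obtain ⟨s, hs⟩ := IsAlgClosed.exists_pow_nat_eq (m : AlgebraicClosure ℚ) (n := 2) two_pos
  have hs0 : s ≠ 0 := by
    rintro rfl
    rw [zero_pow two_ne_zero] at hs
    exact hm (Int.cast_eq_zero.1 hs.symm)
  have hfd : FiniteDimensional ℚ (IntermediateField.adjoin ℚ {s}) :=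
    IntermediateField.adjoin.finiteDimensional (IsIntegral.of_pow two_pos (by
      rw [hs]
      have h1 : IsIntegral ℚ (algebraMap ℚ (AlgebraicClosure ℚ) (m : ℚ)) := isIntegral_algebraMap
      rwa [map_intCast] at h1))
  obtain ⟨A, hA, hAl⟩ := exists_val (fun d hd => (hD d hd).1)
    (F₀ ⊔ IntermediateField.adjoin ℚ {s})
  obtain ⟨A', hA', hAl'⟩ := exists_val (fun d hd => (hD d hd).2)
    (F₀ ⊔ IntermediateField.adjoin ℚ {s})
  have hle : E ≤ F₀ ⊔ IntermediateField.adjoin ℚ {s} ⊔ IntermediateField.adjoin ℚ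
      {x : AlgebraicClosure ℚ | ∃ d ∈ D, x ^ 2 = (d : AlgebraicClosure ℚ)} := by
    rw [hE]
    exact sup_le_sup_right le_sup_left _
  have hmem : s ∈ F₀ ⊔ IntermediateField.adjoin ℚ {s} ⊔ IntermediateField.adjoin ℚ
      {x : AlgebraicClosure ℚ | ∃ d ∈ D, x ^ 2 = (d : AlgebraicClosure ℚ)} :=
    (le_sup_right.trans le_sup_left : IntermediateField.adjoin ℚ {s} ≤ _)
      (IntermediateField.mem_adjoin_simple_self ℚ s)
  refine Gd_gen (IntermediateField.inclusion hle).toRingHom ⟨s, hmem⟩ ?_ ?_ Fact.out Fact.out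
    hne hl hl' A A' hAl hAl'
  · apply Subtype.ext
    push_cast
    exact hs
  · intro h0
    exact hs0 (congrArg Subtype.val h0)

end H38T1
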