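import Pool.Agent.H38.T1.Sc

/-!
Row Ge. (about 90 lines): if the curve has finitely many points over all number fields L inside E and finitely many torsion points over E, then it has finitely many points over E.
Let P = (x, y) be a point over E. L = adjoin Q {x, y} as an IntermediateField of AlgebraicClosure Q is contained in E, finite dimensional (x, y are integral; IntermediateField.finiteDimensional_adjoin or adjoin_insert), so a number field; j = L.val has range L. P comes from a point P' over L (same coordinates; the curve over E is the image of the curve over L under the inclusion; nonsingularity transfers by Affine.map_nonsingular / equation_iff and nonsingular_iff); the group of points over L is finite, so n P' = 0 with n = its cardinality, n > 0, and n P = 0. So all points over E are torsion, and the set of all points is the finite set htor.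
(pm, pm_some in Pool/Agent/H10 are the maps on points with an equality of curves; or WeierstrassCurve.Affine.Point.map.)
-/

set_option autoImplicit false
set_option linter.unusedSectionVars false
open scoped Classical


namespace H38T1

open WeierstrassCurve Pool.Agent.H10

theorem fin_pts {A B : ℤ} {E : IntermediateField ℚ (AlgebraicClosure ℚ)}
    (hfin : ∀ (L : Type) [Field L] [NumberField L] (j : L →ₐ[ℚ] AlgebraicClosure ℚ),
      j.fieldRange ≤ E → Finite (⟨0, (A : L), 0, (B : L), 0⟩ : WeierstrassCurve L).toAffine.Point)
    (htor : {P : (⟨0, (A : E), 0, (B : E), 0⟩ : WeierstrassCurve E).toAffine.Point |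
      ∃ n : ℕ, n ≠ 0 ∧ n • P = 0}.Finite) :
    Finite (⟨0, (A : E), 0, (B : E), 0⟩ : WeierstrassCurve E).toAffine.Point := by
  rw [← Set.finite_univ_iff]
  refine htor.subset fun P _ => ?_
  change ∃ n : ℕ, n ≠ 0 ∧ n • P = 0
  rcases P with _ | ⟨x, y, hxy⟩
  · exact ⟨1, one_ne_zero, one_nsmul _⟩
  let L : IntermediateField ℚ (AlgebraicClosure ℚ) :=
    IntermediateField.adjoin ℚ {(x : AlgebraicClosure ℚ), (y : AlgebraicClosure ℚ)}
  have hxL : (x : AlgebraicClosure ℚ) ∈ L :=
    IntermediateField.subset_adjoin _ _ (Set.mem_insert _ _)
  have hyL : (y : AlgebraicClosure ℚ) ∈ L :=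
    IntermediateField.subset_adjoin _ _ (Set.mem_insert_of_mem _ rfl)
  have hLE : L ≤ E := by
    rw [IntermediateField.adjoin_le_iff]
    rintro z (rfl | rfl)
    · exact x.2
    · exact y.2
  have hint : ∀ z : AlgebraicClosure ℚ, IsIntegral ℚ z := fun z => by
    have h := (AlgebraicClosure.isAlgebraic ℚ).isAlgebraic z
    have e : (AlgebraicClosure.instAlgebra ℚ : Algebra ℚ (AlgebraicClosure ℚ)) =
      DivisionRing.toRatAlgebra := Subsingleton.elim _ _
    rw [e] at h
    exact h.isIntegral
  have hfd : FiniteDimensional ℚ L := IntermediateField.finiteDimensional_adjoin_pair (hint _) (hint _)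
  have hnf : NumberField L := { to_finiteDimensional := by convert hfd }
  let φ : L →+* E := (IntermediateField.inclusion hLE).toRingHom
  let V : WeierstrassCurve L := ⟨0, (A : L), 0, (B : L), 0⟩
  have hV : V.map φ = (⟨0, (A : E), 0, (B : E), 0⟩ : WeierstrassCurve E) := by
    ext <;> simp [V]
  have hF : Finite V.toAffine.Point := by
    refine hfin L (RingHom.toRatAlgHom (L.val : L →+* AlgebraicClosure ℚ)) ?_
    rintro z ⟨a, rfl⟩
    exact hLE a.2
  have hns : V.toAffine.Nonsingular ⟨x, hxL⟩ ⟨y, hyL⟩ := by
    rw [← Affine.map_nonsingular V φ.injective]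
    change (V.map φ).toAffine.Nonsingular x y
    rw [hV]
    exact hxy
  refine ⟨Nat.card V.toAffine.Point, Nat.card_pos.ne', ?_⟩
  have h1 : (Nat.card V.toAffine.Point) • (Affine.Point.some _ _ hns : V.toAffine.Point) = 0 :=
    card_nsmul_eq_zero'
  have h2 := congrArg (pm φ hV) h1
  rw [map_nsmul, map_zero] at h2
  exact h2

end H38T1
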