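import Pool.Agent.H38.T1.Fz
import Pool.Agent.H38.T1.Gc
import Pool.Agent.H38.T1.Gd
import Pool.Agent.H38.T1.Ge

/-!
The points over the composite with an infinite multiquadratic field (helper38).
-/

set_option autoImplicit false
set_option linter.unusedSectionVars false
open scoped Classical

open NumberField IsDedekindDomain H38RT H73IS

namespace H38T1

/-- The free integers which are squares in `ℚ_p` for `p` in `P`. -/
def Fp (a b : ℤ) (J : ℕ → Prop) (P : Finset ℕ) : Set ℕ :=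
  {d ∈ Fs a b J | ∀ (p : ℕ) [Fact p.Prime], p ∈ P → IsSquare ((d : ℕ) : ℚ_[p])}

theorem fp_one (a b : ℤ) (J : ℕ → Prop) (P : Finset ℕ) : 1 ∈ Fp a b J P :=
  ⟨free_one a b J, fun p _ _ => ⟨1, by simp⟩⟩

theorem fp_mul {a b : ℤ} (hab : Hyp a b) {J : ℕ → Prop} {P : Finset ℕ} {d d' : ℕ}
    (hd : d ∈ Fp a b J P) (hd' : d' ∈ Fp a b J P) :
    ∃ d'' ∈ Fp a b J P, ∃ s : ℕ, s ≠ 0 ∧ d * d' = d'' * s ^ 2 := by
  obtain ⟨d'', s, hs, he, hf⟩ := free_mul hab hd.1 hd'.1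
  refine ⟨d'', ⟨hf, fun p _ hp => ?_⟩, s, hs, he⟩
  obtain ⟨u, hu⟩ := hd.2 p hp
  obtain ⟨v, hv⟩ := hd'.2 p hp
  have hs0 : (s : ℚ_[p]) ≠ 0 := by exact_mod_cast hs
  have e : (d : ℚ_[p]) * d' = d'' * s ^ 2 := by exact_mod_cast he
  refine ⟨u * v / s, ?_⟩
  rw [hu, hv] at e
  field_simp
  linear_combination -e

theorem fp_inf {a b : ℤ} (hab : Hyp a b) {S : Finset ℕ} (hS : ∀ p ∈ S, p.Prime ∧ p ≠ 2)
    {J : ℕ → Prop} {j : ℕ}
    (hJ : ∀ l : ℕ, l.Prime → (∀ p ∈ S, ¬ p ^ (j + 2) ∣ l ^ (p - 1) - 1) → J l)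
    (P : Finset ℕ) : (Fp a b J P).Infinite := by
  refine sub_inf (fs_inf hab hS hJ) (fun d hd => hd.sqf) (fun d hd d' hd' => ?_) P
  obtain ⟨d'', s, hs, he, hf⟩ := free_mul hab hd hd'
  exact ⟨d'', hf, s, hs, he⟩

/-- The conclusion over the extensions. -/
def FinAll (K : Type) [Field K] [NumberField K] (M : IntermediateField ℚ (AlgebraicClosure ℚ))
    (a b n : ℤ) : Prop :=
  (∀ (i : K →ₐ[ℚ] AlgebraicClosure ℚ) (E : IntermediateField ℚ (AlgebraicClosure ℚ)),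
    E = i.fieldRange ⊔ M →
    Finite (⟨0, ((a * n : ℤ) : E), 0, ((b * n ^ 2 : ℤ) : E), 0⟩ :
      WeierstrassCurve E).toAffine.Point ∧
    Finite (⟨0, ((-2 * (a * n) : ℤ) : E), 0, (((a ^ 2 - 4 * b) * n ^ 2 : ℤ) : E), 0⟩ :
      WeierstrassCurve E).toAffine.Point) ∧
  ∀ (L : Type) [Field L] [NumberField L] (i : K →ₐ[ℚ] AlgebraicClosure ℚ)
    (j : L →ₐ[ℚ] AlgebraicClosure ℚ), j.fieldRange ≤ i.fieldRange ⊔ M → FinBoth L a b n

theorem ctrl2 {a b a' b' n : ℤ} (hb : b ≠ 0) (hD : a ^ 2 - 4 * b ≠ 0) (hn : n ≠ 0)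
    (hab' : Hyp a' b') {J : ℕ → Prop} {P : Finset ℕ} {l l' : ℕ} [Fact l.Prime] [Fact l'.Prime]
    (hne : l ≠ l') (hl : ¬ (l : ℤ) ∣ 2 * (b * (a ^ 2 - 4 * b)))
    (hl' : ¬ (l' : ℤ) ∣ 2 * (b * (a ^ 2 - 4 * b))) (hlP : l ∈ P) (hlP' : l' ∈ P)
    {K : Type} [Field K] [NumberField K] [IsGalois ℚ K]
    (H : ∀ d : ℕ, Free a' b' J d → Both K a b (n * d)) {d₀ : ℕ} (hd₀ : Free a' b' J d₀) :
    FinAll K (Mf (Fp a' b' J P)) a b (n * d₀) := by
  have hd0 : d₀ ≠ 0 := by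
    have := hd₀.one
    omega
  have hm : (n * d₀ : ℤ) ≠ 0 := mul_ne_zero hn (by exact_mod_cast hd0)
  have hm2 : (n * d₀ : ℤ) ^ 2 ≠ 0 := pow_ne_zero 2 hm
  have key : ∀ d ∈ Fp a' b' J P, Both K a b (n * d₀ * d) := by
    intro d hd
    obtain ⟨d'', s, hs, he, hf⟩ := free_mul hab' hd₀ hd.1
    refine both_scale (s := (s : ℤ)) (by exact_mod_cast hs) (n' := n * d'') ?_ (H d'' hf)
    have : ((d₀ : ℤ) * d) = d'' * s ^ 2 := by exact_mod_cast he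
    linear_combination n * this
  have h2 : ∀ (L : Type) [Field L] [NumberField L] (i : K →ₐ[ℚ] AlgebraicClosure ℚ)
    (j : L →ₐ[ℚ] AlgebraicClosure ℚ), j.fieldRange ≤ i.fieldRange ⊔ Mf (Fp a' b' J P) →
      FinBoth L a b (n * d₀) := by
    intro L _ _ i j hij
    constructor
    · exact multi (A := a * (n * d₀)) (B := b * (n * d₀) ^ 2) (fp_one a' b' J P)
        (fun d hd d' hd' => fp_mul hab' hd hd') (mul_ne_zero hb hm2) (by
        have e : (a * (n * d₀)) ^ 2 - 4 * (b * (n * d₀) ^ 2) = (a ^ 2 - 4 * b) * (n * d₀) ^ 2 := by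
          ring
        rw [e]
        exact mul_ne_zero hD hm2) (fun d hd => by
        have h2 := (key d hd).1
        convert h2 using 2
        · ring
        · ring) i j hij
    · exact multi (A := -2 * (a * (n * d₀))) (B := (a ^ 2 - 4 * b) * (n * d₀) ^ 2)
        (fp_one a' b' J P) (fun d hd d' hd' => fp_mul hab' hd hd') (mul_ne_zero hD hm2) (by
        have e : (-2 * (a * (n * d₀))) ^ 2 - 4 * ((a ^ 2 - 4 * b) * (n * d₀) ^ 2) =
            16 * (b * (n * d₀) ^ 2) := by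
          ring
        rw [e]
        exact mul_ne_zero (by norm_num) (mul_ne_zero hb hm2)) (fun d hd => by
        have h2 := (key d hd).2
        convert h2 using 2
        · ring
        · ring) i j hij
  refine ⟨fun i E hE => ?_, h2⟩
  have hfd : FiniteDimensional ℚ i.fieldRange :=
    Module.Finite.equiv (AlgEquiv.ofInjectiveField i).toLinearEquiv
  have hDl : ∀ d ∈ Fp a' b' J P, IsSquare ((d : ℕ) : ℚ_[l]) ∧ IsSquare ((d : ℕ) : ℚ_[l']) :=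
    fun d hd => ⟨hd.2 l hlP, hd.2 l' hlP'⟩
  have hq : ∀ q : ℕ, q.Prime → ¬ (q : ℤ) ∣ 2 * (b * (a ^ 2 - 4 * b)) →
      ¬ (q : ℤ) ∣ 2 * ((a ^ 2 - 4 * b) * ((-2 * a) ^ 2 - 4 * (a ^ 2 - 4 * b))) := by
    intro q hq h hdiv
    have hq' : Prime (q : ℤ) := Nat.prime_iff_prime_int.1 hq
    have e : 2 * ((a ^ 2 - 4 * b) * ((-2 * a) ^ 2 - 4 * (a ^ 2 - 4 * b))) =
        2 ^ 4 * (2 * (b * (a ^ 2 - 4 * b))) := by ring
    rw [e] at hdiv
    rcases hq'.dvd_or_dvd hdiv with h1 | h1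
    · exact h (Dvd.dvd.mul_right (hq'.dvd_of_dvd_pow h1) _)
    · exact h h1
  constructor
  · refine fin_pts (A := a * (n * d₀)) (B := b * (n * d₀) ^ 2) (fun L _ _ j hj => ?_) ?_
    · exact (h2 L i j (hj.trans hE.le)).1.2
    · exact tors_twist hne hl hl' hDl i.fieldRange hm hE
  · refine fin_pts (A := -2 * (a * (n * d₀))) (B := (a ^ 2 - 4 * b) * (n * d₀) ^ 2)
      (fun L _ _ j hj => ?_) ?_
    · exact (h2 L i j (hj.trans hE.le)).2.2
    · have := tors_twist (a := -2 * a) (b := a ^ 2 - 4 * b) hne (hq l Fact.out hl)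
        (hq l' Fact.out hl') hDl i.fieldRange hm hE
      rw [mul_assoc] at this
      exact this

/-- The level for a given exponent. -/
theorem exists_level {S : Finset ℕ} (hS : ∀ p ∈ S, p.Prime ∧ p ≠ 2) {ε : ℝ} (h0 : 0 ≤ ε)
    (h : S.Nonempty → 0 < ε) : ∃ j₁ : ℕ, ∀ j : ℕ, j₁ ≤ j →
      -(3 / 4 + ε) ≤ 1 / 4 * ∏ p ∈ S, (1 - 1 / (p : ℝ) ^ (j + 1)) - 1 := by
  rcases S.eq_empty_or_nonempty with rfl | hne
  · refine ⟨0, fun j _ => ?_⟩
    rw [Finset.prod_empty]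
    linarith
  · have hε := h hne
    have ht : Filter.Tendsto (fun j : ℕ => ∏ p ∈ S, (1 - 1 / (p : ℝ) ^ (j + 1))) Filter.atTop
        (nhds (∏ p ∈ S, (1 - 0))) := by
      refine tendsto_finset_prod S fun p hp => ?_
      refine Filter.Tendsto.sub tendsto_const_nhds ?_
      have h1 : (1 : ℝ) < p := by exact_mod_cast (hS p hp).1.one_lt
      have h2 : Filter.Tendsto (fun j : ℕ => (1 / (p : ℝ)) ^ j) Filter.atTop (nhds 0) :=
        tendsto_pow_atTop_nhds_zero_of_lt_one (by positivity) (by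
          rw [div_lt_one (by linarith)]
          exact h1)
      have h3 := (Filter.tendsto_add_atTop_iff_nat 1).2 h2
      refine h3.congr fun j => ?_
      rw [div_pow, one_pow]
    have hlim : (∏ p ∈ S, ((1 : ℝ) - 0)) = 1 := by simp
    rw [hlim] at ht
    have h4 := (ht.eventually (lt_mem_nhds (show (1 - 4 * ε : ℝ) < 1 by linarith)))
    obtain ⟨j₁, hj₁⟩ := Filter.eventually_atTop.1 h4
    refine ⟨j₁, fun j hj => ?_⟩
    have := hj₁ j hj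
    linarith

/-- The count with the exponent `3/4 + ε`. -/
theorem count_eps {a b : ℤ} (hab : Hyp a b) {S : Finset ℕ} (hS : ∀ p ∈ S, p.Prime ∧ p ≠ 2)
    {J : ℕ → Prop} (j : ℕ)
    (hJ : ∀ l : ℕ, l.Prime → (∀ p ∈ S, ¬ p ^ (j + 2) ∣ l ^ (p - 1) - 1) → J l)
    {n₀ : ℕ} (hn₀ : n₀ ≠ 0) {ε : ℝ}
    (hε : -(3 / 4 + ε) ≤ 1 / 4 * ∏ p ∈ S, (1 - 1 / (p : ℝ) ^ (j + 1)) - 1) :
    ∃ c : ℝ, 0 < c ∧ ∃ X₀ : ℝ, ∀ x : ℝ, X₀ ≤ x →
      c * x / (Real.log x) ^ (3 / 4 + ε) ≤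
        {d : ℕ | (d : ℝ) ≤ x ∧ Free a b J d ∧ d.Coprime n₀}.ncard := by
  obtain ⟨c, hc, X, hX⟩ := count hab hS j hJ hn₀
  refine ⟨c, hc, max X (Real.exp 1), fun x hx => ?_⟩
  refine le_trans ?_ (hX x ((le_max_left _ _).trans hx))
  have hx1 : Real.exp 1 ≤ x := (le_max_right _ _).trans hx
  have hx0 : 0 < x := (Real.exp_pos 1).trans_le hx1
  have hlog : 1 ≤ Real.log x := by
    rw [Real.le_log_iff_exp_le hx0]
    exact hx1
  have hl0 : 0 < Real.log x := by linarith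
  rw [div_eq_mul_inv, ← Real.rpow_neg hl0.le]
  exact mul_le_mul_of_nonneg_left (Real.rpow_le_rpow_of_exponent_le hlog hε)
    (mul_pos hc hx0).le

/-- Two good primes. -/
theorem two_primes {c : ℤ} (hc : c ≠ 0) : ∃ l l' : ℕ, l.Prime ∧ l'.Prime ∧ l ≠ l' ∧
    ¬ (l : ℤ) ∣ c ∧ ¬ (l' : ℤ) ∣ c := by
  obtain ⟨l, hl, hlp⟩ := Nat.exists_infinite_primes (c.natAbs + 1)
  obtain ⟨l', hl', hlp'⟩ := Nat.exists_infinite_primes (l + 1)
  have hpos : 0 < c.natAbs := Int.natAbs_pos.2 hc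
  refine ⟨l, l', hlp, hlp', by omega, fun h => ?_, fun h => ?_⟩
  · have := Nat.le_of_dvd hpos (Int.natCast_dvd.1 h)
    omega
  · have := Nat.le_of_dvd hpos (Int.natCast_dvd.1 h)
    omega

end H38T1
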