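import Pool.Agent.H38.T1.Xs

/-!
Last step (helper38).
-/

set_option autoImplicit false
set_option linter.unusedSectionVars false
open scoped Classical

open NumberField IsDedekindDomain H38RT H73IS

namespace H38T1

/-- The free integers. -/
def Fs (a b : ℤ) (J : ℕ → Prop) : Set ℕ := {d | Free a b J d}

/-- The conclusion over the extensions. -/
def FinBoth (L : Type) [Field L] [NumberField L] (a b n : ℤ) : Prop :=
  (TwoPartFinite L
      (⟨0, ((a * n : ℤ) : L), 0, ((b * n ^ 2 : ℤ) : L), 0⟩ : WeierstrassCurve L) ∧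
    Finite (⟨0, ((a * n : ℤ) : L), 0, ((b * n ^ 2 : ℤ) : L), 0⟩ :
      WeierstrassCurve L).toAffine.Point) ∧
  TwoPartFinite L (⟨0, ((-2 * (a * n) : ℤ) : L), 0,
      (((a ^ 2 - 4 * b) * n ^ 2 : ℤ) : L), 0⟩ : WeierstrassCurve L) ∧
    Finite (⟨0, ((-2 * (a * n) : ℤ) : L), 0, (((a ^ 2 - 4 * b) * n ^ 2 : ℤ) : L), 0⟩ :
      WeierstrassCurve L).toAffine.Point

theorem ctrl {a b a' b' n : ℤ} (hb : b ≠ 0) (hD : a ^ 2 - 4 * b ≠ 0) (hn : n ≠ 0)
    (hab' : Hyp a' b') {J : ℕ → Prop} {K L : Type} [Field K] [NumberField K] [IsGalois ℚ K]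
    [Field L] [NumberField L] (H : ∀ d : ℕ, Free a' b' J d → Both K a b (n * d)) {d₀ : ℕ}
    (hd₀ : Free a' b' J d₀) (i : K →ₐ[ℚ] AlgebraicClosure ℚ) (j : L →ₐ[ℚ] AlgebraicClosure ℚ)
    (hij : j.fieldRange ≤ i.fieldRange ⊔ Mf (Fs a' b' J)) : FinBoth L a b (n * d₀) := by
  have hd0 : d₀ ≠ 0 := by
    have := hd₀.one
    omega
  have hm : (n * d₀ : ℤ) ≠ 0 := mul_ne_zero hn (by exact_mod_cast hd0)
  have hm2 : (n * d₀ : ℤ) ^ 2 ≠ 0 := pow_ne_zero 2 hm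
  have h1 : (1 : ℕ) ∈ Fs a' b' J := free_one a' b' J
  have hmul : ∀ d ∈ Fs a' b' J, ∀ d' ∈ Fs a' b' J, ∃ d'' ∈ Fs a' b' J, ∃ s : ℕ, s ≠ 0 ∧
      d * d' = d'' * s ^ 2 := by
    intro d hd d' hd'
    obtain ⟨d'', s, hs, he, hf⟩ := free_mul hab' hd hd'
    exact ⟨d'', hf, s, hs, he⟩
  have key : ∀ d ∈ Fs a' b' J, Both K a b (n * d₀ * d) := by
    intro d hd
    obtain ⟨d'', s, hs, he, hf⟩ := free_mul hab' hd₀ hd
    refine both_scale (s := (s : ℤ)) (by exact_mod_cast hs) (n' := n * d'') ?_ (H d'' hf)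
    have : ((d₀ : ℤ) * d) = d'' * s ^ 2 := by exact_mod_cast he
    linear_combination n * this
  constructor
  · have := multi (A := a * (n * d₀)) (B := b * (n * d₀) ^ 2) h1 hmul (mul_ne_zero hb hm2) (by
      have e : (a * (n * d₀)) ^ 2 - 4 * (b * (n * d₀) ^ 2) = (a ^ 2 - 4 * b) * (n * d₀) ^ 2 := by
        ring
      rw [e]
      exact mul_ne_zero hD hm2) (fun d hd => by
      have h2 := (key d hd).1
      convert h2 using 2
      · ring
      · ring) i j hij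
    exact this
  · have := multi (A := -2 * (a * (n * d₀))) (B := (a ^ 2 - 4 * b) * (n * d₀) ^ 2) h1 hmul
      (mul_ne_zero hD hm2) (by
      have e : (-2 * (a * (n * d₀))) ^ 2 - 4 * ((a ^ 2 - 4 * b) * (n * d₀) ^ 2) =
          16 * (b * (n * d₀) ^ 2) := by
        ring
      rw [e]
      exact mul_ne_zero (by norm_num) (mul_ne_zero hb hm2)) (fun d hd => by
      have h2 := (key d hd).2
      convert h2 using 2
      · ring
      · ring) i j hij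
    exact this

/-- An odd layer is a totally real Galois extension. -/
theorem layer_real {p : ℕ} [Fact p.Prime] {K : Type} [Field K] [NumberField K]
    (hodd : Odd (Module.finrank ℚ K)) (hK : ∃ m : ℕ, Nonempty (K →+* CyclotomicField (p ^ (m + 1)) ℚ)) :
    IsGalois ℚ K ∧ H5SW.IsR p K := by
  obtain ⟨m, ⟨φ⟩⟩ := hK
  have : NeZero (p ^ (m + 1)) := ⟨pow_ne_zero _ (Fact.out : p.Prime).ne_zero⟩
  have : IsCyclotomicExtension {p ^ (m + 1)} ℚ (CyclotomicField (p ^ (m + 1)) ℚ) :=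
    CyclotomicField.isCyclotomicExtension (p ^ (m + 1)) ℚ
  have : IsAbelianGalois ℚ (CyclotomicField (p ^ (m + 1)) ℚ) :=
    IsCyclotomicExtension.isAbelianGalois {p ^ (m + 1)} ℚ _
  have hg : IsGalois ℚ K := H10TT.galois_sub φ
  exact ⟨hg, isTR hodd, m, ⟨φ⟩⟩

theorem fs_inf {a b : ℤ} (hab : Hyp a b) {S : Finset ℕ} (hS : ∀ p ∈ S, p.Prime ∧ p ≠ 2)
    {J : ℕ → Prop} {j : ℕ}
    (hJ : ∀ l : ℕ, l.Prime → (∀ p ∈ S, ¬ p ^ (j + 2) ∣ l ^ (p - 1) - 1) → J l) :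
    (Fs a b J).Infinite := by
  obtain ⟨c, hc, hcl⟩ := H93T1.neutral_class hab
  have hQ : ∀ q ∈ H93T1.Qs a b, q.Prime ∧ q ≠ 2 := fun q hq =>
    ⟨((H93T1.mem_Qs hab).1 hq).1, ((H93T1.mem_Qs hab).1 hq).2.1⟩
  have hodd : Odd (∏ q ∈ H93T1.Qs a b, q) :=
    Finset.prod_induction _ Odd (fun _ _ => Odd.mul) odd_one
      fun q hq => (hQ q hq).1.odd_of_ne_two (hQ q hq).2
  have hsq : Squarefree (∏ q ∈ H93T1.Qs a b, q) := by
    refine Finset.squarefree_prod_of_pairwise_isCoprime (fun q hq r hr hqr => ?_)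
      fun q hq => (hQ q hq).1.squarefree
    exact Nat.coprime_iff_isRelPrime.1 ((Nat.coprime_primes (hQ q hq).1 (hQ r hr).1).2 hqr)
  refine free_inf hab hodd ?_ ?_ hcl
  · intro q hq hq2 hd
    exact Finset.dvd_prod_of_mem _ ((H93T1.mem_Qs hab).2 ⟨hq, hq2, hd⟩)
  · refine (dir_S S hS _ hsq hodd c hc).mono ?_
    rintro l ⟨h1, h2, h3⟩
    exact ⟨h1, h2, hJ l h1 fun p hp hd => h3 p hp ((pow_dvd_pow p (by omega)).trans hd)⟩

end H38T1
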