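import Pool.Agent.H38.T1.Ec
import Pool.Agent.H38.T1.Ed

/-!
Row Ma. (about 200 lines): the data LDof: finiteness, odd places, nontrivial generators, stability.
Write D0 = a^2 - 4b; b D0 <> 0 (nb, nD: 0 is a square). Every place v in ov K Q has rp v in Q when Q consists of primes (mem_iff_eq), OddP v iff rp v <> 2 (oddP_iff).
fin_ov: for a finite set Q of prime numbers the places above Q are finitely many (Ideal.finite_factors of span {prod}; or fin_bad from H38/RT/Rk.lean applied to the rational number prod q: v.valuation K q < 1 iff q in v.asIdeal).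
finSg: Q = primes dividing b D0 is finite (b D0 <> 0). Disjointness: by rp v.
gen: v in Sg, q = rp v odd, q | b D0. If q | b: v_q(b) even: g = nr q, prime to q and a non-square: la v g = 1 <> 0 (la_int, nr_spec); odd: eo v (-b) = v_q(b) mod 2 = 1 (eo_int, padicValInt of -b). If not q | b then q | D0: same with D0.
gI_smul: rp_smul and smul_int (gI a b q <> 0: nr q <> 0 as it is prime to q; b, D0 <> 0; for q = 2 nr 2 may be 0 or any: if it is 0 then sc 0 = 0 and gamma . 0 = 0).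
-/

set_option autoImplicit false
set_option linter.unusedSectionVars false
open scoped Classical

open WithZero NumberField IsDedekindDomain H38RT

namespace H38T1

variable {K : Type} [Field K] [NumberField K] {v : HeightOneSpectrum (𝓞 K)}

theorem Hyp.ne {a b : ℤ} (h : Hyp a b) : b ≠ 0 ∧ a ^ 2 - 4 * b ≠ 0 := by
  constructor
  · intro h0
    apply h.nb
    rw [h0]
    exact ⟨0, by norm_num⟩
  · intro h0
    apply h.nD
    rw [h0]
    exact ⟨0, by norm_num⟩

theorem fin_ov {Q : Set ℕ} (hQ : Q.Finite) (hp : ∀ q ∈ Q, q.Prime) : (ov K Q).Finite := by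
  have h1 : ov K Q = ⋃ q ∈ Q, {v : HeightOneSpectrum (𝓞 K) | (q : 𝓞 K) ∈ v.asIdeal} := by
    ext v
    simp only [ov, Set.mem_ofPred_eq, Set.mem_iUnion, exists_prop]
  rw [h1]
  refine hQ.biUnion fun q hq => ?_
  have hq0 : (q : 𝓞 K) ≠ 0 := Nat.cast_ne_zero.mpr (hp q hq).ne_zero
  refine (Ideal.finite_factors (I := Ideal.span {(q : 𝓞 K)}) ?_).subset fun v hv => ?_
  · rw [Ne, Ideal.zero_eq_bot, Ideal.span_singleton_eq_bot]
    exact hq0
  · change v.asIdeal ∣ Ideal.span {(q : 𝓞 K)}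
    rw [Ideal.dvd_span_singleton]
    exact hv

theorem mem_ov {Q : Set ℕ} (hp : ∀ q ∈ Q, q.Prime) : v ∈ ov K Q ↔ rp v ∈ Q := by
  constructor
  · rintro ⟨q, hq, h⟩
    rw [(mem_iff_eq (hp q hq)).1 h]
    exact hq
  · intro h
    exact ⟨rp v, h, rp_mem v⟩

private lemma Ma_padic_neg (q : ℕ) (b : ℤ) : padicValInt q (-b) = padicValInt q b := by
  unfold padicValInt
  rw [Int.natAbs_neg]

private lemma Ma_odd_cast {n : ℕ} (h : ¬ Even n) : (n : ZMod 2) ≠ 0 := by
  intro h0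
  apply h
  rw [even_iff_two_dvd]
  exact (ZMod.natCast_eq_zero_iff n 2).1 h0

/-- the generator is not trivial when `q ∣ m` -/
private lemma Ma_gen [IsGalois ℚ K] (hodd : Odd (Module.finrank ℚ K)) {m m' : ℤ} (hm : m ≠ 0)
    (hmm : m' = m ∨ m' = -m) (hv : OddP v) (h2 : rp v ≠ 2) :
    ¬ (eo v (sc (((if Even (padicValInt (rp v) m) then nr (rp v) else m' : ℤ)) : K)) = 0 ∧
      la v (sc (((if Even (padicValInt (rp v) m) then nr (rp v) else m' : ℤ)) : K)) = 0) := by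
  by_cases he : Even (padicValInt (rp v) m)
  · rw [if_pos he]
    rintro ⟨-, h⟩
    obtain ⟨h3, h4⟩ := nr_spec (rp_prime v) h2
    exact h3 ((la_int hodd hv h4).1 h)
  · rw [if_neg he]
    rintro ⟨h, -⟩
    have hm' : m' ≠ 0 := by
      rcases hmm with h' | h' <;> rw [h']
      · exact hm
      · exact neg_ne_zero.mpr hm
    rw [eo_int hodd hm'] at h
    have h5 : padicValInt (rp v) m' = padicValInt (rp v) m := by
      rcases hmm with h' | h' <;> rw [h']
      exact Ma_padic_neg _ _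
    rw [h5] at h
    exact Ma_odd_cast he h

theorem LDof_good [IsGalois ℚ K] (hodd : Odd (Module.finrank ℚ K)) {a b : ℤ} (hab : Hyp a b)
    {Pp Pp' : Finset ℕ} {τ : Bool} (hd : Disjoint Pp Pp')
    (hP : ∀ l ∈ Pp, l.Prime ∧ ¬ (l : ℤ) ∣ 2 * (b * (a ^ 2 - 4 * b)))
    (hP' : ∀ l ∈ Pp', l.Prime ∧ ¬ (l : ℤ) ∣ 2 * (b * (a ^ 2 - 4 * b))) :
    (LDof K a b Pp Pp' τ).Good := by
  obtain ⟨hb, hD⟩ := hab.ne
  have hbD : b * (a ^ 2 - 4 * b) ≠ 0 := mul_ne_zero hb hD
  have hSp : ∀ q ∈ {q : ℕ | q.Prime ∧ q ≠ 2 ∧ (q : ℤ) ∣ b * (a ^ 2 - 4 * b)}, q.Prime :=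
    fun q hq => hq.1
  have hPp : ∀ q ∈ (Pp : Set ℕ), q.Prime := fun q hq => (hP q (Finset.mem_coe.1 hq)).1
  have hPp' : ∀ q ∈ (Pp' : Set ℕ), q.Prime := fun q hq => (hP' q (Finset.mem_coe.1 hq)).1
  have hfin : {q : ℕ | q.Prime ∧ q ≠ 2 ∧ (q : ℤ) ∣ b * (a ^ 2 - 4 * b)}.Finite := by
    refine (Nat.divisors (b * (a ^ 2 - 4 * b)).natAbs).finite_toSet.subset fun q hq => ?_
    rw [Finset.mem_coe, Nat.mem_divisors]
    exact ⟨Int.natCast_dvd.1 hq.2.2, Int.natAbs_ne_zero.mpr hbD⟩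
  have hodd' : ∀ {Q : Finset ℕ}, (∀ l ∈ Q, l.Prime ∧ ¬ (l : ℤ) ∣ 2 * (b * (a ^ 2 - 4 * b))) →
      ∀ v : HeightOneSpectrum (𝓞 K), rp v ∈ (Q : Set ℕ) → OddP v := by
    intro Q hQ v hv
    rw [oddP_iff]
    intro h2
    apply (hQ (rp v) (Finset.mem_coe.1 hv)).2
    rw [h2]
    exact Dvd.intro _ rfl
  exact
  { finSg := fin_ov hfin hSp
    finP := fin_ov (Finset.finite_toSet Pp) hPp
    finP' := fin_ov (Finset.finite_toSet Pp') hPp'
    oddSg := by
      intro v hv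
      have h1 := (mem_ov hSp).1 hv
      exact oddP_iff.2 h1.2.1
    oddP := fun v hv => hodd' hP v ((mem_ov hPp).1 hv)
    oddP' := fun v hv => hodd' hP' v ((mem_ov hPp').1 hv)
    d1 := by
      rw [Set.disjoint_left]
      intro v hv hv'
      have h1 := (mem_ov hSp).1 hv
      have h2 := (mem_ov hPp).1 hv'
      exact (hP _ (Finset.mem_coe.1 h2)).2 (Dvd.dvd.mul_left h1.2.2 2)
    d2 := by
      rw [Set.disjoint_left]
      intro v hv hv'
      have h1 := (mem_ov hSp).1 hv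
      have h2 := (mem_ov hPp').1 hv'
      exact (hP' _ (Finset.mem_coe.1 h2)).2 (Dvd.dvd.mul_left h1.2.2 2)
    d3 := by
      rw [Set.disjoint_left]
      intro v hv hv'
      have h1 := (mem_ov hPp).1 hv
      have h2 := (mem_ov hPp').1 hv'
      exact (Finset.disjoint_left.1 hd) (Finset.mem_coe.1 h1) (Finset.mem_coe.1 h2)
    gen := by
      intro v hv
      obtain ⟨hq, h2, hdvd⟩ := (mem_ov hSp).1 hv
      have hov : OddP v := oddP_iff.2 h2
      change ¬ (eo v (sc ((gI a b (rp v) : ℤ) : K)) = 0 ∧ la v (sc ((gI a b (rp v) : ℤ) : K)) = 0)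
      unfold gI
      by_cases hqb : (rp v : ℤ) ∣ b
      · rw [if_pos hqb]
        exact Ma_gen hodd hb (Or.inr rfl) hov h2
      · rw [if_neg hqb]
        exact Ma_gen hodd hD (Or.inl rfl) hov h2 }

theorem LDof_g {a b : ℤ} (hab : Hyp a b) {Pp Pp' : Finset ℕ} {τ : Bool} (γ : K ≃ₐ[ℚ] K)
    (v : HeightOneSpectrum (𝓞 K)) :
    (LDof K a b Pp Pp' τ).g (γ • v) = (LDof K a b Pp Pp' τ).g v ∧
      γ • (LDof K a b Pp Pp' τ).g v = (LDof K a b Pp Pp' τ).g v := by
  constructor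
  · change sc ((gI a b (rp (γ • v)) : ℤ) : K) = sc ((gI a b (rp v) : ℤ) : K)
    rw [rp_smul]
  · change γ • sc ((gI a b (rp v) : ℤ) : K) = sc ((gI a b (rp v) : ℤ) : K)
    by_cases h0 : gI a b (rp v) = 0
    · have h1 : sc ((gI a b (rp v) : ℤ) : K) = 0 := by
        rw [h0, Int.cast_zero]
        unfold sc
        rw [dif_neg (by simp)]
      rw [h1]
      exact smul_zero γ
    · exact smul_int γ h0

end H38T1
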