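import Pool.Agent.H38.T1.Ma

/-!
Row Mb. (about 230 lines): b lies in the first group and D0 = a^2 - 4b in the second one.
Let q = rp v, e = the ramification index (odd; eo_int gives eo v (sc m) = v_q(m) mod 2).
b_mem: (1) v not in Sg and not in P': eo v b = v_q(b) mod 2 = 0: q = 2: v_2(b) = 2(k+2) even (b4); q odd: q does not divide b D0, v_q(b) = 0. (2) v in Sg: tp v b g = 0. q | b, v_q(b) odd: g = -b: tp_neg (sc (-(b : K))). q | b, v_q(b) even: eo b = 0 and eo g = 0 (g = nr q prime to q), so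
 tp = 0. q not dividing b, q | D0: eo b = 0 and la b = 0 because 4b = a^2 - D0 is a square mod q (la_int: SqMod q b as q is odd: b = (a/2)^2 mod q); tp v b g = eo b la g + eo g la b + ... = 0. (3) v in P: la v b = 0 (la_int, SqMod). (4) tau = false: 0 < b so si w b = 0 (si_sc, sw, map_intCast).
D_mem: (1) v not in Sg, not in P: eo v D0 = v_q(D0) mod 2 = 0: q = 2: D0 is odd (a odd, 4 | 4b); q odd: q does not divide b D0. (2) v above 2: Prm: D0 = 1^2 (a^2 - 4 b) with t = 1, z = a, c = b: V a = 1 as a is odd (rp v = 2, mem_iff_int), V b <= 1 (pri_sc). (3) v in Sg: q | b and q | a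
 (then q^2 does not divide b by mini, v_q(b) = 1 odd, g = -b): D0 = (-b) * 4 * (1 - a^2/(4b)), eo: v_q(D0) = 1 = v_q(b) (q^2 | a^2); la: sc D0 = sc (-b) + sc (D0/(-b)), D0/(-b) = 4 - a^2/b has V (D0/(-b) - 2^2) < 1, so lam = 0 (lam_unit, Sq), eo = 0: so the right alternative (la_add, eo_add).
 q | b, q not dividing a: D0 = a^2 mod q, prime to q: eo = 0, la = 0 (SqMod): left alternative. q not dividing b: q | D0: v_q(D0) even: eo = 0; la is 0 or 1: left alternative, or right one because la v (nr q) = 1 (nr_spec, la_int), eo v (nr q) = 0; v_q(D0) odd: g = D0: right alternative (rfl).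
 (4) v in P': la v D0 = 0 (SqMod). (5) tau = true: D0 > 0.
D_notin: if sc D0 is in NS S then all v_q(D0) are even (eo_int for a place above q: exists one, e.g. a prime factor of span {q}) and D0 > 0 (a real place exists: K totally real or at least one K ->+* R: isTR), so D0 is a square in Z, contradicting nD.
sc_ne: sq_int for b, D0 and b D0 (sc b = sc D0 iff sc (b D0) = 0: sc_mul, char 2).
-/

set_option autoImplicit false
set_option linter.unusedSectionVars false
open scoped Classical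

open WithZero NumberField IsDedekindDomain H38RT

namespace H38T1

variable {K : Type} [Field K] [NumberField K]

theorem Mb_even_b {a b : ℤ} (hab : Hyp a b) : Even (padicValInt 2 b) := by
  have : Fact (Nat.Prime 2) := ⟨Nat.prime_two⟩
  obtain ⟨k, b₀, h1, h2⟩ := hab.b4
  have hb0 : b₀ ≠ 0 := by
    rintro rfl
    norm_num at h2
  have h3 : padicValInt 2 b₀ = 0 := padicValInt.eq_zero_of_not_dvd (by
    rw [Nat.cast_ofNat]
    omega)
  have h4 : (4 : ℤ) ^ (k + 2) = ((2 : ℕ) : ℤ) ^ (2 * (k + 2)) := by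
    rw [pow_mul]
    norm_num
  have h5 : padicValInt 2 (((2 : ℕ) : ℤ) ^ (2 * (k + 2))) = 2 * (k + 2) := by
    unfold padicValInt
    rw [Int.natAbs_pow, Int.natAbs_natCast, padicValNat.prime_pow]
  rw [h1, padicValInt.mul (by positivity) hb0, h3, h4, h5, add_zero]
  exact ⟨k + 2, by ring⟩

theorem Mb_even_cast {n : ℕ} (h : Even n) : ((n : ℕ) : ZMod 2) = 0 := by
  obtain ⟨k, rfl⟩ := h
  push_cast
  exact CharTwo.add_self_eq_zero _

theorem Mb_D_odd {a b : ℤ} (hab : Hyp a b) : ¬ ((2 : ℕ) : ℤ) ∣ a ^ 2 - 4 * b := by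
  have h1 := hab.a4
  obtain ⟨k, rfl⟩ : ∃ k, a = 4 * k + 1 := ⟨a / 4, by omega⟩
  rw [Nat.cast_ofNat]
  intro h
  have e1 : (4 * k + 1) ^ 2 - 4 * b = 2 * (8 * k ^ 2 + 4 * k - 2 * b) + 1 := by ring
  rw [e1] at h
  omega

theorem Mb_mem_Sg {a b : ℤ} {Pp Pp' : Finset ℕ} {τ : Bool} {v : HeightOneSpectrum (𝓞 K)} :
    v ∈ (LDof K a b Pp Pp' τ).Sg ↔ rp v ≠ 2 ∧ (rp v : ℤ) ∣ b * (a ^ 2 - 4 * b) := by
  change v ∈ ov K {q | q.Prime ∧ q ≠ 2 ∧ (q : ℤ) ∣ b * (a ^ 2 - 4 * b)} ↔ _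
  rw [mem_ov (fun q hq => hq.1)]
  constructor
  · intro h
    exact h.2
  · intro h
    exact ⟨rp_prime v, h⟩

theorem Mb_nr_ne {q : ℕ} (hq : q.Prime) (hq2 : q ≠ 2) : nr q ≠ 0 := by
  intro h0
  exact (nr_spec hq hq2).2 (h0 ▸ dvd_zero _)

theorem Mb_sqb {q : ℕ} (hq : q.Prime) (hq2 : q ≠ 2) {a b : ℤ}
    (h : (q : ℤ) ∣ a ^ 2 - 4 * b) : SqMod q b := by
  obtain ⟨k, hk⟩ := hq.odd_of_ne_two hq2
  refine ⟨a * (k + 1), ?_⟩
  obtain ⟨m, hm⟩ := h
  have hco : IsCoprime (q : ℤ) (4 : ℤ) := by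
    have h1 : Nat.Coprime q 4 := by
      have h2 : Nat.Coprime q (2 ^ 2) :=
        Nat.Coprime.pow_right 2 ((Nat.coprime_primes hq Nat.prime_two).2 hq2)
      exact h2
    have := Nat.isCoprime_iff_coprime.2 h1
    exact_mod_cast this
  refine hco.dvd_of_dvd_mul_left ?_
  have hqk : (q : ℤ) = 2 * k + 1 := by
    rw [hk]
    push_cast
    ring
  refine ⟨-m - a ^ 2 * (2 + (q : ℤ)), ?_⟩
  have e1 : 4 * (a * ((k : ℤ) + 1)) ^ 2 = a ^ 2 * ((q : ℤ) + 1) ^ 2 := by
    rw [hqk]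
    ring
  have e2 : 4 * (b - (a * ((k : ℤ) + 1)) ^ 2) = 4 * b - 4 * (a * ((k : ℤ) + 1)) ^ 2 := by ring
  rw [e2, e1]
  linear_combination (-1 : ℤ) * hm

theorem Mb_eo_ndvd [IsGalois ℚ K] (hodd : Odd (Module.finrank ℚ K)) {m : ℤ}
    {v : HeightOneSpectrum (𝓞 K)} (hm : ¬ (rp v : ℤ) ∣ m) : eo v (sc (m : K)) = 0 := by
  have h0 : m ≠ 0 := by
    rintro rfl
    exact hm (dvd_zero _)
  rw [eo_int hodd h0, padicValInt.eq_zero_of_not_dvd hm, Nat.cast_zero]

theorem Mb_good {l : ℕ} {a b : ℤ} (h : ¬ (l : ℤ) ∣ 2 * (b * (a ^ 2 - 4 * b))) :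
    l ≠ 2 ∧ ¬ (l : ℤ) ∣ b ∧ ¬ (l : ℤ) ∣ a ^ 2 - 4 * b := by
  refine ⟨?_, fun h' => h ((h'.mul_right _).mul_left _), fun h' => h ((h'.mul_left _).mul_left _)⟩
  rintro rfl
  exact h (by rw [Nat.cast_ofNat]; exact dvd_mul_right _ _)

theorem b_mem [IsGalois ℚ K] (hodd : Odd (Module.finrank ℚ K)) {a b : ℤ} (hab : Hyp a b)
    {Pp Pp' : Finset ℕ} {τ : Bool}
    (hP : ∀ l ∈ Pp, l.Prime ∧ ¬ (l : ℤ) ∣ 2 * (b * (a ^ 2 - 4 * b)) ∧ SqMod l b)
    (hP' : ∀ l ∈ Pp', l.Prime ∧ ¬ (l : ℤ) ∣ 2 * (b * (a ^ 2 - 4 * b))) (hτ : τ = false → 0 < b) :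
    sc ((b : ℤ) : K) ∈ XX (LDof K a b Pp Pp' τ) := by
  have hb0 := hab.ne.1
  have hbK : (b : K) ≠ 0 := by exact_mod_cast hb0
  refine ⟨?_, ?_, ?_, ?_⟩
  · intro v hv _
    rw [Mb_mem_Sg, not_and] at hv
    by_cases h2 : rp v = 2
    · rw [eo_int hodd hb0, h2]
      exact Mb_even_cast (Mb_even_b hab)
    · exact Mb_eo_ndvd hodd fun h => hv h2 (h.mul_right _)
  · intro v hv
    rw [Mb_mem_Sg] at hv
    have hq := rp_prime v
    have hodP : OddP v := oddP_iff.2 hv.1
    change tp v (sc (b : K)) (sc ((gI a b (rp v) : ℤ) : K)) = 0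
    unfold gI
    by_cases hqb : (rp v : ℤ) ∣ b
    · rw [if_pos hqb]
      by_cases he : Even (padicValInt (rp v) b)
      · rw [if_pos he]
        unfold tp
        rw [Mb_eo_ndvd hodd (nr_spec hq hv.1).2, eo_int hodd hb0, Mb_even_cast he]
        ring
      · rw [if_neg he, Int.cast_neg]
        exact tp_neg hodP hbK
    · rw [if_neg hqb]
      have hqD : (rp v : ℤ) ∣ a ^ 2 - 4 * b :=
        ((Nat.prime_iff_prime_int.1 hq).dvd_or_dvd hv.2).resolve_left hqb
      have h1 : eo v (sc (b : K)) = 0 := Mb_eo_ndvd hodd hqb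
      have h2 : la v (sc (b : K)) = 0 := (la_int hodd hodP hqb).2 (Mb_sqb hq hv.1 hqD)
      unfold tp
      rw [h1, h2]
      ring
  · intro v hv
    have hv' : rp v ∈ (Pp : Set ℕ) := (mem_ov (fun q hq => (hP q (Finset.mem_coe.1 hq)).1)).1 hv
    obtain ⟨_, h2, h3⟩ := hP _ (Finset.mem_coe.1 hv')
    obtain ⟨h4, h5, _⟩ := Mb_good h2
    exact (la_int hodd (oddP_iff.2 h4) h5).2 h3
  · intro ht w
    rw [si_sc w hbK]
    unfold sw
    rw [if_neg]
    rw [map_intCast, not_lt]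
    exact_mod_cast (hτ ht).le

theorem Mb_val_one {v : HeightOneSpectrum (𝓞 K)} {m : ℤ} (h : ¬ (rp v : ℤ) ∣ m) :
    v.valuation K (m : K) = 1 := by
  have h2 : (m : 𝓞 K) ∉ v.asIdeal := fun h' => h ((mem_iff_int m).1 h')
  have h3 := (v.valuation_eq_one_iff_notMem (K := K) (r := (m : 𝓞 K))).mpr h2
  rwa [map_intCast] at h3

theorem Mb_val_le {v : HeightOneSpectrum (𝓞 K)} (m : ℤ) : v.valuation K (m : K) ≤ 1 := by
  have h2 := v.valuation_le_one (K := K) (m : 𝓞 K)
  change v.valuation K (algebraMap (𝓞 K) K (m : 𝓞 K)) ≤ 1 at h2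
  rwa [map_intCast] at h2

theorem Mb_val_lt {v : HeightOneSpectrum (𝓞 K)} {m : ℤ} (h : (rp v : ℤ) ∣ m) :
    v.valuation K (m : K) < 1 := by
  have h2 := (v.valuation_lt_one_iff_mem (K := K) (m : 𝓞 K)).2 ((mem_iff_int m).2 h)
  change v.valuation K (algebraMap (𝓞 K) K (m : 𝓞 K)) < 1 at h2
  rwa [map_intCast] at h2

theorem Mb_pv_one {q : ℕ} (hq : q.Prime) {m m' : ℤ} (h : m = q * m') (h' : ¬ (q : ℤ) ∣ m') :
    padicValInt q m = 1 := by
  have : Fact q.Prime := ⟨hq⟩
  have h0 : m' ≠ 0 := by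
    rintro rfl
    exact h' (dvd_zero _)
  rw [h, padicValInt.mul (by exact_mod_cast hq.ne_zero) h0, padicValInt.eq_zero_of_not_dvd h',
    add_zero]
  exact padicValInt_self

theorem D_mem [IsGalois ℚ K] (hodd : Odd (Module.finrank ℚ K)) {a b : ℤ} (hab : Hyp a b)
    {Pp Pp' : Finset ℕ} {τ : Bool}
    (hP : ∀ l ∈ Pp, l.Prime ∧ ¬ (l : ℤ) ∣ 2 * (b * (a ^ 2 - 4 * b)))
    (hP' : ∀ l ∈ Pp', l.Prime ∧ ¬ (l : ℤ) ∣ 2 * (b * (a ^ 2 - 4 * b)) ∧
      SqMod l (a ^ 2 - 4 * b)) (hτ : τ = true → 4 * b < a ^ 2) :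
    sc ((a ^ 2 - 4 * b : ℤ) : K) ∈ XX' (LDof K a b Pp Pp' τ) := by
  have hb0 := hab.ne.1
  have hbK : (b : K) ≠ 0 := by exact_mod_cast hb0
  have hD0 := hab.ne.2
  have hDK : ((a ^ 2 - 4 * b : ℤ) : K) ≠ 0 := by exact_mod_cast hD0
  refine ⟨?_, ?_, ?_, ?_, ?_⟩
  · intro v hv _
    rw [Mb_mem_Sg, not_and] at hv
    by_cases h2 : rp v = 2
    · refine Mb_eo_ndvd hodd ?_
      rw [h2]
      exact Mb_D_odd hab
    · exact Mb_eo_ndvd hodd fun h => hv h2 (h.mul_left _)
  · intro v hv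
    rw [pri_sc hv hDK]
    have h2 : rp v = 2 := by
      by_contra h
      exact hv (oddP_iff.2 h)
    refine ⟨1, (a : K), (b : K), one_ne_zero, Mb_val_one ?_, Mb_val_le b, ?_⟩
    · rw [h2, Nat.cast_ofNat]
      have := hab.a4
      omega
    · push_cast
      ring
  · intro v hv
    rw [Mb_mem_Sg] at hv
    have hq := rp_prime v
    have hqp := Nat.prime_iff_prime_int.1 hq
    have hodP : OddP v := oddP_iff.2 hv.1
    change (eo v (sc ((a ^ 2 - 4 * b : ℤ) : K)) = 0 ∧ la v (sc ((a ^ 2 - 4 * b : ℤ) : K)) = 0) ∨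
      (eo v (sc ((a ^ 2 - 4 * b : ℤ) : K)) = eo v (sc ((gI a b (rp v) : ℤ) : K)) ∧
        la v (sc ((a ^ 2 - 4 * b : ℤ) : K)) = la v (sc ((gI a b (rp v) : ℤ) : K)))
    have hndvd4 : ¬ (rp v : ℤ) ∣ 4 := by
      intro h
      have h1 : rp v ∣ 2 ^ 2 := by exact_mod_cast h
      exact hv.1 ((Nat.prime_dvd_prime_iff_eq hq Nat.prime_two).1 (hq.dvd_of_dvd_pow h1))
    by_cases hqb : (rp v : ℤ) ∣ b
    · by_cases hqa : (rp v : ℤ) ∣ a
      · right
        have hmini := hab.mini (rp v) hq hqa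
        obtain ⟨b', hb'⟩ := hqb
        obtain ⟨a', ha'⟩ := hqa
        have hnb' : ¬ (rp v : ℤ) ∣ b' := by
          rintro ⟨c, hc⟩
          exact hmini ⟨c, by rw [hb', hc]; ring⟩
        have hpb : padicValInt (rp v) b = 1 := Mb_pv_one hq hb' hnb'
        have hgI : gI a b (rp v) = -b := by
          unfold gI
          rw [if_pos ⟨b', hb'⟩, if_neg]
          rw [hpb]
          decide
        rw [hgI]
        have hDe : a ^ 2 - 4 * b = (rp v : ℤ) * ((rp v : ℤ) * a' ^ 2 - 4 * b') := by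
          rw [hb', ha']
          ring
        have hpD : padicValInt (rp v) (a ^ 2 - 4 * b) = 1 := by
          refine Mb_pv_one hq hDe ?_
          intro h
          have h1 : (rp v : ℤ) ∣ 4 * b' := by
            have h2 := dvd_sub (Dvd.intro (a' ^ 2) rfl : (rp v : ℤ) ∣ (rp v : ℤ) * a' ^ 2) h
            have e : (rp v : ℤ) * a' ^ 2 - ((rp v : ℤ) * a' ^ 2 - 4 * b') = 4 * b' := by ring
            rwa [e] at h2
          rcases hqp.dvd_or_dvd h1 with h2 | h2
          · exact hndvd4 h2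
          · exact hnb' h2
        have hpnb : padicValInt (rp v) (-b) = 1 :=
          Mb_pv_one hq (m' := -b') (by rw [hb']; ring) (by rwa [dvd_neg])
        constructor
        · rw [eo_int hodd hD0, eo_int hodd (neg_ne_zero.2 hb0), hpD, hpnb]
        · -- the quotient is a unit which is a square
          set x : K := 4 - (a : K) ^ 2 / b with hx
          have hb'0 : b' ≠ 0 := by
            rintro rfl
            exact hnb' (dvd_zero _)
          have hb'K : (b' : K) ≠ 0 := by exact_mod_cast hb'0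
          have hrpK : ((rp v : ℤ) : K) ≠ 0 := by exact_mod_cast hq.ne_zero
          have hx4 : (x - 2 ^ 2 : K) = -(((rp v * a' ^ 2 : ℤ) : K) / (b' : K)) := by
            have hbe : (b : K) = ((rp v : ℤ) : K) * (b' : K) := by
              rw [hb']
              push_cast
              ring
            have hae : (a : K) = ((rp v : ℤ) : K) * (a' : K) := by
              rw [ha']
              push_cast
              ring
            rw [hx, hbe, hae]
            push_cast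
            push_cast at hrpK
            field_simp
            ring
          have hVx4 : v.valuation K (x - 2 ^ 2) < 1 := by
            rw [hx4, Valuation.map_neg, map_div₀, Mb_val_one hnb', div_one]
            exact Mb_val_lt (dvd_mul_right _ _)
          have hV2 : v.valuation K (2 : K) = 1 := hodP
          have hVx : v.valuation K x = 1 := by
            have e : x = 2 ^ 2 + (x - 2 ^ 2) := by ring
            have h22 : v.valuation K ((2 : K) ^ 2) = 1 := by rw [map_pow, hV2, one_pow]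
            rw [e, Valuation.map_add_eq_of_lt_left _ (by rw [h22]; exact hVx4), h22]
          have hx0 : x ≠ 0 := by
            intro h0
            rw [h0, map_zero] at hVx
            exact zero_ne_one hVx
          have hmul : ((a ^ 2 - 4 * b : ℤ) : K) = (((-b : ℤ) : K)) * x := by
            rw [hx]
            push_cast
            field_simp
            ring
          have hnbK : (((-b : ℤ) : K)) ≠ 0 := by
            rw [Int.cast_neg]
            exact neg_ne_zero.2 hbK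
          rw [hmul, sc_mul hnbK hx0, la_add hodP, la_sc hodP hx0, lam_unit hVx,
            if_pos ⟨2, hVx4⟩, add_zero]
      · left
        have hnD : ¬ (rp v : ℤ) ∣ a ^ 2 - 4 * b := by
          intro h
          have h1 : (rp v : ℤ) ∣ a ^ 2 := by
            have h2 := dvd_add h (hqb.mul_left 4)
            have e : a ^ 2 - 4 * b + 4 * b = a ^ 2 := by ring
            rwa [e] at h2
          exact hqa (hqp.dvd_of_dvd_pow h1)
        refine ⟨Mb_eo_ndvd hodd hnD, (la_int hodd hodP hnD).2 ⟨a, ?_⟩⟩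
        have e : a ^ 2 - 4 * b - a ^ 2 = -(4 * b) := by ring
        rw [e, dvd_neg]
        exact hqb.mul_left 4
    · have hqD : (rp v : ℤ) ∣ a ^ 2 - 4 * b :=
        (hqp.dvd_or_dvd hv.2).resolve_left hqb
      by_cases he : Even (padicValInt (rp v) (a ^ 2 - 4 * b))
      · have hgI : gI a b (rp v) = nr (rp v) := by
          unfold gI
          rw [if_neg hqb, if_pos he]
        rw [hgI]
        have h1 : eo v (sc ((a ^ 2 - 4 * b : ℤ) : K)) = 0 := by
          rw [eo_int hodd hD0]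
          exact Mb_even_cast he
        rcases zmod_two (la v (sc ((a ^ 2 - 4 * b : ℤ) : K))) with h2 | h2
        · exact Or.inl ⟨h1, h2⟩
        · right
          obtain ⟨h3, h4⟩ := nr_spec hq hv.1
          refine ⟨by rw [h1, Mb_eo_ndvd hodd h4], ?_⟩
          rw [h2]
          rcases zmod_two (la v (sc ((nr (rp v) : ℤ) : K))) with h5 | h5
          · exact absurd ((la_int hodd hodP h4).1 h5) h3
          · exact h5.symm
      · right
        have hgI : gI a b (rp v) = a ^ 2 - 4 * b := by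
          unfold gI
          rw [if_neg hqb, if_neg he]
        rw [hgI]
        exact ⟨rfl, rfl⟩
  · intro v hv
    have hv' : rp v ∈ (Pp' : Set ℕ) := (mem_ov (fun q hq => (hP' q (Finset.mem_coe.1 hq)).1)).1 hv
    obtain ⟨_, h2, h3⟩ := hP' _ (Finset.mem_coe.1 hv')
    obtain ⟨h4, _, h5⟩ := Mb_good h2
    exact (la_int hodd (oddP_iff.2 h4) h5).2 h3
  · intro ht w
    rw [si_sc w hDK]
    unfold sw
    rw [if_neg]
    rw [map_intCast, not_lt]
    have := hτ ht
    exact_mod_cast (by linarith : (0 : ℤ) ≤ a ^ 2 - 4 * b)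

theorem Mb_above {l : ℕ} (hl : l.Prime) : ∃ v : HeightOneSpectrum (𝓞 K), rp v = l := by
  have hp : (Ideal.span {(l : ℤ)}).IsPrime :=
    (Ideal.span_singleton_prime (by exact_mod_cast hl.ne_zero)).2 (Nat.prime_iff_prime_int.1 hl)
  obtain ⟨⟨P, hP1, hP2⟩⟩ := Ideal.nonempty_primesOver (S := 𝓞 K) (Ideal.span {(l : ℤ)})
  have hmem : (l : 𝓞 K) ∈ P := by
    have h1 : (l : ℤ) ∈ Ideal.span {(l : ℤ)} := Ideal.mem_span_singleton_self _
    rw [hP2.over, Ideal.under_def, Ideal.mem_comap] at h1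
    simpa using h1
  refine ⟨⟨P, hP1, ?_⟩, ?_⟩
  · rintro rfl
    rw [Ideal.mem_bot] at hmem
    exact hl.ne_zero (by exact_mod_cast hmem)
  · exact (mem_iff_eq hl).1 hmem

theorem Mb_square {m : ℤ} (hm : 0 < m) (h : ∀ q : ℕ, q.Prime → Even (padicValInt q m)) :
    IsSquare m := by
  obtain ⟨n, rfl⟩ := Int.eq_ofNat_of_zero_le hm.le
  obtain ⟨s, t, h1, h2⟩ := Nat.sq_mul_squarefree n
  have hn0 : n ≠ 0 := by
    rintro rfl
    exact lt_irrefl _ hm
  have hs : s = 1 := by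
    by_contra hs
    obtain ⟨q, hq, hqs⟩ := Nat.exists_prime_and_dvd hs
    have : Fact q.Prime := ⟨hq⟩
    obtain ⟨s', rfl⟩ := hqs
    have ht0 : t ≠ 0 := by
      rintro rfl
      rw [zero_pow two_ne_zero, zero_mul] at h1
      exact hn0 h1.symm
    have hs0 : q * s' ≠ 0 := by
      intro h0
      rw [h0, mul_zero] at h1
      exact hn0 h1.symm
    have hs'0 : s' ≠ 0 := fun h0 => hs0 (by rw [h0, mul_zero])
    have hqs' : ¬ q ∣ s' := by
      rintro ⟨c, rfl⟩
      have := h2 q ⟨c, by ring⟩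
      exact hq.one_lt.ne' (Nat.isUnit_iff.1 this)
    have h3 := h q hq
    unfold padicValInt at h3
    rw [Int.natAbs_natCast, ← h1, padicValNat.mul (pow_ne_zero 2 ht0) hs0, padicValNat.pow t 2,
      padicValNat.mul hq.ne_zero hs'0, padicValNat.self hq.one_lt,
      padicValNat.eq_zero_of_not_dvd hqs', add_zero] at h3
    have h4 : ¬ Even (2 * padicValNat q t + 1) := by
      rw [Nat.not_even_iff_odd]
      exact ⟨_, rfl⟩
    exact h4 h3
  rw [hs, mul_one] at h1
  exact ⟨(t : ℤ), by rw [← h1]; push_cast; ring⟩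

theorem D_notin [IsGalois ℚ K] (hodd : Odd (Module.finrank ℚ K)) {a b : ℤ} (hab : Hyp a b)
    (S : Set (HeightOneSpectrum (𝓞 K))) : sc ((a ^ 2 - 4 * b : ℤ) : K) ∉ NS S := by
  rintro ⟨h1, _, h3⟩
  have hD0 := hab.ne.2
  have hDK : ((a ^ 2 - 4 * b : ℤ) : K) ≠ 0 := by exact_mod_cast hD0
  apply hab.nD
  refine Mb_square ?_ ?_
  · have hTR : IsTotallyReal K := isTR hodd
    obtain ⟨w⟩ := (inferInstance : Nonempty (InfinitePlace K))
    have hw := h3 (InfinitePlace.embedding_of_isReal (hTR.isReal w))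
    rw [si_sc _ hDK] at hw
    unfold sw at hw
    rw [map_intCast] at hw
    by_contra hneg
    rw [if_pos (by exact_mod_cast lt_of_le_of_ne (not_lt.1 hneg) hD0)] at hw
    exact one_ne_zero hw
  · intro q hq
    obtain ⟨v, hv⟩ := Mb_above (K := K) hq
    have h4 := h1 v
    rw [eo_int hodd hD0, hv] at h4
    rw [even_iff_two_dvd]
    exact (ZMod.natCast_eq_zero_iff _ _).1 h4

theorem sc_ne (hodd : Odd (Module.finrank ℚ K)) {a b : ℤ} (hab : Hyp a b) :
    sc ((b : ℤ) : K) ≠ 0 ∧ sc ((a ^ 2 - 4 * b : ℤ) : K) ≠ 0 ∧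
      sc ((b : ℤ) : K) ≠ sc ((a ^ 2 - 4 * b : ℤ) : K) := by
  have hb0 := hab.ne.1
  have hD0 := hab.ne.2
  have hbK : (b : K) ≠ 0 := by exact_mod_cast hb0
  have hDK : ((a ^ 2 - 4 * b : ℤ) : K) ≠ 0 := by exact_mod_cast hD0
  refine ⟨sq_int hodd hb0 hab.nb, sq_int hodd hD0 hab.nD, fun h => ?_⟩
  refine sq_int (K := K) hodd (mul_ne_zero hb0 hD0) hab.nbD ?_
  rw [Int.cast_mul, sc_mul hbK hDK, ← h]
  have h1 := SC.two_smul (sc (b : K))
  rw [two_nsmul] at h1
  exact h1

end H38T1
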