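import Pool.Agent.H38.T1.Ma

/-!
Row Md. (about 160 lines): the first group is a G-stable subgroup, and the number of places above split primes.
XX_add: eo_add, tp_add_left (v in Sg is odd: Good.oddSg), la_add (Good.oddP), si_add, eo_zero, la_zero, si_zero, tp v 0 g = 0; negation: - c = c in SC K (2 . c = 0).
XX_smul: for v: apply the condition at gamma^-1 . v and eo_smul / tp_smul (use LDof_g: g (gamma^-1 v) = g v and gamma . g v = g v) / la_smul (eo of c is zero at P: v in P is neither in Sg nor in P' by disjointness) / si_smul; the sets Sg, P, P' are stable (ov_smul).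
exists_above: a prime number l is not a unit of 𝓞 K: a maximal ideal containing it (not zero as l <> 0).
trans_above: the Galois group acts transitively on the primes above l (Mathlib: Ideal.exists_map_eq_of_isGalois or the IsPretransitive instance; Ideal.isInvariant...): translate to gamma . v = w with mem_mv.
ncard_ov: for l in Pp the set of the places above l is the orbit of one of them with trivial stabilizer (Spl), so it has card Gal = finrank elements (IsGalois.card_aut_eq_finrank, MulAction.orbitEquivQuotientStabilizer or an injection gamma -> gamma . v); the sets for different l are disjoint (mem_iff_eq); Finset sum / Set.ncard of a biUnion.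
-/

set_option autoImplicit false
set_option linter.unusedSectionVars false
open scoped Classical

open WithZero NumberField IsDedekindDomain H38RT

namespace H38T1

variable {K : Type} [Field K] [NumberField K]

theorem Md_tp_zero {v : HeightOneSpectrum (𝓞 K)} (hv : OddP v) (d : SC K) : tp v 0 d = 0 := by
  unfold tp
  rw [eo_zero, la_zero hv]
  ring

theorem Md_neg (c : SC K) : -c = c := by
  have h : c + c = 0 := (two_nsmul c).symm.trans (SC.two_smul c)
  exact @neg_eq_of_add_eq_zero_left (SC K) _ c c h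

theorem XX_add {L : LD K} (hL : L.Good) : ∃ H : AddSubgroup (SC K), (H : Set (SC K)) = XX L := by
  refine ⟨{ carrier := XX L, add_mem' := ?_, zero_mem' := ?_, neg_mem' := ?_ }, rfl⟩
  · rintro c c' ⟨h1, h2, h3, h4⟩ ⟨h1', h2', h3', h4'⟩
    refine ⟨fun v a b => ?_, fun v a => ?_, fun v a => ?_, fun a w => ?_⟩
    · rw [eo_add, h1 v a b, h1' v a b, add_zero]
    · rw [tp_add_left (hL.oddSg v a), h2 v a, h2' v a, add_zero]
    · rw [la_add (hL.oddP v a), h3 v a, h3' v a, add_zero]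
    · rw [si_add, h4 a w, h4' a w, add_zero]
  · refine ⟨fun v a b => eo_zero v, fun v a => Md_tp_zero (hL.oddSg v a) _,
      fun v a => la_zero (hL.oddP v a), fun a w => si_zero w⟩
  · intro c hc
    rw [Md_neg]
    exact hc

theorem XX_smul [IsGalois ℚ K] (hodd : Odd (Module.finrank ℚ K)) {a b : ℤ} (hab : Hyp a b)
    {Pp Pp' : Finset ℕ} {τ : Bool} (hL : (LDof K a b Pp Pp' τ).Good) (γ : K ≃ₐ[ℚ] K) {c : SC K}
    (hc : c ∈ XX (LDof K a b Pp Pp' τ)) : γ • c ∈ XX (LDof K a b Pp Pp' τ) := by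
  obtain ⟨h1, h2, h3, h4⟩ := hc
  have key : ∀ v : HeightOneSpectrum (𝓞 K), ∃ w : HeightOneSpectrum (𝓞 K), v = γ • w :=
    fun v => ⟨γ⁻¹ • v, by rw [smul_inv_smul]⟩
  refine ⟨fun v hv hv' => ?_, fun v hv => ?_, fun v hv => ?_, fun ht w => ?_⟩
  · obtain ⟨w, rfl⟩ := key v
    rw [eo_smul]
    exact h1 w (fun h => hv ((ov_smul γ).2 h)) (fun h => hv' ((ov_smul γ).2 h))
  · obtain ⟨w, rfl⟩ := key v
    have hw : w ∈ (LDof K a b Pp Pp' τ).Sg := (ov_smul γ).1 hv
    obtain ⟨g1, g2⟩ := LDof_g (Pp := Pp) (Pp' := Pp') (τ := τ) hab γ w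
    rw [g1]
    conv_lhs => rw [← g2]
    rw [tp_smul γ (hL.oddSg w hw)]
    exact h2 w hw
  · obtain ⟨w, rfl⟩ := key v
    have hw : w ∈ (LDof K a b Pp Pp' τ).P := (ov_smul γ).1 hv
    have e : eo w c = 0 := h1 w (fun h => Set.disjoint_left.1 hL.d1 h hw)
      (fun h => Set.disjoint_left.1 hL.d3 hw h)
    rw [la_smul γ (hL.oddP w hw) e]
    exact h3 w hw
  · rw [si_smul]
    exact h4 ht _

theorem Md_span_ne {l : ℕ} (hl : l.Prime) : Ideal.span {(l : 𝓞 K)} ≠ ⊤ := by
  intro h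
  have h1 := Ideal.absNorm_span_natCast (S := 𝓞 K) l
  rw [h, Ideal.absNorm_top] at h1
  have h2 : 0 < Module.finrank ℤ (𝓞 K) := Module.finrank_pos
  have h3 := (Nat.pow_eq_one.1 h1.symm)
  rcases h3 with h3 | h3
  · exact hl.one_lt.ne' h3
  · omega

theorem exists_above {l : ℕ} (hl : l.Prime) :
    ∃ v : HeightOneSpectrum (𝓞 K), (l : 𝓞 K) ∈ v.asIdeal := by
  obtain ⟨M, hM, hle⟩ := Ideal.exists_le_maximal _ (Md_span_ne (K := K) hl)
  have hmem : (l : 𝓞 K) ∈ M := hle (Ideal.mem_span_singleton_self _)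
  refine ⟨⟨M, hM.isPrime, ?_⟩, hmem⟩
  rintro rfl
  rw [Ideal.mem_bot] at hmem
  exact hl.ne_zero (by exact_mod_cast hmem)

open scoped Pointwise in
theorem trans_above [IsGalois ℚ K] {l : ℕ} (hl : l.Prime) {v w : HeightOneSpectrum (𝓞 K)}
    (hv : (l : 𝓞 K) ∈ v.asIdeal) (hw : (l : 𝓞 K) ∈ w.asIdeal) :
    ∃ γ : K ≃ₐ[ℚ] K, γ • v = w := by
  have hl' : Prime (l : ℤ) := Nat.prime_iff_prime_int.1 hl
  have h1 : v.asIdeal.LiesOver (Ideal.span {(l : ℤ)}) :=
    (Ideal.liesOver_span_iff v.isPrime.ne_top hl').2 (by exact_mod_cast hv)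
  have h2 : w.asIdeal.LiesOver (Ideal.span {(l : ℤ)}) :=
    (Ideal.liesOver_span_iff w.isPrime.ne_top hl').2 (by exact_mod_cast hw)
  obtain ⟨σ, hσ⟩ := Ideal.exists_smul_eq_of_isGaloisGroup (Ideal.span {(l : ℤ)}) v.asIdeal
    w.asIdeal (K ≃ₐ[ℚ] K)
  refine ⟨σ, ?_⟩
  apply HeightOneSpectrum.ext
  rw [← hσ]
  ext x
  rw [Ideal.mem_pointwise_smul_iff_inv_smul_mem]
  change gO σ⁻¹ x ∈ v.asIdeal ↔ _
  have h3 : gO σ⁻¹ x = σ⁻¹ • x := by
    apply RingOfIntegers.ext
    rfl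
  rw [h3]

theorem ncard_ov [IsGalois ℚ K] {Pp : Finset ℕ} (h : ∀ l ∈ Pp, Spl K l) :
    (ov K (Pp : Set ℕ)).ncard = Pp.card * Module.finrank ℚ K := by
  have hne : Nonempty (HeightOneSpectrum (𝓞 K)) := ⟨(exists_above Nat.prime_two).choose⟩
  choose! v0 hv0 using (fun l (hl : l ∈ Pp) => exists_above (K := K) (h l hl).1)
  have himg : ov K (Pp : Set ℕ) = (fun q : ℕ × (K ≃ₐ[ℚ] K) => q.2 • v0 q.1) ''
      ((Pp ×ˢ (Finset.univ : Finset (K ≃ₐ[ℚ] K)) : Finset _) : Set (ℕ × (K ≃ₐ[ℚ] K))) := by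
    ext v
    constructor
    · rintro ⟨l, hl, hlv⟩
      obtain ⟨γ, hγ⟩ := trans_above (h l hl).1 (hv0 l hl) hlv
      exact ⟨(l, γ), by
        rw [Finset.mem_coe, Finset.mem_product]
        exact ⟨hl, Finset.mem_univ _⟩, hγ⟩
    · rintro ⟨⟨l, γ⟩, hq, rfl⟩
      rw [Finset.mem_coe, Finset.mem_product] at hq
      exact ⟨l, hq.1, (mem_smul_nat γ (v0 l) l).2 (hv0 l hq.1)⟩
  rw [himg, Set.ncard_image_of_injOn, Set.ncard_coe_finset, Finset.card_product, Finset.card_univ,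
    ← Nat.card_eq_fintype_card, IsGalois.card_aut_eq_finrank]
  rintro ⟨l, γ⟩ hq ⟨l', γ'⟩ hq' heq
  rw [Finset.mem_coe, Finset.mem_product] at hq hq'
  have heq' : γ • v0 l = γ' • v0 l' := heq
  have e1 : rp (γ • v0 l) = l :=
    (mem_iff_eq (h l hq.1).1).1 ((mem_smul_nat γ (v0 l) l).2 (hv0 l hq.1))
  have e2 : rp (γ' • v0 l') = l' :=
    (mem_iff_eq (h l' hq'.1).1).1 ((mem_smul_nat γ' (v0 l') l').2 (hv0 l' hq'.1))
  have e3 : l = l' := by rw [← e1, heq', e2]
  subst e3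
  have e4 : (γ'⁻¹ * γ) • v0 l = v0 l := by
    rw [mul_smul, heq', inv_smul_smul]
  have e5 := ((h l hq.1).2.2 (v0 l) (hv0 l hq.1)).2 _ e4
  have e6 : γ = γ' := by
    rw [inv_mul_eq_one] at e5
    exact e5.symm
  rw [e6]

end H38T1
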