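import Pool.Agent.H38.T1.Tw
import Pool.Agent.H24.TD.En
import Pool.Agent.H24.TD.Fi
import Pool.Agent.H24.TD.Gx

/-!
Block S (PI helper24): finiteness, the Greenberg-Wiles formula and the embedding (proofs in
`Pool/Agent/H24/TD`).
-/

set_option autoImplicit false
open scoped Classical

open WithZero NumberField IsDedekindDomain H38RT

namespace H38T1

variable {K : Type} [Field K] [NumberField K]

/-- The classes of even order outside a finite set are finite in number. -/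
theorem fin_US {S : Set (HeightOneSpectrum (𝓞 K))} (hS : S.Finite) :
    {c : SC K | ∀ v, v ∉ S → eo v c = 0}.Finite :=
  H24TD.fin_US hS

/-- The Greenberg-Wiles formula. -/
theorem gw [IsTotallyReal K] {L : LD K} (hL : L.Good)
    (hN : NS (L.Sg ∪ L.P ∪ L.P') ⊆ {(0 : SC K)}) :
    (XX' L).ncard * 2 ^ (L.P'.ncard + (if L.τ = true then Module.finrank ℚ K else 0)) =
      (XX L).ncard * 2 ^ L.P.ncard :=
  H24TD.gw hL hN

/-- The first group modulo `b` is a free module over the group ring. -/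
theorem embed [IsGalois ℚ K] (hodd : Odd (Module.finrank ℚ K)) {L : LD K} (hL : L.Good)
    (hP : L.P = ∅) (hN : NS (L.Sg ∪ L.P') ⊆ {(0 : SC K)})
    (hSg : ∀ (γ : K ≃ₐ[ℚ] K), ∀ v ∈ L.Sg, γ • v ∈ L.Sg)
    (hg : ∀ (γ : K ≃ₐ[ℚ] K), ∀ v, L.g (γ • v) = L.g v ∧ γ • L.g v = L.g v)
    (hP' : ∀ (γ : K ≃ₐ[ℚ] K), ∀ v ∈ L.P', γ • v ∈ L.P')
    (hfree : ∀ (γ : K ≃ₐ[ℚ] K), ∀ v ∈ L.P', γ • v = v → γ = 1) {m' : ℕ}
    (hm : L.P'.ncard = m' * Module.finrank ℚ K) {b δ : SC K} (hD : ∃ d, d ≠ 0 ∧ XX' L = {0, d})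
    (hb : b ∈ XX L) (hb0 : b ≠ 0) (hbγ : ∀ γ : K ≃ₐ[ℚ] K, γ • b = b) (hδ0 : δ ≠ 0) (hδb : δ ≠ b)
    (hδγ : ∀ γ : K ≃ₐ[ℚ] K, γ • δ = δ) :
    ∃ φ : Fin (m' + (if L.τ = true then 1 else 0)) → (SC K →+ ZMod 2), (∀ j, φ j b = 0) ∧
      (∀ c ∈ XX L, (∀ j, ∀ γ : K ≃ₐ[ℚ] K, φ j (γ • c) = 0) → c = 0 ∨ c = b) ∧
      (δ ∈ XX L → ∀ j, φ j δ = 1) :=
  H24TD.embed hodd hL hP hN hSg hg hP' hfree hm hD hb hb0 hbγ hδ0 hδb hδγ

end H38T1
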