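import Pool.Agent.H38.T1.Mb
import Pool.Agent.H38.T1.Mc
import Pool.Agent.H38.T1.Md
import Pool.Agent.H38.T1.Sa

/-!
Assembly: the choice of the primes (helper38).
-/

set_option autoImplicit false
set_option linter.unusedSectionVars false
open scoped Classical

open WithZero NumberField IsDedekindDomain H38RT

namespace H38T1

variable {K : Type} [Field K] [NumberField K]

theorem eo_int_unit [IsGalois ℚ K] (hodd : Odd (Module.finrank ℚ K)) {m : ℤ}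
    {v : HeightOneSpectrum (𝓞 K)} (hm : ¬ (rp v : ℤ) ∣ m) : eo v (sc (m : K)) = 0 := by
  have h0 : m ≠ 0 := by
    rintro rfl
    exact hm (dvd_zero _)
  rw [eo_int hodd h0, padicValInt.eq_zero_of_not_dvd hm, Nat.cast_zero]

/-- The primes which divide `2 b D`. -/
noncomputable def badS (a b : ℤ) : Finset ℕ := (2 * (b * (a ^ 2 - 4 * b))).natAbs.primeFactors

lemma not_dvd_of_notMem {a b : ℤ} (hab : Hyp a b) {l : ℕ} (hl : l.Prime) (h : l ∉ badS a b) :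
    ¬ (l : ℤ) ∣ 2 * (b * (a ^ 2 - 4 * b)) := by
  intro h1
  apply h
  unfold badS
  rw [Nat.mem_primeFactors]
  refine ⟨hl, Int.natCast_dvd.1 h1, ?_⟩
  rw [Int.natAbs_ne_zero]
  exact mul_ne_zero two_ne_zero (mul_ne_zero hab.ne.1 hab.ne.2)

theorem main_sel [IsGalois ℚ K] (hodd : Odd (Module.finrank ℚ K)) {a b : ℤ} (hab : Hyp a b)
    {J : ℕ → Prop} (hJ : Adm K J) (τ : Bool) (h0 : τ = false → 0 < b)
    (h1 : τ = true → 4 * b < a ^ 2) : ∃ Pp Pp' : Finset ℕ, Disjoint Pp Pp' ∧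
      (∀ l ∈ Pp, l.Prime ∧ ¬ (l : ℤ) ∣ 2 * (b * (a ^ 2 - 4 * b)) ∧ SqMod l b ∧
        ¬ SqMod l (a ^ 2 - 4 * b) ∧ J l) ∧
      (∀ l ∈ Pp', l.Prime ∧ ¬ (l : ℤ) ∣ 2 * (b * (a ^ 2 - 4 * b)) ∧ ¬ SqMod l b ∧
        SqMod l (a ^ 2 - 4 * b) ∧ J l) ∧
      Pp.card = Pp'.card + (if τ = true then 1 else 0) ∧
      XX (LDof K a b Pp Pp' τ) ⊆ {0, sc ((b : ℤ) : K)} ∧
      XX' (LDof K a b Pp Pp' τ) ⊆ {0, sc ((a ^ 2 - 4 * b : ℤ) : K)} := by
  have : IsTotallyReal K := isTR hodd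
  set B : SC K := sc ((b : ℤ) : K) with hB
  set D : SC K := sc ((a ^ 2 - 4 * b : ℤ) : K) with hD
  obtain ⟨hB0, hD0, hBD⟩ := sc_ne (K := K) hodd hab
  -- step 0
  set L₀ := LDof K a b ∅ ∅ τ with hL₀
  have hG0 : L₀.Good := LDof_good hodd hab (Finset.disjoint_empty_left _) (by simp) (by simp)
  have hfin0 : ((XX' L₀ ∪ NS L₀.Sg) \ {0, D}).Finite := by
    refine ((fin_US hG0.finSg).subset ?_).subset Set.sdiff_subset
    rintro c (hc | hc)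
    · intro v hv
      refine hc.1 v hv ?_
      rintro ⟨q, hq, _⟩
      simp at hq
    · intro v _
      exact hc.1 v
  set T : Finset (SC K) := hfin0.toFinset with hT
  have memT : ∀ c, c ∈ T ↔ (c ∈ XX' L₀ ∨ c ∈ NS L₀.Sg) ∧ c ≠ 0 ∧ c ≠ D := by
    intro c
    rw [hT, Set.Finite.mem_toFinset]
    simp only [Set.mem_sdiff, Set.mem_union, Set.mem_insert_iff, Set.mem_singleton_iff, not_or]
  -- step 1
  have hΦ : ∀ z ∈ T, ∃ Φ : SC K →+ ZMod 2, Φ D = 0 ∧ Φ B = 1 ∧ Φ z = 1 := by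
    intro z hz
    have hz' := ((memT z).1 hz).2
    exact exists_fun1 hB0 hBD hz'.1 hz'.2
  choose! Φ hΦD hΦB hΦz using hΦ
  obtain ⟨f, hfinj, hf⟩ := choose_inj T (fun z => {p : ℕ | Spl K p ∧ J p ∧
    ∃ v : HeightOneSpectrum (𝓞 K), (p : 𝓞 K) ∈ v.asIdeal ∧
      ∀ y ∈ ({z, B, D} : Finset (SC K)), eo v y = 0 ∧ la v y = Φ z y}) (fun z _ => hJ.cheb _ _)
    (badS a b)
  set Pp' : Finset ℕ := T.image f with hPp'
  have hP'1 : ∀ l ∈ Pp', Spl K l ∧ J l ∧ ¬ (l : ℤ) ∣ 2 * (b * (a ^ 2 - 4 * b)) := by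
    intro l hl
    obtain ⟨z, hz, rfl⟩ := Finset.mem_image.1 hl
    obtain ⟨⟨h2, h3, _⟩, h4⟩ := hf z hz
    exact ⟨h2, h3, not_dvd_of_notMem hab h2.1 h4⟩
  have key : ∀ {l : ℕ} {v : HeightOneSpectrum (𝓞 K)} {m : ℤ}, Spl K l →
      (l : 𝓞 K) ∈ v.asIdeal → ¬ (l : ℤ) ∣ m → (la v (sc (m : K)) = 0 ↔ SqMod l m) := by
    intro l v m hl hv hm
    have e1 : rp v = l := (mem_iff_eq hl.1).1 hv
    subst e1
    exact la_int hodd (oddP_iff.2 hl.2.1) hm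
  have hndb : ∀ {l : ℕ}, ¬ (l : ℤ) ∣ 2 * (b * (a ^ 2 - 4 * b)) → ¬ (l : ℤ) ∣ b :=
    fun h h' => h ((h'.mul_right _).mul_left _)
  have hndD : ∀ {l : ℕ}, ¬ (l : ℤ) ∣ 2 * (b * (a ^ 2 - 4 * b)) → ¬ (l : ℤ) ∣ a ^ 2 - 4 * b :=
    fun h h' => h ((h'.mul_left _).mul_left _)
  have hP'2 : ∀ l ∈ Pp', l.Prime ∧ ¬ (l : ℤ) ∣ 2 * (b * (a ^ 2 - 4 * b)) ∧ ¬ SqMod l b ∧
      SqMod l (a ^ 2 - 4 * b) ∧ J l := by
    intro l hl
    obtain ⟨h2, h3, h4⟩ := hP'1 l hl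
    obtain ⟨z, hz, rfl⟩ := Finset.mem_image.1 hl
    obtain ⟨⟨_, _, v, hv, hv2⟩, _⟩ := hf z hz
    refine ⟨h2.1, h4, ?_, ?_, h3⟩
    · rw [← key h2 hv (hndb h4), (hv2 B (by simp)).2, hΦB z hz]
      exact one_ne_zero
    · rw [← key h2 hv (hndD h4), (hv2 D (by simp)).2, hΦD z hz]
  -- step 3
  set L₁ := LDof K a b ∅ Pp' τ with hL₁
  have hG1 : L₁.Good := LDof_good hodd hab (Finset.disjoint_empty_left _) (by simp)
    (fun l hl => ⟨(hP'2 l hl).1, (hP'2 l hl).2.1⟩)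
  have hkill : ∀ c, c ∈ T → ∃ v ∈ L₁.P', la v c ≠ 0 := by
    intro c hc
    obtain ⟨⟨_, _, v, hv, hv2⟩, _⟩ := hf c hc
    refine ⟨v, ⟨f c, Finset.mem_coe.2 (Finset.mem_image_of_mem f hc), hv⟩, ?_⟩
    rw [(hv2 c (by simp)).2, hΦz c hc]
    exact one_ne_zero
  have hDmem1 : D ∈ XX' L₁ := D_mem hodd hab (by simp)
    (fun l hl => ⟨(hP'2 l hl).1, (hP'2 l hl).2.1, (hP'2 l hl).2.2.2.1⟩) h1
  have hBmem1 : B ∈ XX L₁ := b_mem hodd hab (by simp)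
    (fun l hl => ⟨(hP'2 l hl).1, (hP'2 l hl).2.1⟩) h0
  have hzero1 : (0 : SC K) ∈ XX' L₁ := by
    refine ⟨fun v _ _ => eo_zero v, fun v hv => pri_zero hv,
      fun v hv => Or.inl ⟨eo_zero v, la_zero (hG1.oddSg v hv)⟩,
      fun v hv => la_zero (hG1.oddP' v hv), fun _ w => si_zero w⟩
  have hX'1 : XX' L₁ = {0, D} := by
    apply Set.Subset.antisymm
    · intro c hc
      by_contra hcon
      rw [Set.mem_insert_iff, Set.mem_singleton_iff, not_or] at hcon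
      have hcT : c ∈ T := (memT c).2 ⟨Or.inl ⟨hc.1, hc.2.1, hc.2.2.1, by
        rintro v ⟨q, hq, _⟩
        simp at hq, hc.2.2.2.2⟩, hcon⟩
      obtain ⟨v, hv, hv2⟩ := hkill c hcT
      exact hv2 (hc.2.2.2.1 v hv)
    · intro c hc
      rcases hc with rfl | hc
      · exact hzero1
      · rw [Set.mem_singleton_iff] at hc
        rw [hc]
        exact hDmem1
  have hN1 : NS (L₁.Sg ∪ L₁.P') ⊆ {(0 : SC K)} := by
    intro c hc
    by_contra hcon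
    rw [Set.mem_singleton_iff] at hcon
    have hcN : c ∈ NS L₀.Sg := ⟨hc.1, fun v hv => hc.2.1 v (Or.inl hv), hc.2.2⟩
    have hcD : c ≠ D := by
      rintro rfl
      exact D_notin hodd hab _ hc
    obtain ⟨v, hv, hv2⟩ := hkill c ((memT c).2 ⟨Or.inr hcN, hcon, hcD⟩)
    exact hv2 (hc.2.1 v (Or.inr hv))
  -- step 4
  have hcard1 : L₁.P'.ncard = Pp'.card * Module.finrank ℚ K :=
    ncard_ov (fun l hl => (hP'1 l hl).1)
  have hPe : ∀ (Q : Finset ℕ) (τ' : Bool), (LDof K a b ∅ Q τ').P = ∅ := by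
    intro Q τ'
    ext v
    constructor
    · rintro ⟨q, hq, _⟩
      simp at hq
    · intro h
      exact absurd h (Set.notMem_empty v)
  obtain ⟨φ, hφb, hφk, hφD⟩ := embed hodd hG1 (hPe _ _) hN1
    (fun γ v hv => (ov_smul γ).2 hv) (fun γ v => LDof_g hab γ v)
    (fun γ v hv => (ov_smul γ).2 hv)
    (fun γ v hv hγ => by
      obtain ⟨q, hq, hqv⟩ := hv
      exact ((hP'1 q (Finset.mem_coe.1 hq)).1.2.2 v hqv).2 γ hγ)
    hcard1 ⟨D, hD0, hX'1⟩ hBmem1 hB0 (fun γ => smul_int γ hab.ne.1) hD0 (Ne.symm hBD)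
    (fun γ => smul_int γ hab.ne.2)
  -- step 5
  obtain ⟨X, hX⟩ := XX_add hG1
  have hΨ : ∀ j, ∃ Ψ : SC K →+ ZMod 2, (∀ x ∈ X, Ψ x = φ j x) ∧ Ψ D = 1 := by
    intro j
    refine exists_fun2 (V := SC K) X (φ j) fun hDX => ?_
    have : D ∈ XX L₁ := by
      rw [← hX]
      exact hDX
    exact hφD this j
  choose Ψ hΨX hΨD using hΨ
  have hXfin : (XX L₁).Finite := by
    refine (fin_US (hG1.finSg.union hG1.finP')).subset fun c hc v hv => ?_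
    rw [Set.mem_union, not_or] at hv
    exact hc.1 v hv.1 hv.2
  obtain ⟨p, hpinj, hp⟩ := choose_inj (Finset.univ : Finset (Fin (Pp'.card +
    (if L₁.τ = true then 1 else 0)))) (fun j => {p : ℕ | Spl K p ∧ J p ∧
    ∃ v : HeightOneSpectrum (𝓞 K), (p : 𝓞 K) ∈ v.asIdeal ∧
      ∀ y ∈ (hXfin.toFinset ∪ {B, D} : Finset (SC K)), eo v y = 0 ∧ la v y = Ψ j y})
    (fun j _ => hJ.cheb _ _) (badS a b ∪ Pp')
  set Pp : Finset ℕ := Finset.univ.image p with hPp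
  have hcardP : Pp.card = Pp'.card + (if τ = true then 1 else 0) := by
    rw [hPp, Finset.card_image_of_injOn hpinj, Finset.card_univ, Fintype.card_fin]
    rfl
  have hdisj : Disjoint Pp Pp' := by
    rw [Finset.disjoint_left]
    intro l hl hl'
    obtain ⟨j, hj, rfl⟩ := Finset.mem_image.1 hl
    exact (hp j hj).2 (Finset.mem_union_right _ hl')
  have hP1 : ∀ l ∈ Pp, Spl K l ∧ J l ∧ ¬ (l : ℤ) ∣ 2 * (b * (a ^ 2 - 4 * b)) := by
    intro l hl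
    obtain ⟨j, hj, rfl⟩ := Finset.mem_image.1 hl
    obtain ⟨⟨h2, h3, _⟩, h4⟩ := hp j hj
    exact ⟨h2, h3, not_dvd_of_notMem hab h2.1 fun h => h4 (Finset.mem_union_left _ h)⟩
  have hBX : B ∈ X := by
    have : B ∈ (X : Set (SC K)) := by
      rw [hX]
      exact hBmem1
    exact this
  have hP2 : ∀ l ∈ Pp, l.Prime ∧ ¬ (l : ℤ) ∣ 2 * (b * (a ^ 2 - 4 * b)) ∧ SqMod l b ∧
      ¬ SqMod l (a ^ 2 - 4 * b) ∧ J l := by
    intro l hl
    obtain ⟨h2, h3, h4⟩ := hP1 l hl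
    obtain ⟨j, hj, rfl⟩ := Finset.mem_image.1 hl
    obtain ⟨⟨_, _, v, hv, hv2⟩, _⟩ := hp j hj
    refine ⟨h2.1, h4, ?_, ?_, h3⟩
    · rw [← key h2 hv (hndb h4), (hv2 B (by simp)).2, hΨX j B hBX, hφb j]
    · rw [← key h2 hv (hndD h4), (hv2 D (by simp)).2, hΨD j]
      exact one_ne_zero
  -- step 6
  set L₂ := LDof K a b Pp Pp' τ with hL₂
  have hG2 : L₂.Good := LDof_good hodd hab hdisj (fun l hl => ⟨(hP2 l hl).1, (hP2 l hl).2.1⟩)
    (fun l hl => ⟨(hP'2 l hl).1, (hP'2 l hl).2.1⟩)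
  have hBmem2 : B ∈ XX L₂ := b_mem hodd hab
    (fun l hl => ⟨(hP2 l hl).1, (hP2 l hl).2.1, (hP2 l hl).2.2.1⟩)
    (fun l hl => ⟨(hP'2 l hl).1, (hP'2 l hl).2.1⟩) h0
  have hDmem2 : D ∈ XX' L₂ := D_mem hodd hab
    (fun l hl => ⟨(hP2 l hl).1, (hP2 l hl).2.1⟩)
    (fun l hl => ⟨(hP'2 l hl).1, (hP'2 l hl).2.1, (hP'2 l hl).2.2.2.1⟩) h1
  have hX2 : XX L₂ ⊆ {0, B} := by
    intro c hc
    have hc1 : c ∈ XX L₁ := ⟨hc.1, hc.2.1, by
      rintro v ⟨q, hq, _⟩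
      simp at hq, hc.2.2.2⟩
    suffices hs : ∀ j, ∀ γ : K ≃ₐ[ℚ] K, φ j (γ • c) = 0 by
      rcases hφk c hc1 hs with h | h
      · rw [h]
        exact Set.mem_insert _ _
      · rw [h]
        exact Set.mem_insert_of_mem _ rfl
    intro j γ
    obtain ⟨⟨_, _, v, hv, hv2⟩, _⟩ := hp j (Finset.mem_univ j)
    have hlP : p j ∈ Pp := Finset.mem_image_of_mem p (Finset.mem_univ j)
    have hγc : γ • c ∈ XX L₁ := XX_smul hodd hab hG1 γ hc1
    have hγX : γ • c ∈ X := by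
      have : γ • c ∈ (X : Set (SC K)) := by
        rw [hX]
        exact hγc
      exact this
    have hZ : γ • c ∈ (hXfin.toFinset ∪ {B, D} : Finset (SC K)) :=
      Finset.mem_union_left _ (hXfin.mem_toFinset.2 hγc)
    obtain ⟨he, hla⟩ := hv2 _ hZ
    rw [← hΨX j _ hγX, ← hla]
    have hvP : γ⁻¹ • v ∈ L₂.P := (ov_smul γ⁻¹).2 ⟨p j, Finset.mem_coe.2 hlP, hv⟩
    have h5 : la (γ⁻¹ • v) c = 0 := hc.2.2.1 _ hvP
    have h6 : OddP (γ⁻¹ • v) := hG2.oddP _ hvP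
    have h7 : eo (γ⁻¹ • v) c = 0 := by
      have := eo_smul (v := v) γ⁻¹ (γ • c)
      rw [inv_smul_smul] at this
      rw [this, he]
    have h8 := la_smul (v := γ⁻¹ • v) γ h6 h7
    rw [smul_inv_smul] at h8
    rw [h8, h5]
  -- step 7
  refine ⟨Pp, Pp', hdisj, hP2, hP'2, hcardP, hX2, ?_⟩
  have hzero2 : (0 : SC K) ∈ XX L₂ := by
    refine ⟨fun v _ _ => eo_zero v, fun v hv => ?_, fun v hv => la_zero (hG2.oddP v hv),
      fun _ w => si_zero w⟩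
    unfold tp
    rw [eo_zero, la_zero (hG2.oddSg v hv)]
    ring
  have hzero2' : (0 : SC K) ∈ XX' L₂ := by
    refine ⟨fun v _ _ => eo_zero v, fun v hv => pri_zero hv,
      fun v hv => Or.inl ⟨eo_zero v, la_zero (hG2.oddSg v hv)⟩,
      fun v hv => la_zero (hG2.oddP' v hv), fun _ w => si_zero w⟩
  have hXeq : XX L₂ = {0, B} := by
    apply Set.Subset.antisymm hX2
    intro c hc
    rcases hc with rfl | hc
    · exact hzero2
    · rw [Set.mem_singleton_iff] at hc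
      rw [hc]
      exact hBmem2
  have hgw := gw hG2 (by
    intro c hc
    exact hN1 ⟨hc.1, fun v hv => hc.2.1 v (by
      rcases hv with hv | hv
      · exact Or.inl (Or.inl hv)
      · exact Or.inr hv), hc.2.2⟩)
  have hcP : L₂.P.ncard = Pp.card * Module.finrank ℚ K := ncard_ov (fun l hl => (hP1 l hl).1)
  have hcP' : L₂.P'.ncard = Pp'.card * Module.finrank ℚ K := ncard_ov (fun l hl => (hP'1 l hl).1)
  have hτ : L₂.τ = τ := rfl
  rw [hcP, hcP', hτ, hXeq, Set.ncard_pair (Ne.symm hB0), hcardP] at hgw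
  have hexp : Pp'.card * Module.finrank ℚ K + (if τ = true then Module.finrank ℚ K else 0) =
      (Pp'.card + (if τ = true then 1 else 0)) * Module.finrank ℚ K := by
    split_ifs <;> ring
  rw [hexp] at hgw
  have hn2 : (XX' L₂).ncard = 2 := Nat.eq_of_mul_eq_mul_right (by positivity) hgw
  have hsub : ({0, D} : Set (SC K)) ⊆ XX' L₂ := by
    intro c hc
    rcases hc with rfl | hc
    · exact hzero2'
    · rw [Set.mem_singleton_iff] at hc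
      rw [hc]
      exact hDmem2
  have hfin2 : (XX' L₂).Finite := Set.finite_of_ncard_ne_zero (by rw [hn2]; norm_num)
  have := Set.eq_of_subset_of_ncard_le hsub (by rw [hn2, Set.ncard_pair (Ne.symm hD0)]) hfin2
  rw [← this]

end H38T1
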