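import Pool.Agent.H14.T1.Mu

/-!
Finiteness of the two-primary part of the Tate-Shafarevich group (definition).
-/

set_option autoImplicit false
open scoped Classical

open NumberField IsDedekindDomain WeierstrassCurve Pool.Agent.H10

namespace H38T1

section defs

variable (K : Type) [Field K] [NumberField K] (W : WeierstrassCurve K)

/-- The two-primary part of the Tate-Shafarevich group of `W` over `K` is finite: the everywhere
locally trivial continuous cocycles `f` for which `2 ^ m f` is a coboundary for some `m` fall into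
finitely many classes modulo coboundaries. -/
def TwoPartFinite : Prop :=
  ∃ S : Set ((AlgebraicClosure K ≃ₐ[K] AlgebraicClosure K) →
      (W.baseChange (AlgebraicClosure K)).toAffine.Point), S.Finite ∧
    ∀ f : (AlgebraicClosure K ≃ₐ[K] AlgebraicClosure K) →
        (W.baseChange (AlgebraicClosure K)).toAffine.Point,
      IsCocycle K W f → IsLocTriv K W f → (∃ m : ℕ, IsCobound K W (fun σ => (2 ^ m) • f σ)) →
      ∃ g ∈ S, IsCobound K W (fun σ => f σ - g σ)

variable {K W}

lemma twoPartFinite_of (h : {x : Sha K W | ∃ m : ℕ, 2 ^ m • x = 0}.Finite) :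
    TwoPartFinite K W := by
  obtain ⟨rep, hrep⟩ : ∃ rep : Sha K W → ShaZ K W, ∀ x, Sha.mk (rep x) = x :=
    ⟨Function.surjInv Sha.mk_surjective, Function.surjInv_eq Sha.mk_surjective⟩
  refine ⟨(fun x => (rep x : Coch K W)) '' {x : Sha K W | ∃ m : ℕ, 2 ^ m • x = 0}, h.image _, ?_⟩
  rintro f hf hl ⟨m, hm⟩
  refine ⟨_, ⟨Sha.mk ⟨f, hf, hl⟩, ⟨m, ?_⟩, rfl⟩, ?_⟩
  · rw [← Sha.mk_nsmul, Sha.mk_eq_zero]
    exact hm
  · have h1 : Sha.mk (⟨f, hf, hl⟩ : ShaZ K W) - Sha.mk (rep (Sha.mk ⟨f, hf, hl⟩)) =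
        Sha.mk (⟨f, hf, hl⟩ - rep (Sha.mk ⟨f, hf, hl⟩)) := rfl
    rw [hrep, sub_self] at h1
    exact (Sha.mk_eq_zero _).1 h1.symm

end defs

end H38T1
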