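import Pool.Agent.H38.T1.Tw

/-!
The conclusion for a curve and its isogenous curve (no row).
-/

set_option autoImplicit false
open scoped Classical

open NumberField

namespace H38T1

/-- The conclusion for both curves. -/
def Both (L : Type) [Field L] [NumberField L] (a b n : ℤ) : Prop :=
  Triv L ((a * n : ℤ) : L) ((b * n ^ 2 : ℤ) : L) ∧
    Triv L ((-2 * (a * n) : ℤ) : L) (((a ^ 2 - 4 * b) * n ^ 2 : ℤ) : L)

end H38T1
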