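import Pool.Agent.H38.T1.Fin2
import Pool.Agent.H38.T1.Fx
import Pool.Agent.H38.T1.Tf
import Pool.Agent.H14.T1.Inf
import Pool.Agent.H14.CT.Fin

/-!
Interfaces of the parts S4 and S5 (PI helper14).
-/

set_option autoImplicit false
set_option linter.unusedSectionVars false
open scoped Classical

open NumberField

namespace H38T1

/-- The field generated by the square roots of the elements of `D`. -/
noncomputable def Mf (D : Set ℕ) : IntermediateField ℚ (AlgebraicClosure ℚ) :=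
  IntermediateField.adjoin ℚ {x | ∃ d ∈ D, x ^ 2 = (d : AlgebraicClosure ℚ)}

theorem Mf_inf {D : Set ℕ} (hD : D.Infinite) (hs : ∀ d ∈ D, Squarefree d) :
    ¬ FiniteDimensional ℚ (Mf D) :=
  H14T1.Mf_inf hD hs

theorem multi {K L : Type} [Field K] [NumberField K] [IsGalois ℚ K] [Field L] [NumberField L]
    {D : Set ℕ} (h1 : 1 ∈ D)
    (hmul : ∀ d ∈ D, ∀ d' ∈ D, ∃ d'' ∈ D, ∃ s : ℕ, s ≠ 0 ∧ d * d' = d'' * s ^ 2) {A B : ℤ}
    (hB : B ≠ 0) (hAB : A ^ 2 - 4 * B ≠ 0)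
    (h : ∀ d ∈ D, Triv K ((A * d : ℤ) : K) ((B * d ^ 2 : ℤ) : K))
    (i : K →ₐ[ℚ] AlgebraicClosure ℚ) (j : L →ₐ[ℚ] AlgebraicClosure ℚ)
    (hij : j.fieldRange ≤ i.fieldRange ⊔ Mf D) :
    TwoPartFinite L (⟨0, (A : L), 0, (B : L), 0⟩ : WeierstrassCurve L) ∧
      Finite (⟨0, (A : L), 0, (B : L), 0⟩ : WeierstrassCurve L).toAffine.Point := by
  obtain ⟨D', hD'⟩ : ∃ D' : Set ℕ, D' = {d ∈ D | d ≠ 0} := ⟨_, rfl⟩
  have hM : H14T1.Mul2 D' := by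
    subst hD'
    refine ⟨⟨h1, one_ne_zero⟩, fun d hd => hd.2, fun d hd d' hd' => ?_⟩
    obtain ⟨d'', hd'', s, hs, he⟩ := hmul d hd.1 d' hd'.1
    refine ⟨d'', ⟨hd'', ?_⟩, s, hs, he⟩
    rintro rfl
    rw [zero_mul] at he
    rcases mul_eq_zero.1 he with h2 | h2
    · exact hd.2 h2
    · exact hd'.2 h2
  have hle : Mf D ≤ H14T1.Mf D' := by
    subst hD'
    unfold Mf
    rw [IntermediateField.adjoin_le_iff]
    rintro x ⟨d, hd, hx⟩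
    by_cases h0 : d = 0
    · subst h0
      have hx0 : x = 0 := by
        have : x ^ 2 = 0 := by rw [hx]; simp
        exact pow_eq_zero_iff (two_ne_zero) |>.1 this
      rw [hx0]
      exact zero_mem _
    · exact IntermediateField.subset_adjoin ℚ _ ⟨d, ⟨hd, h0⟩, hx⟩
  have hG : H14T1.GoodD D' A B K := H14T1.goodD_of_triv fun d hd => h d (by
    subst hD'
    exact hd.1)
  obtain ⟨k1, k2⟩ := H14T1.multi_sha hM hB hAB hG i j (hij.trans (sup_le_sup_left hle _)) 1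
    hM.one
  have e : H14T1.cv L (A * (1 : ℕ)) (B * (1 : ℕ) ^ 2) = ⟨0, (A : L), 0, (B : L), 0⟩ := by
    simp [H14T1.cv]
  rw [e] at k1 k2
  exact ⟨twoPartFinite_of k1, k2⟩

theorem count {a b : ℤ} (hab : Hyp a b) {S : Finset ℕ} (hS : ∀ p ∈ S, p.Prime ∧ p ≠ 2)
    {J : ℕ → Prop} (j : ℕ)
    (hJ : ∀ l : ℕ, l.Prime → (∀ p ∈ S, ¬ p ^ (j + 2) ∣ l ^ (p - 1) - 1) → J l)
    {n₀ : ℕ} (hn₀ : n₀ ≠ 0) : ∃ c : ℝ, 0 < c ∧ ∃ X₀ : ℝ, ∀ x : ℝ, X₀ ≤ x →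
      c * x * (Real.log x) ^ (1 / 4 * ∏ p ∈ S, (1 - 1 / (p : ℝ) ^ (j + 1)) - 1 : ℝ) ≤
        {d : ℕ | (d : ℝ) ≤ x ∧ Free a b J d ∧ d.Coprime n₀}.ncard := by
  obtain ⟨c, hc, X, hX⟩ := H14CT.count hab j S hS hJ hn₀ ∅ (by simp)
  refine ⟨c, hc, X, fun x hx => (hX x hx).trans ?_⟩
  rw [Nat.cast_le, ← Set.ncard_coe_finset]
  refine Set.ncard_le_ncard ?_ ?_
  · intro d hd
    obtain ⟨h1, h2, h3, -⟩ := Finset.mem_filter.1 (Finset.mem_coe.1 hd)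
    obtain ⟨h4, h5⟩ := Finset.mem_Icc.1 h1
    refine ⟨?_, h2, h3⟩
    exact (Nat.le_floor_iff' (by omega)).1 h5
  · refine (Set.finite_Iic ⌊x⌋₊).subset ?_
    rintro d ⟨h1, -, -⟩
    exact Nat.le_floor h1

end H38T1
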